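import Mathlib

/-!
# SRig: the algebraic data (section 0 of the blueprint for MP_ec87dd_an)
-/

set_option autoImplicit false

open scoped BigOperators

namespace Pool.Agent.SRig

/-- lattice vectors -/
abbrev V := Fin 4 → ℤ

/-- `t₀ + 1/t₀` -/
noncomputable def s1 : ℝ := (1 + √13) / 2

/-- `w₀ + 1/w₀` -/
noncomputable def s2 : ℝ := (1 - √13) / 2

/-- the Salem number -/
noncomputable def t0 : ℝ := (s1 + √(s1 ^ 2 - 4)) / 2

/-- its inverse -/
noncomputable def t1 : ℝ := (s1 - √(s1 ^ 2 - 4)) / 2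

/-- the conjugate on the unit circle -/
noncomputable def w0 : ℂ := ((s2 : ℂ) + (√(4 - s2 ^ 2) : ℝ) * Complex.I) / 2

lemma sqrt13_sq : (√13 : ℝ) ^ 2 = 13 := Real.sq_sqrt (by norm_num)

lemma sqrt13_lo : (3.605 : ℝ) < √13 := by
  apply Real.lt_sqrt_of_sq_lt; norm_num

lemma sqrt13_hi : (√13 : ℝ) < 3.606 := by
  rw [Real.sqrt_lt' (by norm_num)]; norm_num

lemma s1_sq : s1 ^ 2 = s1 + 3 := by
  unfold s1; nlinarith [sqrt13_sq]

lemma s2_sq : s2 ^ 2 = s2 + 3 := by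
  unfold s2; nlinarith [sqrt13_sq]

lemma s1_lo : (2.3025 : ℝ) < s1 := by unfold s1; linarith [sqrt13_lo]
lemma s1_hi : s1 < 2.303 := by unfold s1; linarith [sqrt13_hi]
lemma s2_lo : (-1.303 : ℝ) < s2 := by unfold s2; linarith [sqrt13_hi]
lemma s2_hi : s2 < -1.3025 := by unfold s2; linarith [sqrt13_lo]

lemma r1_sq : √(s1 ^ 2 - 4) ^ 2 = s1 ^ 2 - 4 := Real.sq_sqrt (by nlinarith [s1_lo])

lemma r1_lo : (1.14 : ℝ) < √(s1 ^ 2 - 4) := by
  apply Real.lt_sqrt_of_sq_lt; nlinarith [s1_lo]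

lemma r1_hi : √(s1 ^ 2 - 4) < 1.143 := by
  rw [Real.sqrt_lt' (by norm_num)]; nlinarith [s1_hi, s1_lo]

lemma t0_lo : (1.72 : ℝ) < t0 := by unfold t0; linarith [s1_lo, r1_lo]
lemma t0_hi : t0 < 1.723 := by unfold t0; linarith [s1_hi, r1_hi]
lemma t0_pos : 0 < t0 := by linarith [t0_lo]
lemma one_lt_t0 : 1 < t0 := by linarith [t0_lo]

lemma t0_mul_t1 : t0 * t1 = 1 := by
  unfold t0 t1; nlinarith [r1_sq]

lemma t0_add_t1 : t0 + t1 = s1 := by
  unfold t0 t1; ring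

lemma t1_eq : t1 = t0⁻¹ := by
  have := t0_mul_t1
  field_simp [t0_pos.ne'] at this ⊢
  linarith

lemma t1_pos : 0 < t1 := by rw [t1_eq]; exact inv_pos.2 t0_pos
lemma t1_lt_one : t1 < 1 := by rw [t1_eq]; exact inv_lt_one_of_one_lt₀ one_lt_t0

lemma t0_quad : t0 ^ 2 = s1 * t0 - 1 := by
  have h1 := t0_mul_t1
  have h2 := t0_add_t1
  have : t1 = s1 - t0 := by linarith
  rw [this] at h1; nlinarith

lemma t1_quad : t1 ^ 2 = s1 * t1 - 1 := by
  have h1 := t0_mul_t1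
  have h2 := t0_add_t1
  have : t0 = s1 - t1 := by linarith
  rw [this] at h1; nlinarith

/-- a root of `x² - s x + 1` with `s² = s + 3` is a root of the Salem polynomial -/
lemma quartic {R : Type*} [CommRing R] {x s : R} (hx : x ^ 2 = s * x - 1) (hs : s ^ 2 = s + 3) :
    x ^ 4 = x ^ 3 + x ^ 2 + x - 1 := by
  linear_combination (x ^ 2 + (s - 1) * x + 1) * hx + x ^ 2 * hs

lemma t0_quartic : t0 ^ 4 = t0 ^ 3 + t0 ^ 2 + t0 - 1 := quartic t0_quad s1_sq
lemma t1_quartic : t1 ^ 4 = t1 ^ 3 + t1 ^ 2 + t1 - 1 := quartic t1_quad s1_sq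

lemma r2_sq : √(4 - s2 ^ 2) ^ 2 = 4 - s2 ^ 2 := Real.sq_sqrt (by nlinarith [s2_lo, s2_hi])

lemma r2_pos : 0 < √(4 - s2 ^ 2) := Real.sqrt_pos.2 (by nlinarith [s2_lo, s2_hi])

lemma w0_re : w0.re = s2 / 2 := by
  simp [w0]

lemma w0_im : w0.im = √(4 - s2 ^ 2) / 2 := by
  simp [w0]

lemma w0_normSq : Complex.normSq w0 = 1 := by
  rw [Complex.normSq_apply, w0_re, w0_im]
  nlinarith [r2_sq]

lemma w0_norm : ‖w0‖ = 1 := by
  have h := Complex.normSq_eq_norm_sq w0
  rw [w0_normSq] at h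
  have h1 : 0 ≤ ‖w0‖ := norm_nonneg _
  nlinarith

lemma w0_ne : w0 ≠ 0 := by
  intro h; have := w0_norm; rw [h, norm_zero] at this; norm_num at this

lemma w0_quad : w0 ^ 2 = (s2 : ℂ) * w0 - 1 := by
  have h1 := r2_sq
  apply Complex.ext
  · rw [pow_two, Complex.mul_re, Complex.sub_re, Complex.mul_re, w0_re, w0_im]
    simp
    nlinarith
  · rw [pow_two, Complex.mul_im, Complex.sub_im, Complex.mul_im, w0_re, w0_im]
    simp
    ring

lemma s2_sqC : (s2 : ℂ) ^ 2 = (s2 : ℂ) + 3 := by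
  exact_mod_cast congrArg (fun x : ℝ => (x : ℂ)) s2_sq

lemma w0_quartic : w0 ^ 4 = w0 ^ 3 + w0 ^ 2 + w0 - 1 := quartic w0_quad s2_sqC

/-! ### The matrix and the coordinates -/

/-- incidence matrix of `0 → 2, 1 → 13, 2 → 3, 3 → 01` -/
def P : Matrix (Fin 4) (Fin 4) ℤ := !![0, 0, 0, 1; 0, 1, 0, 1; 1, 0, 0, 0; 0, 1, 1, 0]

/-- inverse -/
def Pi : Matrix (Fin 4) (Fin 4) ℤ := !![0, 0, 1, 0; -1, 1, 0, 0; 1, -1, 0, 1; 1, 0, 0, 0]

lemma P_mul_Pi : P * Pi = 1 := by decide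
lemma Pi_mul_P : Pi * P = 1 := by decide

/-- evaluation at a root -/
def yy {R : Type*} [CommRing R] (x : R) (v : Fin 4 → R) : R :=
  v 0 + v 1 * (x ^ 3 - 1) + v 2 * x + v 3 * x ^ 2

/-- expanding coordinate -/
noncomputable def ll (v : Fin 4 → ℝ) : ℝ := yy t0 v

/-- contracting coordinate -/
noncomputable def cc (v : Fin 4 → ℝ) : ℝ := yy t1 v

/-- neutral coordinate -/
noncomputable def zz (v : Fin 4 → ℝ) : ℂ := yy w0 (fun i => (v i : ℂ))

/-- real vector of a lattice vector -/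
def re (v : V) : Fin 4 → ℝ := fun i => (v i : ℝ)

lemma yy_P {R : Type*} [CommRing R] {x : R} (hx : x ^ 4 = x ^ 3 + x ^ 2 + x - 1) (v : Fin 4 → R) :
    yy x ((P.map (Int.cast : ℤ → R)).mulVec v) = x * yy x v := by
  have e : ∀ i, (P.map (Int.cast : ℤ → R)).mulVec v i =
      ![v 3, v 1 + v 3, v 0, v 1 + v 2] i := by
    intro i
    fin_cases i <;> simp [Matrix.mulVec, dotProduct, Fin.sum_univ_four, P]
  unfold yy
  rw [e, e, e, e]
  simp
  linear_combination (-(v 1)) * hx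

/-! ### The norm form -/

/-- rational part -/
def nA (v : V) : ℤ :=
  v 0 ^ 2 + v 2 ^ 2 + v 3 ^ 2 - v 1 ^ 2 + v 0 * v 1 + v 0 * v 3 + v 1 * v 2 - v 1 * v 3

/-- irrational part -/
def nB (v : V) : ℤ := - v 1 ^ 2 + v 0 * v 1 + v 0 * v 2 + v 0 * v 3 + v 2 * v 3

/-- the norm -/
def nN (v : V) : ℤ := nA v ^ 2 + nA v * nB v - 3 * nB v ^ 2

lemma pair {R : Type*} [CommRing R] {x y s : R} (h1 : x * y = 1) (h2 : x + y = s)
    (hs : s ^ 2 = s + 3) (v : V) :
    yy x (fun i => (v i : R)) * yy y (fun i => (v i : R)) = (nA v : R) + nB v * s := by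
  have e2 : x ^ 2 + y ^ 2 = s + 1 := by
    have : x ^ 2 + y ^ 2 = (x + y) ^ 2 - 2 * (x * y) := by ring
    rw [this, h1, h2, hs]; ring
  have e3 : x ^ 3 + y ^ 3 = s + 3 := by
    have : x ^ 3 + y ^ 3 = (x + y) * (x ^ 2 + y ^ 2) - (x * y) * (x + y) := by ring
    rw [this, h1, h2, e2]; linear_combination hs
  unfold yy nA nB
  push_cast
  have f22 : x ^ 2 * y ^ 2 = 1 := by rw [← mul_pow, h1, one_pow]
  have f33 : x ^ 3 * y ^ 3 = 1 := by rw [← mul_pow, h1, one_pow]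
  linear_combination (v 1 ^ 2 : R) * f33 + (v 2 ^ 2 : R) * h1 + (v 3 ^ 2 : R) * f22
    + ((v 0 * v 1 : R) - (v 1) ^ 2) * e3 + (v 0 * v 2 : R) * h2 + (v 0 * v 3 : R) * e2
    + (v 1 * v 2 : R) * (h1 * (x ^ 2 + y ^ 2) + e2 - h2)
    + (v 1 * v 3 : R) * (f22 * (x + y) + h2 - e2)
    + (v 2 * v 3 : R) * (h1 * (x + y) + h2)

lemma ll_mul_cc (v : V) : ll (re v) * cc (re v) = (nA v : ℝ) + nB v * s1 :=
  pair t0_mul_t1 t0_add_t1 s1_sq v

lemma zz_normSq (v : V) : ‖zz (re v)‖ ^ 2 = (nA v : ℝ) + nB v * s2 := by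
  have h1 : w0 * (starRingEnd ℂ) w0 = 1 := by
    rw [Complex.mul_conj, w0_normSq]; simp
  have h2 : w0 + (starRingEnd ℂ) w0 = (s2 : ℂ) := by
    rw [Complex.add_conj, w0_re]
    push_cast; ring
  have h := pair h1 h2 s2_sqC v
  have h3 : yy ((starRingEnd ℂ) w0) (fun i => (v i : ℂ)) = (starRingEnd ℂ) (zz (re v)) := by
    unfold zz yy re
    simp
  have h4 : yy w0 (fun i => (v i : ℂ)) = zz (re v) := by
    unfold zz re
    simp
  rw [h3, h4, Complex.mul_conj, Complex.normSq_eq_norm_sq] at h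
  exact_mod_cast h

lemma norm_eq (v : V) : ll (re v) * cc (re v) * ‖zz (re v)‖ ^ 2 = (nN v : ℝ) := by
  rw [ll_mul_cc, zz_normSq]
  have h1 : s1 + s2 = 1 := by unfold s1 s2; ring
  have h2 : s1 * s2 = -3 := by unfold s1 s2; nlinarith [sqrt13_sq]
  unfold nN
  push_cast
  linear_combination (nA v * nB v : ℝ) * h1 + (nB v ^ 2 : ℝ) * h2

lemma even_of_nN (v : V) (h : (2 : ℤ) ∣ nN v) : ∀ i, (2 : ℤ) ∣ v i := by
  have key : ∀ a b c d : ZMod 2,
      (a ^ 2 + c ^ 2 + d ^ 2 - b ^ 2 + a * b + a * d + b * c - b * d) ^ 2 +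
        (a ^ 2 + c ^ 2 + d ^ 2 - b ^ 2 + a * b + a * d + b * c - b * d) *
        (- b ^ 2 + a * b + a * c + a * d + c * d) -
        3 * (- b ^ 2 + a * b + a * c + a * d + c * d) ^ 2 = 0 →
      a = 0 ∧ b = 0 ∧ c = 0 ∧ d = 0 := by decide
  have h1 : ((nN v : ℤ) : ZMod 2) = 0 := (ZMod.intCast_zmod_eq_zero_iff_dvd _ 2).2 h
  unfold nN nA nB at h1
  push_cast at h1
  obtain ⟨h0, h1, h2, h3⟩ := key _ _ _ _ h1
  intro i
  have : ((v i : ℤ) : ZMod 2) = 0 := by fin_cases i <;> assumption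
  exact (ZMod.intCast_zmod_eq_zero_iff_dvd _ 2).1 this

lemma nN_ne_zero {v : V} (hv : v ≠ 0) : nN v ≠ 0 := by
  have main : ∀ (n : ℕ) (v : V), (∑ i, (v i).natAbs) ≤ n → nN v = 0 → v = 0 := by
    intro n
    induction n with
    | zero =>
      intro v hv _
      have h1 : ∑ i, (v i).natAbs = 0 := by omega
      rw [Finset.sum_eq_zero_iff] at h1
      funext i
      have := h1 i (Finset.mem_univ i)
      exact Int.natAbs_eq_zero.1 this
    | succ n ih =>
      intro v hvn h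
      have h2 := even_of_nN v (by rw [h]; exact dvd_zero _)
      choose u hu using h2
      have hvu : v = fun i => 2 * u i := funext hu
      have h3 : nN v = 16 * nN u := by
        rw [hvu]; unfold nN nA nB; ring
      have h4 : nN u = 0 := by omega
      by_cases hs : ∑ i, (v i).natAbs = 0
      · rw [Finset.sum_eq_zero_iff] at hs
        funext i
        exact Int.natAbs_eq_zero.1 (hs i (Finset.mem_univ i))
      have h5 : ∑ i, (v i).natAbs = 2 * ∑ i, (u i).natAbs := by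
        rw [Finset.mul_sum]
        refine Finset.sum_congr rfl fun i _ => ?_
        rw [hu i, Int.natAbs_mul]
        rfl
      have h6 := ih u (by omega) h4
      rw [hvu, h6]
      funext i
      simp
  intro h
  exact hv (main _ v le_rfl h)

/-- (B1) -/
theorem norm_form {v : V} (hv : v ≠ 0) :
    1 ≤ |ll (re v)| * |cc (re v)| * ‖zz (re v)‖ ^ 2 := by
  have h := norm_eq v
  have h1 : (1 : ℝ) ≤ |(nN v : ℝ)| := by
    have : 1 ≤ |nN v| := Int.one_le_abs (nN_ne_zero hv)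
    exact_mod_cast this
  rw [← h, abs_mul, abs_mul, abs_of_nonneg (sq_nonneg ‖zz (re v)‖)] at h1
  exact h1

/-! ### The coordinates as a linear isomorphism -/

lemma yy_add {R : Type*} [CommRing R] (x : R) (v w : Fin 4 → R) :
    yy x (v + w) = yy x v + yy x w := by
  unfold yy; simp only [Pi.add_apply]; ring

lemma yy_smul {R : Type*} [CommRing R] (x : R) (a : R) (v : Fin 4 → R) :
    yy x (a • v) = a * yy x v := by
  unfold yy; simp only [Pi.smul_apply, smul_eq_mul]; ring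

/-- all coordinates together -/
noncomputable def Lam : (Fin 4 → ℝ) →ₗ[ℝ] ℝ × ℂ × ℝ where
  toFun v := (ll v, zz v, cc v)
  map_add' v w := by
    refine Prod.ext (yy_add _ _ _) (Prod.ext ?_ (yy_add _ _ _))
    change zz (v + w) = zz v + zz w
    unfold zz
    rw [← yy_add]
    congr 1
    funext i
    simp
  map_smul' a v := by
    refine Prod.ext (yy_smul _ _ _) (Prod.ext ?_ (yy_smul _ _ _))
    change zz (a • v) = a • zz v
    unfold zz
    rw [Complex.real_smul, ← yy_smul]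
    congr 1
    funext i
    simp

lemma red {R : Type*} [CommRing R] {x s : R} (hx : x ^ 2 = s * x - 1) (hs : s ^ 2 = s + 3)
    (v : Fin 4 → R) :
    yy x v = (v 0 - v 1 - v 3 - v 1 * s) + (v 2 + v 3 * s + v 1 * (s + 2)) * x := by
  unfold yy
  linear_combination (v 1 * x + v 1 * s + v 3) * hx + (v 1 * x) * hs

lemma Lam_inj : Function.Injective Lam := by
  rw [← LinearMap.ker_eq_bot, LinearMap.ker_eq_bot']
  intro v hv
  have h1 : ll v = 0 := congrArg Prod.fst hv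
  have h2 : zz v = 0 := congrArg (fun p => p.2.1) hv
  have h3 : cc v = 0 := congrArg (fun p => p.2.2) hv
  unfold ll at h1
  unfold cc at h3
  unfold zz at h2
  rw [red t0_quad s1_sq] at h1
  rw [red t1_quad s1_sq] at h3
  rw [red w0_quad s2_sqC] at h2
  set α := v 0 - v 1 - v 3 - v 1 * s1 with hα
  set β := v 2 + v 3 * s1 + v 1 * (s1 + 2) with hβ
  have hb : β = 0 := by
    have h4 : β * (t0 - t1) = 0 := by linear_combination h1 - h3
    rcases mul_eq_zero.1 h4 with h | h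
    · exact h
    · exfalso; linarith [one_lt_t0, t1_lt_one]
  have ha : α = 0 := by rw [hb] at h1; linarith
  have him := congrArg Complex.im h2
  have hre := congrArg Complex.re h2
  have hb' : v 2 + v 3 * s2 + v 1 * (s2 + 2) = 0 := by
    have e : (v 2 + v 3 * s2 + v 1 * (s2 + 2)) * w0.im = 0 := by
      rw [Complex.zero_im] at him
      rw [← him]
      simp
    rcases mul_eq_zero.1 e with h | h
    · exact h
    · exfalso
      rw [w0_im] at h
      linarith [r2_pos]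
  have ha' : v 0 - v 1 - v 3 - v 1 * s2 = 0 := by
    have e : ((v 0 - v 1 - v 3 - v 1 * s2 : ℝ) : ℂ) + ((v 2 + v 3 * s2 + v 1 * (s2 + 2) : ℝ) : ℂ) * w0 = 0 := by
      rw [← h2]; push_cast; ring
    rw [hb'] at e
    simp only [Complex.ofReal_zero, zero_mul, add_zero] at e
    exact_mod_cast e
  have hs : s1 - s2 ≠ 0 := by
    have := s1_lo; have := s2_hi
    intro h; linarith
  have e1 : v 1 = 0 := by
    have : v 1 * (s1 - s2) = 0 := by linear_combination ha' - ha + hα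
    exact (mul_eq_zero.1 this).resolve_right hs
  have e3 : v 3 = 0 := by
    rw [e1] at hb' hβ
    have : v 3 * (s1 - s2) = 0 := by linear_combination hb - hb' - hβ
    exact (mul_eq_zero.1 this).resolve_right hs
  have e2 : v 2 = 0 := by rw [e1, e3] at hb'; linarith
  have e0 : v 0 = 0 := by rw [e1, e3] at ha'; linarith
  funext i
  fin_cases i <;> assumption

/-- the coordinates as an isomorphism -/
noncomputable def LamE : (Fin 4 → ℝ) ≃ₗ[ℝ] ℝ × ℂ × ℝ :=
  LinearEquiv.ofInjectiveOfFinrankEq Lam Lam_inj (by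
    simp [Module.finrank_prod, Complex.finrank_real_complex])

lemma LamE_apply (v : Fin 4 → ℝ) : LamE v = (ll v, zz v, cc v) := rfl

/-- (B2) -/
theorem exists_C1 : ∃ C1 : ℝ, 1 ≤ C1 ∧ ∀ v : Fin 4 → ℝ, ∀ i,
    |v i| ≤ C1 * (|ll v| + ‖zz v‖ + |cc v|) := by
  let e := LamE.toContinuousLinearEquiv.symm
  refine ⟨max 1 ‖(e : (ℝ × ℂ × ℝ) →L[ℝ] (Fin 4 → ℝ))‖, le_max_left _ _, fun v i => ?_⟩
  have h1 := (e : (ℝ × ℂ × ℝ) →L[ℝ] (Fin 4 → ℝ)).le_opNorm (LamE v)
  have h2 : (e : (ℝ × ℂ × ℝ) →L[ℝ] (Fin 4 → ℝ)) (LamE v) = v :=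
    LamE.symm_apply_apply v
  rw [h2] at h1
  have h3 : |v i| ≤ ‖v‖ := norm_le_pi_norm v i
  have h4 : ‖LamE v‖ ≤ |ll v| + ‖zz v‖ + |cc v| := by
    rw [LamE_apply, Prod.norm_def, Prod.norm_def]
    have a1 := abs_nonneg (ll v)
    have a2 := norm_nonneg (zz v)
    have a3 := abs_nonneg (cc v)
    simp only [Real.norm_eq_abs]
    refine max_le (by linarith) (max_le (by linarith) (by linarith))
  have h5 : (0 : ℝ) ≤ |ll v| + ‖zz v‖ + |cc v| := (norm_nonneg _).trans h4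
  calc |v i| ≤ ‖(e : (ℝ × ℂ × ℝ) →L[ℝ] (Fin 4 → ℝ))‖ * ‖LamE v‖ := h3.trans h1
    _ ≤ max 1 ‖(e : (ℝ × ℂ × ℝ) →L[ℝ] (Fin 4 → ℝ))‖ * (|ll v| + ‖zz v‖ + |cc v|) :=
      mul_le_mul (le_max_right _ _) h4 (norm_nonneg _) (by positivity)

/-! ### Action of the matrix -/

lemma ll_P (v : V) : ll (re (P.mulVec v)) = t0 * ll (re v) := by
  have h := yy_P t0_quartic (re v)
  unfold ll
  rw [← h]
  congr 1
  funext i
  simp [re, Matrix.mulVec, dotProduct]

lemma cc_P (v : V) : cc (re (P.mulVec v)) = t1 * cc (re v) := by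
  have h := yy_P t1_quartic (re v)
  unfold cc
  rw [← h]
  congr 1
  funext i
  simp [re, Matrix.mulVec, dotProduct]

lemma zz_P (v : V) : zz (re (P.mulVec v)) = w0 * zz (re v) := by
  have h := yy_P w0_quartic (fun i => (v i : ℂ))
  unfold zz
  have e : (fun i => ((re v i : ℝ) : ℂ)) = fun i => (v i : ℂ) := by funext i; simp [re]
  rw [e, ← h]
  congr 1
  funext i
  simp [re, Matrix.mulVec, dotProduct]

lemma ll_Pn (n : ℕ) (v : V) : ll (re ((P ^ n).mulVec v)) = t0 ^ n * ll (re v) := by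
  induction n generalizing v with
  | zero => simp
  | succ n ih => rw [pow_succ, ← Matrix.mulVec_mulVec, ih, ll_P, pow_succ]; ring

lemma cc_Pn (n : ℕ) (v : V) : cc (re ((P ^ n).mulVec v)) = t1 ^ n * cc (re v) := by
  induction n generalizing v with
  | zero => simp
  | succ n ih => rw [pow_succ, ← Matrix.mulVec_mulVec, ih, cc_P, pow_succ]; ring

lemma zz_Pn (n : ℕ) (v : V) : zz (re ((P ^ n).mulVec v)) = w0 ^ n * zz (re v) := by
  induction n generalizing v with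
  | zero => simp
  | succ n ih => rw [pow_succ, ← Matrix.mulVec_mulVec, ih, zz_P, pow_succ]; ring

lemma Pn_inv (n : ℕ) : P ^ n * Pi ^ n = 1 := by
  have h : Commute P Pi := by
    unfold Commute SemiconjBy
    rw [P_mul_Pi, Pi_mul_P]
  rw [← h.mul_pow, P_mul_Pi, one_pow]

lemma Pn_Pin (n : ℕ) (v : V) : (P ^ n).mulVec ((Pi ^ n).mulVec v) = v := by
  rw [Matrix.mulVec_mulVec, Pn_inv, Matrix.one_mulVec]

/-- rounding -/
lemma exists_round : ∃ B : ℝ, 1 ≤ B ∧ ∀ (x y : ℝ) (s : ℂ), ∃ v : V,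
    |ll (re v) - x| ≤ B ∧ ‖zz (re v) - s‖ ≤ B ∧ |cc (re v) - y| ≤ B := by
  let L := LinearMap.toContinuousLinearMap Lam
  refine ⟨max 1 ‖L‖, le_max_left _ _, fun x y s => ?_⟩
  set X := LamE.symm (x, s, y) with hX
  have hX' : Lam X = (x, s, y) := LamE.apply_symm_apply _
  refine ⟨fun i => round (X i), ?_⟩
  set v : V := fun i => round (X i) with hv
  have h1 : ‖re v - X‖ ≤ 1 := by
    rw [pi_norm_le_iff_of_nonneg zero_le_one]
    intro i
    have := abs_sub_round (X i)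
    rw [Pi.sub_apply, Real.norm_eq_abs, abs_sub_comm]
    exact this.trans (by norm_num)
  have h2 : ‖Lam (re v) - (x, s, y)‖ ≤ max 1 ‖L‖ := by
    rw [← hX', ← map_sub]
    have h3 := L.le_opNorm (re v - X)
    have h4 : ‖L‖ * ‖re v - X‖ ≤ ‖L‖ * 1 := mul_le_mul_of_nonneg_left h1 (norm_nonneg _)
    rw [mul_one] at h4
    exact (h3.trans h4).trans (le_max_right _ _)
  have h3 : Lam (re v) - (x, s, y) = (ll (re v) - x, zz (re v) - s, cc (re v) - y) := rfl
  rw [h3, Prod.norm_def, Prod.norm_def] at h2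
  simp only [Real.norm_eq_abs, max_le_iff] at h2 ⊢
  simp only [le_max_iff] at h2 ⊢
  exact ⟨h2.1, h2.2.1, h2.2.2⟩

/-- (B3) -/
theorem exists_cover : ∃ g : ℝ, 1 ≤ g ∧ ∀ (x y : ℝ) (s : ℂ), ∃ v : V,
    |ll (re v) - x| ≤ 1 / 2 ∧ ‖zz (re v) - s‖ ≤ g ∧ |cc (re v) - y| ≤ g := by
  obtain ⟨B, hB, h⟩ := exists_round
  obtain ⟨n, hn⟩ := pow_unbounded_of_one_lt (2 * B) one_lt_t0
  have ht : (0 : ℝ) < t0 ^ n := pow_pos t0_pos n
  have ht1 : (1 : ℝ) ≤ t0 ^ n := one_le_pow₀ one_lt_t0.le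
  have htt : t0 ^ n * t1 ^ n = 1 := by rw [← mul_pow, t0_mul_t1, one_pow]
  have ht1' : (0 : ℝ) < t1 ^ n := pow_pos t1_pos n
  have hw : ‖w0 ^ n‖ = 1 := by rw [norm_pow, w0_norm, one_pow]
  refine ⟨B * t0 ^ n, by nlinarith, fun x y s => ?_⟩
  obtain ⟨u, h1, h2, h3⟩ := h (t0 ^ n * x) (t1 ^ n * y) (w0 ^ n * s)
  refine ⟨(Pi ^ n).mulVec u, ?_, ?_, ?_⟩
  · have e := ll_Pn n ((Pi ^ n).mulVec u)
    rw [Pn_Pin] at e
    rw [e, ← mul_sub, abs_mul, abs_of_pos ht] at h1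
    by_contra hc
    push Not at hc
    nlinarith
  · have e := zz_Pn n ((Pi ^ n).mulVec u)
    rw [Pn_Pin] at e
    rw [e, ← mul_sub, norm_mul, hw, one_mul] at h2
    nlinarith
  · have e := cc_Pn n ((Pi ^ n).mulVec u)
    rw [Pn_Pin] at e
    rw [e, ← mul_sub, abs_mul, abs_of_pos ht1'] at h3
    calc |cc (re ((Pi ^ n).mulVec u)) - y|
        = t0 ^ n * (t1 ^ n * |cc (re ((Pi ^ n).mulVec u)) - y|) := by
          rw [← mul_assoc, htt, one_mul]
      _ ≤ t0 ^ n * B := mul_le_mul_of_nonneg_left h3 ht.le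
      _ = B * t0 ^ n := mul_comm _ _

/-! ### Counting -/

/-- lattice points in a box -/
def boxS (x y : ℝ) (s : ℂ) (A B C : ℝ) : Set V :=
  {v | |ll (re v) - x| ≤ A ∧ ‖zz (re v) - s‖ ≤ B ∧ |cc (re v) - y| ≤ C}

lemma re_sub (v w : V) : re (v - w) = re v - re w := by
  funext i; simp [re]

lemma ll_sub (v w : Fin 4 → ℝ) : ll (v - w) = ll v - ll w := by
  have h := map_sub Lam v w
  exact congrArg Prod.fst h

lemma zz_sub (v w : Fin 4 → ℝ) : zz (v - w) = zz v - zz w := by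
  have h := map_sub Lam v w
  exact congrArg (fun p => p.2.1) h

lemma cc_sub (v w : Fin 4 → ℝ) : cc (v - w) = cc v - cc w := by
  have h := map_sub Lam v w
  exact congrArg (fun p => p.2.2) h

lemma boxS_finite (x y : ℝ) (s : ℂ) (A B C : ℝ) : (boxS x y s A B C).Finite := by
  obtain ⟨C1, hC1, h⟩ := exists_C1
  set R : ℤ := ⌈C1 * ((|x| + A) + (‖s‖ + B) + (|y| + C))⌉ with hR
  refine (Set.finite_Icc (fun _ => -R : V) (fun _ => R)).subset ?_
  intro v hv
  obtain ⟨h1, h2, h3⟩ := hv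
  have a1 : |ll (re v)| ≤ |x| + A := by
    have := abs_sub_abs_le_abs_sub (ll (re v)) x
    linarith
  have a2 : ‖zz (re v)‖ ≤ ‖s‖ + B := by
    have := norm_sub_norm_le (zz (re v)) s
    linarith
  have a3 : |cc (re v)| ≤ |y| + C := by
    have := abs_sub_abs_le_abs_sub (cc (re v)) y
    linarith
  have key : ∀ i, |v i| ≤ R := by
    intro i
    have h4 := h (re v) i
    have h5 : C1 * (|ll (re v)| + ‖zz (re v)‖ + |cc (re v)|) ≤
        C1 * ((|x| + A) + (‖s‖ + B) + (|y| + C)) :=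
      mul_le_mul_of_nonneg_left (by linarith) (by linarith)
    have h6 := Int.le_ceil (C1 * ((|x| + A) + (‖s‖ + B) + (|y| + C)))
    have h7 : |(v i : ℝ)| ≤ (R : ℝ) := (h4.trans h5).trans h6
    exact_mod_cast h7
  exact ⟨fun i => neg_le_of_abs_le (key i), fun i => le_of_abs_le (key i)⟩

lemma card_floor_le {S : Finset ℤ} {a A : ℝ} (hA : 0 ≤ A)
    (h : ∀ n ∈ S, ∃ t : ℝ, |t - a| ≤ A ∧ ⌊t⌋ = n) : (S.card : ℝ) ≤ 2 * (A + 1) := by
  have h1 : S ⊆ Finset.Icc ⌊a - A⌋ ⌊a + A⌋ := by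
    intro n hn
    obtain ⟨t, ht, rfl⟩ := h n hn
    rw [abs_le] at ht
    exact Finset.mem_Icc.2 ⟨Int.floor_le_floor (by linarith), Int.floor_le_floor (by linarith)⟩
  have h2 := Finset.card_le_card h1
  rw [Int.card_Icc] at h2
  have h3 : ⌊a - A⌋ ≤ ⌊a + A⌋ := Int.floor_le_floor (by linarith)
  have h4 : (((⌊a + A⌋ + 1 - ⌊a - A⌋).toNat : ℕ) : ℝ) = (⌊a + A⌋ : ℝ) + 1 - ⌊a - A⌋ := by
    have : (((⌊a + A⌋ + 1 - ⌊a - A⌋).toNat : ℕ) : ℤ) = ⌊a + A⌋ + 1 - ⌊a - A⌋ :=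
      Int.toNat_of_nonneg (by omega)
    exact_mod_cast congrArg (fun z : ℤ => (z : ℝ)) this
  have h5 : (S.card : ℝ) ≤ ((⌊a + A⌋ + 1 - ⌊a - A⌋).toNat : ℝ) := by exact_mod_cast h2
  rw [h4] at h5
  have h6 := Int.floor_le (a + A)
  have h7 := Int.lt_floor_add_one (a - A)
  linarith

/-- (B4) -/
theorem exists_C2 : ∃ C2 : ℝ, 1 ≤ C2 ∧ ∀ (x y : ℝ) (s : ℂ) (A B C : ℝ), 0 ≤ A → 0 ≤ B → 0 ≤ C →
    ((boxS x y s A B C).ncard : ℝ) ≤ C2 * ((A + 1) * (B + 1) ^ 2 * (C + 1)) := by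
  classical
  obtain ⟨C1, hC1, h⟩ := exists_C1
  set D : ℤ := ⌈C1 * 4⌉ with hD
  have hD0 : 0 ≤ D := Int.ceil_nonneg (by linarith)
  set K : ℕ := (Finset.Icc (fun _ => -D : V) (fun _ => D)).card with hK
  have hK1 : 1 ≤ K := by
    rw [hK, Nat.one_le_iff_ne_zero, Finset.card_ne_zero]
    exact ⟨0, Finset.mem_Icc.2 ⟨fun _ => by simpa using hD0, fun _ => by simpa using hD0⟩⟩
  refine ⟨K * 16, by have : (1 : ℝ) ≤ K := by exact_mod_cast hK1
                     linarith, fun x y s A B C hA hB hC => ?_⟩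
  have hfin := boxS_finite x y s A B C
  rw [Set.ncard_eq_toFinset_card _ hfin]
  set S := hfin.toFinset with hS
  let F : V → ℤ × ℤ × ℤ × ℤ := fun v =>
    (⌊ll (re v)⌋, ⌊(zz (re v)).re⌋, ⌊(zz (re v)).im⌋, ⌊cc (re v)⌋)
  have h1 : S.card ≤ K * (S.image F).card := by
    refine Finset.card_le_mul_card_image S K fun a _ => ?_
    rcases Finset.eq_empty_or_nonempty (S.filter fun v => F v = a) with he | ⟨u, hu⟩
    · rw [he]; simp
    · rw [hK]
      refine Finset.card_le_card_of_injOn (fun v => v - u) ?_ ?_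
      · intro v hv
        have hv' := (Finset.mem_filter.1 hv).2
        have hu' := (Finset.mem_filter.1 hu).2
        have e : F v = F u := by rw [hv', hu']
        have e1 := Int.abs_sub_lt_one_of_floor_eq_floor (congrArg Prod.fst e)
        have e2 := Int.abs_sub_lt_one_of_floor_eq_floor (congrArg (fun p => p.2.1) e)
        have e3 := Int.abs_sub_lt_one_of_floor_eq_floor (congrArg (fun p => p.2.2.1) e)
        have e4 := Int.abs_sub_lt_one_of_floor_eq_floor (congrArg (fun p => p.2.2.2) e)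
        have e5 : ‖zz (re v) - zz (re u)‖ ≤ 2 := by
          refine (Complex.norm_le_abs_re_add_abs_im _).trans ?_
          rw [Complex.sub_re, Complex.sub_im]
          linarith
        have key : ∀ i, |(v - u) i| ≤ D := by
          intro i
          have h4 := h (re (v - u)) i
          rw [re_sub, ll_sub, zz_sub, cc_sub] at h4
          have h5 : C1 * (|ll (re v) - ll (re u)| + ‖zz (re v) - zz (re u)‖ +
              |cc (re v) - cc (re u)|) ≤ C1 * 4 :=
            mul_le_mul_of_nonneg_left (by linarith) (by linarith)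
          have h6 : |(re v - re u) i| ≤ (D : ℝ) := (h4.trans h5).trans (Int.le_ceil _)
          have h7 : ((|(v - u) i| : ℤ) : ℝ) ≤ (D : ℝ) := by
            rw [Int.cast_abs]
            simpa [re] using h6
          exact_mod_cast h7
        exact Finset.mem_coe.2 (Finset.mem_Icc.2
          ⟨fun i => neg_le_of_abs_le (key i), fun i => le_of_abs_le (key i)⟩)
      · intro v _ w _ hvw
        exact sub_left_injective hvw
  have hmem : ∀ v ∈ S, |ll (re v) - x| ≤ A ∧ ‖zz (re v) - s‖ ≤ B ∧ |cc (re v) - y| ≤ C :=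
    fun v hv => (hfin.mem_toFinset).1 hv
  set I1 := (S.image F).image Prod.fst
  set I2 := (S.image F).image (fun p => p.2.1)
  set I3 := (S.image F).image (fun p => p.2.2.1)
  set I4 := (S.image F).image (fun p => p.2.2.2)
  have h2 : S.image F ⊆ I1 ×ˢ I2 ×ˢ I3 ×ˢ I4 := by
    intro p hp
    simp only [Finset.mem_product]
    exact ⟨Finset.mem_image_of_mem _ hp, Finset.mem_image_of_mem _ hp,
      Finset.mem_image_of_mem _ hp, Finset.mem_image_of_mem _ hp⟩
  have h3 : (S.image F).card ≤ I1.card * (I2.card * (I3.card * I4.card)) := by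
    refine (Finset.card_le_card h2).trans ?_
    rw [Finset.card_product, Finset.card_product, Finset.card_product]
  have c1 : (I1.card : ℝ) ≤ 2 * (A + 1) := by
    refine card_floor_le hA (a := x) fun n hn => ?_
    obtain ⟨p, hp, rfl⟩ := Finset.mem_image.1 hn
    obtain ⟨v, hv, rfl⟩ := Finset.mem_image.1 hp
    exact ⟨_, (hmem v hv).1, rfl⟩
  have c2 : (I2.card : ℝ) ≤ 2 * (B + 1) := by
    refine card_floor_le hB (a := s.re) fun n hn => ?_
    obtain ⟨p, hp, rfl⟩ := Finset.mem_image.1 hn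
    obtain ⟨v, hv, rfl⟩ := Finset.mem_image.1 hp
    refine ⟨_, ?_, rfl⟩
    have := Complex.abs_re_le_norm (zz (re v) - s)
    rw [Complex.sub_re] at this
    exact this.trans (hmem v hv).2.1
  have c3 : (I3.card : ℝ) ≤ 2 * (B + 1) := by
    refine card_floor_le hB (a := s.im) fun n hn => ?_
    obtain ⟨p, hp, rfl⟩ := Finset.mem_image.1 hn
    obtain ⟨v, hv, rfl⟩ := Finset.mem_image.1 hp
    refine ⟨_, ?_, rfl⟩
    have := Complex.abs_im_le_norm (zz (re v) - s)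
    rw [Complex.sub_im] at this
    exact this.trans (hmem v hv).2.1
  have c4 : (I4.card : ℝ) ≤ 2 * (C + 1) := by
    refine card_floor_le hC (a := y) fun n hn => ?_
    obtain ⟨p, hp, rfl⟩ := Finset.mem_image.1 hn
    obtain ⟨v, hv, rfl⟩ := Finset.mem_image.1 hp
    exact ⟨_, (hmem v hv).2.2, rfl⟩
  have h4 : (S.card : ℝ) ≤ K * (I1.card * (I2.card * (I3.card * I4.card))) := by
    have := h1.trans (Nat.mul_le_mul_left K h3)
    exact_mod_cast this
  refine h4.trans ?_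
  have h5 : (I1.card : ℝ) * (I2.card * (I3.card * I4.card)) ≤
      2 * (A + 1) * (2 * (B + 1) * (2 * (B + 1) * (2 * (C + 1)))) := by
    gcongr
  calc (K : ℝ) * (I1.card * (I2.card * (I3.card * I4.card)))
      ≤ K * (2 * (A + 1) * (2 * (B + 1) * (2 * (B + 1) * (2 * (C + 1))))) :=
        mul_le_mul_of_nonneg_left h5 (Nat.cast_nonneg _)
    _ = K * 16 * ((A + 1) * (B + 1) ^ 2 * (C + 1)) := by ring

/-- the covering constant -/
noncomputable def gC : ℝ := exists_cover.choose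

lemma one_le_gC : 1 ≤ gC := exists_cover.choose_spec.1

theorem cover (x y : ℝ) (s : ℂ) : ∃ v : V,
    |ll (re v) - x| ≤ 1 / 2 ∧ ‖zz (re v) - s‖ ≤ gC ∧ |cc (re v) - y| ≤ gC :=
  exists_cover.choose_spec.2 x y s

/-- lower bound in (B4) -/
theorem exists_C2' : ∃ C2 : ℝ, 1 ≤ C2 ∧ ∀ r : ℝ, C2 ≤ r →
    r ^ 2 / C2 ≤ ((boxS 0 0 0 (1 / 2) r gC).ncard : ℝ) := by
  classical
  have hg := one_le_gC
  refine ⟨64 * gC ^ 2, by nlinarith, fun r hr => ?_⟩
  have hr0 : 0 < r := by nlinarith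
  have hr8 : 8 * gC ≤ r := by nlinarith
  set m : ℕ := ⌊r / (8 * gC)⌋₊ with hm
  have hm1 : (m : ℝ) ≤ r / (8 * gC) := Nat.floor_le (by positivity)
  have hm2 : r / (8 * gC) < m + 1 := Nat.lt_floor_add_one _
  have hm3 : (m : ℝ) * (8 * gC) ≤ r := by
    rwa [le_div_iff₀ (by positivity)] at hm1
  choose f hf1 hf2 hf3 using fun p : ℕ × ℕ =>
    cover 0 0 ((3 * gC : ℝ) * ((p.1 : ℂ) + (p.2 : ℂ) * Complex.I))
  have hfin := boxS_finite 0 0 0 (1 / 2) r gC
  rw [Set.ncard_eq_toFinset_card _ hfin]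
  have h1 : (Finset.range (m + 1) ×ˢ Finset.range (m + 1)).card ≤ hfin.toFinset.card := by
    refine Finset.card_le_card_of_injOn f ?_ ?_
    · intro p hp
      have hp' := Finset.mem_product.1 (Finset.mem_coe.1 hp)
      have hp1 : (p.1 : ℝ) ≤ m := by
        have := Finset.mem_range.1 hp'.1
        exact_mod_cast Nat.lt_succ_iff.1 this
      have hp2 : (p.2 : ℝ) ≤ m := by
        have := Finset.mem_range.1 hp'.2
        exact_mod_cast Nat.lt_succ_iff.1 this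
      refine (hfin.mem_toFinset).2 ⟨hf1 p, ?_, hf3 p⟩
      have e1 : ‖((3 * gC : ℝ) : ℂ) * ((p.1 : ℂ) + (p.2 : ℂ) * Complex.I)‖ ≤ 3 * gC * (2 * m) := by
        rw [norm_mul, Complex.norm_real, Real.norm_of_nonneg (by positivity)]
        refine mul_le_mul_of_nonneg_left ?_ (by positivity)
        refine (norm_add_le _ _).trans ?_
        rw [norm_mul, Complex.norm_I, mul_one, Complex.norm_natCast, Complex.norm_natCast]
        linarith
      rw [sub_zero]
      have e2 := norm_sub_norm_le (zz (re (f p)))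
        (((3 * gC : ℝ) : ℂ) * ((p.1 : ℂ) + (p.2 : ℂ) * Complex.I))
      have e3 := hf2 p
      push_cast at e1 e2 e3 ⊢
      nlinarith
    · intro p _ q _ hpq
      by_contra hne
      have e1 := hf2 p
      have e2 := hf2 q
      have hpq' : f p = f q := hpq
      rw [hpq'] at e1
      have e3 : ‖((3 * gC : ℝ) : ℂ) * (((p.1 : ℂ) + (p.2 : ℂ) * Complex.I) -
          ((q.1 : ℂ) + (q.2 : ℂ) * Complex.I))‖ ≤ 2 * gC := by
        have e4 : ((3 * gC : ℝ) : ℂ) * (((p.1 : ℂ) + (p.2 : ℂ) * Complex.I) -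
          ((q.1 : ℂ) + (q.2 : ℂ) * Complex.I)) =
          (zz (re (f q)) - ((3 * gC : ℝ) : ℂ) * ((q.1 : ℂ) + (q.2 : ℂ) * Complex.I)) -
          (zz (re (f q)) - ((3 * gC : ℝ) : ℂ) * ((p.1 : ℂ) + (p.2 : ℂ) * Complex.I)) := by ring
        rw [e4]
        refine (norm_sub_le _ _).trans ?_
        push_cast at e1 e2 ⊢
        linarith
      rw [norm_mul, Complex.norm_real, Real.norm_of_nonneg (by positivity)] at e3
      have e5 : 1 ≤ ‖((p.1 : ℂ) + (p.2 : ℂ) * Complex.I) - ((q.1 : ℂ) + (q.2 : ℂ) * Complex.I)‖ := by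
        by_cases h : p.1 = q.1
        · have h2 : (p.2 : ℤ) - q.2 ≠ 0 := by
            intro h3
            apply hne
            exact Prod.ext h (by omega)
          have h3 := Complex.abs_im_le_norm
            (((p.1 : ℂ) + (p.2 : ℂ) * Complex.I) - ((q.1 : ℂ) + (q.2 : ℂ) * Complex.I))
          have h4 : (1 : ℝ) ≤ |((p.2 : ℤ) - q.2 : ℤ)| := by
            exact_mod_cast Int.one_le_abs h2
          refine le_trans ?_ h3
          simpa using h4
        · have h2 : (p.1 : ℤ) - q.1 ≠ 0 := by omega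
          have h3 := Complex.abs_re_le_norm
            (((p.1 : ℂ) + (p.2 : ℂ) * Complex.I) - ((q.1 : ℂ) + (q.2 : ℂ) * Complex.I))
          have h4 : (1 : ℝ) ≤ |((p.1 : ℤ) - q.1 : ℤ)| := by
            exact_mod_cast Int.one_le_abs h2
          refine le_trans ?_ h3
          simpa using h4
      nlinarith
  rw [Finset.card_product, Finset.card_range] at h1
  have h2 : ((m : ℝ) + 1) * (m + 1) ≤ (hfin.toFinset.card : ℝ) := by exact_mod_cast h1
  refine le_trans ?_ h2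
  have h3 : r ^ 2 / (64 * gC ^ 2) = (r / (8 * gC)) ^ 2 := by
    rw [div_pow]; congr 1; ring
  rw [h3]
  have h4 : 0 ≤ r / (8 * gC) := by positivity
  nlinarith

/-- class of a word -/
def ab (w : List (Fin 4)) : V := fun a => (w.count a : ℤ)

end Pool.Agent.SRig
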