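import Mathlib

/-!
# SRig: balanced words (section 5 and 9 of the blueprint for MP_ec87dd_an)

`bal U` is a word with `U a` letters `a` such that the prefix of length `i` has `i U a / |U| + O(1)` letters `a`,
error `≤ 2`.  Construction: first distribute the group `{0, 1}` against `{2, 3}` by `⌊i (U 0 + U 1) / |U|⌋` (the `i`-th letter is
in the first group iff the floor jumps), then inside each group distribute by floors in the same way: the error of the
group count is `< 1`, the error inside is `< 1`, so the total error is `< 2`.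
-/

set_option autoImplicit false

namespace Pool.Agent.SRig

lemma div_succ_le {p q : ℕ} (h : p ≤ q) (j : ℕ) : (j + 1) * p / q ≤ j * p / q + 1 := by
  rcases Nat.eq_zero_or_pos q with rfl | hq
  · simp
  · calc (j + 1) * p / q ≤ (j * p + q) / q := Nat.div_le_div_right (by rw [add_mul, one_mul]; omega)
      _ = j * p / q + 1 := Nat.add_div_right _ hq

lemma div_le_self' {p q : ℕ} (h : p ≤ q) (j : ℕ) : j * p / q ≤ j := by
  induction j with
  | zero => simp
  | succ j ih =>
    have := div_succ_le h j
    omega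

lemma mono_div (p q : ℕ) : Monotone fun j : ℕ => j * p / q :=
  fun _ _ h => Nat.div_le_div_right (Nat.mul_le_mul_right _ h)

lemma mono_sub_div {p q : ℕ} (h : p ≤ q) : Monotone fun j : ℕ => j - j * p / q := by
  refine monotone_nat_of_le_succ fun j => ?_
  have h1 := div_succ_le h j
  have h2 := div_le_self' h j
  omega

/-- a word from its counting functions -/
lemma exists_word (C : Fin 4 → ℕ → ℕ) (hC : ∀ a, Monotone (C a)) (hs : ∀ i, ∑ a, C a i = i)
    (n : ℕ) : ∃ w : List (Fin 4), w.length = n ∧ ∀ i ≤ n, ∀ a, (w.take i).count a = C a i := by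
  induction n with
  | zero =>
    refine ⟨[], rfl, fun i hi a => ?_⟩
    have h1 := hs i
    have h2 : C a i ≤ ∑ b, C b i := Finset.single_le_sum (fun b _ => Nat.zero_le (C b i))
      (Finset.mem_univ a)
    simp
    omega
  | succ n ih =>
    obtain ⟨w, hw, hcount⟩ := ih
    -- the letter
    obtain ⟨a, ha⟩ : ∃ a, C a n < C a (n + 1) := by
      by_contra hcon
      push Not at hcon
      have : ∑ a, C a (n + 1) ≤ ∑ a, C a n := Finset.sum_le_sum fun a _ => hcon a
      rw [hs, hs] at this
      omega
    have hstep : ∀ b, C b (n + 1) = C b n + if a = b then 1 else 0 := by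
      have h1 : ∀ b ∈ Finset.univ, C b n + (if a = b then 1 else 0) ≤ C b (n + 1) := by
        intro b _
        split_ifs with h
        · subst h
          exact ha
        · exact hC b (Nat.le_succ n)
      have h2 : ∑ b, (C b n + if a = b then 1 else 0) = ∑ b, C b (n + 1) := by
        rw [Finset.sum_add_distrib, hs, hs]
        simp
      intro b
      exact ((Finset.sum_eq_sum_iff_of_le h1).1 h2 b (Finset.mem_univ b)).symm
    refine ⟨w ++ [a], by rw [List.length_append, hw]; rfl, fun i hi b => ?_⟩
    rcases Nat.lt_or_ge n i with hni | hni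
    · have hi' : i = n + 1 := by omega
      subst hi'
      rw [List.take_of_length_le (by rw [List.length_append, hw]; simp), List.count_append,
        hstep b, ← hcount n le_rfl b, List.take_of_length_le hw.le, List.count_singleton]
      congr 1
      by_cases h : a = b
      · simp [h]
      · simp [h]
    · rw [List.take_append_of_le_length (by omega)]
      exact hcount i hni b

/-- Existence of balanced words. -/
theorem exists_bal (U : Fin 4 → ℕ) : ∃ w : List (Fin 4), (∀ a, w.count a = U a) ∧
    ∀ i, i ≤ w.length → ∀ a,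
      |(((w.take i).count a : ℕ) : ℝ) * (∑ b, (U b : ℝ)) - i * (U a : ℝ)| ≤
        2 * ∑ b, (U b : ℝ) := by
  set g := U 0 + U 1 with hg
  set h := U 2 + U 3 with hh
  set n := g + h with hn
  let A : ℕ → ℕ := fun i => i * g / n
  have hA0 : ∀ i, A i ≤ i := fun i => div_le_self' (by omega) i
  have hA1 : Monotone A := mono_div g n
  have hA2 : Monotone fun i => i - A i := mono_sub_div (by omega)
  let C : Fin 4 → ℕ → ℕ := ![fun i => A i * U 0 / g, fun i => A i - A i * U 0 / g,
    fun i => (i - A i) * U 2 / h, fun i => (i - A i) - (i - A i) * U 2 / h]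
  have e0 : C 0 = fun i => A i * U 0 / g := rfl
  have e1 : C 1 = fun i => A i - A i * U 0 / g := rfl
  have e2 : C 2 = fun i => (i - A i) * U 2 / h := rfl
  have e3 : C 3 = fun i => (i - A i) - (i - A i) * U 2 / h := rfl
  have hC : ∀ a, Monotone (C a) := by
    intro a
    fin_cases a
    · exact (mono_div (U 0) g).comp hA1
    · exact (mono_sub_div (p := U 0) (q := g) (by omega)).comp hA1
    · exact (mono_div (U 2) h).comp hA2
    · exact (mono_sub_div (p := U 2) (q := h) (by omega)).comp hA2
  have hs : ∀ i, ∑ a, C a i = i := by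
    intro i
    rw [Fin.sum_univ_four, e0, e1, e2, e3]
    have h1 := div_le_self' (p := U 0) (q := g) (by omega) (A i)
    have h2 := div_le_self' (p := U 2) (q := h) (by omega) (i - A i)
    have h3 := hA0 i
    simp only
    omega
  obtain ⟨w, hw, hcount⟩ := exists_word C hC hs n
  have hself : ∀ p q : ℕ, p ≤ q → q * p / q = p := by
    intro p q hpq
    rcases Nat.eq_zero_or_pos q with rfl | hq
    · simp; omega
    · exact Nat.mul_div_cancel_left p hq
  have hAn : A n = g := hself g n (by omega)
  refine ⟨w, fun a => ?_, fun i hi a => ?_⟩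
  · have h1 := hcount n le_rfl a
    rw [List.take_of_length_le hw.le] at h1
    rw [h1]
    have h2 : n - A n = h := by rw [hAn]; omega
    have h3 := hself (U 0) g (by omega)
    have h4 := hself (U 2) h (by omega)
    fin_cases a
    · change A n * U 0 / g = U 0
      rw [hAn, h3]
    · change A n - A n * U 0 / g = U 1
      rw [hAn, h3]; omega
    · change (n - A n) * U 2 / h = U 2
      rw [h2, h4]
    · change (n - A n) - (n - A n) * U 2 / h = U 3
      rw [h2, h4]; omega
  · rw [hw] at hi
    rw [hcount i hi a]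
    have hsum : (∑ b, (U b : ℝ)) = n := by
      rw [Fin.sum_univ_four, hn, hg, hh]
      push_cast
      ring
    rw [hsum]
    rcases Nat.eq_zero_or_pos n with hn0 | hn0
    · have : i = 0 := by omega
      subst this
      rw [hn0]
      simp
    -- floor inequalities
    have hfl : ∀ x p q : ℕ, 0 < q → x * p / q * q ≤ x * p ∧ x * p ≤ x * p / q * q + q := by
      intro x p q hq
      have h1 := Nat.div_add_mod (x * p) q
      have h2 := Nat.mod_lt (x * p) hq
      rw [mul_comm q] at h1
      omega
    have hAi := hfl i g n hn0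
    change A i * n ≤ i * g ∧ i * g ≤ A i * n + n at hAi
    have hA1r : (A i : ℝ) * n ≤ i * g := by exact_mod_cast hAi.1
    have hA2r : (i : ℝ) * g ≤ A i * n + n := by exact_mod_cast hAi.2
    have hBr : ((i - A i : ℕ) : ℝ) = i - A i := by rw [Nat.cast_sub (hA0 i)]
    have hgr : (g : ℝ) = U 0 + U 1 := by rw [hg]; push_cast; ring
    have hhr : (h : ℝ) = U 2 + U 3 := by rw [hh]; push_cast; ring
    have hnr : (n : ℝ) = g + h := by rw [hn]; push_cast; ring
    have hi0 : (0 : ℝ) ≤ i := Nat.cast_nonneg i
    have hU : ∀ a, (0 : ℝ) ≤ U a := fun a => Nat.cast_nonneg _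
    have hnp : (0 : ℝ) < n := by exact_mod_cast hn0
    -- first group
    have k0 : -(2 * (n : ℝ)) ≤ ((A i * U 0 / g : ℕ) : ℝ) * n - i * U 0 ∧
        ((A i * U 0 / g : ℕ) : ℝ) * n - i * U 0 ≤ 0 := by
      rcases Nat.eq_zero_or_pos g with hg0 | hg0
      · have h1 : U 0 = 0 := by omega
        rw [h1]
        simp
      · have h1 := hfl (A i) (U 0) g hg0
        have hgp : (0 : ℝ) < g := by exact_mod_cast hg0
        have h2 : ((A i * U 0 / g : ℕ) : ℝ) * g ≤ A i * U 0 := by exact_mod_cast h1.1
        have h3 : (A i : ℝ) * U 0 ≤ ((A i * U 0 / g : ℕ) : ℝ) * g + g := by exact_mod_cast h1.2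
        set c := ((A i * U 0 / g : ℕ) : ℝ)
        have hU0 := hU 0
        have hU0g : (U 0 : ℝ) ≤ g := by rw [hgr]; linarith [hU 1]
        constructor
        · have h4 : (i : ℝ) * g * U 0 ≤ (A i * n + n) * U 0 := mul_le_mul_of_nonneg_right hA2r hU0
          have h5 : (A i : ℝ) * U 0 * n ≤ (c * g + g) * n := mul_le_mul_of_nonneg_right h3 hnp.le
          have h6 : (n : ℝ) * U 0 ≤ n * g := mul_le_mul_of_nonneg_left hU0g hnp.le
          have h7 : (i : ℝ) * U 0 * g ≤ (c * n + 2 * n) * g := by nlinarith
          have h8 := le_of_mul_le_mul_right h7 hgp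
          linarith
        · have h4 : c * g * n ≤ A i * U 0 * n := mul_le_mul_of_nonneg_right h2 hnp.le
          have h5 : (A i : ℝ) * n * U 0 ≤ i * g * U 0 := mul_le_mul_of_nonneg_right hA1r hU0
          have h6 : c * n * g ≤ i * U 0 * g := by nlinarith
          have h7 := le_of_mul_le_mul_right h6 hgp
          linarith
    -- second group
    have hB1 : (i : ℝ) * h ≤ ((i - A i : ℕ) : ℝ) * n := by rw [hBr]; nlinarith
    have hB2 : ((i - A i : ℕ) : ℝ) * n ≤ i * h + n := by rw [hBr]; nlinarith
    have k2 : -(n : ℝ) ≤ (((i - A i) * U 2 / h : ℕ) : ℝ) * n - i * U 2 ∧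
        (((i - A i) * U 2 / h : ℕ) : ℝ) * n - i * U 2 ≤ n := by
      rcases Nat.eq_zero_or_pos h with hg0 | hg0
      · have h1 : U 2 = 0 := by omega
        rw [h1]
        simp
      · have h1 := hfl (i - A i) (U 2) h hg0
        have hgp : (0 : ℝ) < h := by exact_mod_cast hg0
        have h2 : (((i - A i) * U 2 / h : ℕ) : ℝ) * h ≤ ((i - A i : ℕ) : ℝ) * U 2 := by
          exact_mod_cast h1.1
        have h3 : ((i - A i : ℕ) : ℝ) * U 2 ≤ (((i - A i) * U 2 / h : ℕ) : ℝ) * h + h := by
          exact_mod_cast h1.2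
        set c := (((i - A i) * U 2 / h : ℕ) : ℝ)
        set B := ((i - A i : ℕ) : ℝ)
        have hU0 := hU 2
        have hU0g : (U 2 : ℝ) ≤ h := by rw [hhr]; linarith [hU 3]
        constructor
        · have h4 : (i : ℝ) * h * U 2 ≤ B * n * U 2 := mul_le_mul_of_nonneg_right hB1 hU0
          have h5 : B * U 2 * n ≤ (c * h + h) * n := mul_le_mul_of_nonneg_right h3 hnp.le
          have h7 : (i : ℝ) * U 2 * h ≤ (c * n + n) * h := by nlinarith
          have h8 := le_of_mul_le_mul_right h7 hgp
          linarith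
        · have h4 : c * h * n ≤ B * U 2 * n := mul_le_mul_of_nonneg_right h2 hnp.le
          have h5 : B * n * U 2 ≤ (i * h + n) * U 2 := mul_le_mul_of_nonneg_right hB2 hU0
          have h6 : (n : ℝ) * U 2 ≤ n * h := mul_le_mul_of_nonneg_left hU0g hnp.le
          have h7 : c * n * h ≤ (i * U 2 + n) * h := by nlinarith
          have h8 := le_of_mul_le_mul_right h7 hgp
          linarith
    rw [abs_le]
    fin_cases a
    · change -(2 * (n : ℝ)) ≤ ((A i * U 0 / g : ℕ) : ℝ) * n - i * U 0 ∧
        ((A i * U 0 / g : ℕ) : ℝ) * n - i * U 0 ≤ 2 * n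
      exact ⟨k0.1, by linarith [k0.2]⟩
    · have h1 : ((A i - A i * U 0 / g : ℕ) : ℝ) = A i - ((A i * U 0 / g : ℕ) : ℝ) := by
        rw [Nat.cast_sub (div_le_self' (by omega) _)]
      change -(2 * (n : ℝ)) ≤ ((A i - A i * U 0 / g : ℕ) : ℝ) * n - i * U 1 ∧
        ((A i - A i * U 0 / g : ℕ) : ℝ) * n - i * U 1 ≤ 2 * n
      rw [h1]
      constructor <;> nlinarith [k0.1, k0.2]
    · change -(2 * (n : ℝ)) ≤ (((i - A i) * U 2 / h : ℕ) : ℝ) * n - i * U 2 ∧
        (((i - A i) * U 2 / h : ℕ) : ℝ) * n - i * U 2 ≤ 2 * n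
      exact ⟨by linarith [k2.1], by linarith [k2.2]⟩
    · have h1 : (((i - A i) - (i - A i) * U 2 / h : ℕ) : ℝ) =
          ((i - A i : ℕ) : ℝ) - (((i - A i) * U 2 / h : ℕ) : ℝ) := by
        rw [Nat.cast_sub (div_le_self' (by omega) _)]
      change -(2 * (n : ℝ)) ≤ (((i - A i) - (i - A i) * U 2 / h : ℕ) : ℝ) * n - i * U 3 ∧
        (((i - A i) - (i - A i) * U 2 / h : ℕ) : ℝ) * n - i * U 3 ≤ 2 * n
      rw [h1]
      constructor <;> nlinarith [k2.1, k2.2]

end Pool.Agent.SRig
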