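import Mathlib

/-!
# SRig: real-variable lemmas (3 scalar part, 8.A1, 8.A3 of the blueprint for MP_ec87dd_an)
-/

set_option autoImplicit false

open Filter

namespace Pool.Agent.SRig

/-! ### The scalar energy inequality -/

/-- `φ(x) - φ(y) - φ'(y) (x - y)` for `φ(x) = x^{5/4}` -/
noncomputable def Dphi (x y : ℝ) : ℝ :=
  x ^ (5 / 4 : ℝ) - y ^ (5 / 4 : ℝ) - 5 / 4 * y ^ (1 / 4 : ℝ) * (x - y)

lemma Dphi_pow {a b : ℝ} (ha : 0 ≤ a) (hb : 0 ≤ b) :
    Dphi (a ^ 4) (b ^ 4) = (a - b) ^ 2 * (4 * a ^ 3 + 3 * a ^ 2 * b + 2 * a * b ^ 2 + b ^ 3) / 4 := by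
  have h1 : ∀ {x : ℝ}, 0 ≤ x → (x ^ 4) ^ (5 / 4 : ℝ) = x ^ 5 := by
    intro x hx
    rw [← Real.rpow_natCast, ← Real.rpow_mul hx, ← Real.rpow_natCast x 5]
    norm_num
  have h2 : (b ^ 4) ^ (1 / 4 : ℝ) = b := by
    rw [← Real.rpow_natCast, ← Real.rpow_mul hb]
    norm_num
  unfold Dphi
  rw [h1 ha, h1 hb, h2]
  ring

lemma exists_fourth {x : ℝ} (hx : 0 ≤ x) : ∃ a : ℝ, 0 ≤ a ∧ a ^ 4 = x := by
  refine ⟨x ^ (1 / 4 : ℝ), Real.rpow_nonneg hx _, ?_⟩
  rw [← Real.rpow_natCast, ← Real.rpow_mul hx]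
  norm_num

lemma Dphi_nonneg {x y : ℝ} (hx : 0 ≤ x) (hy : 0 ≤ y) : 0 ≤ Dphi x y := by
  obtain ⟨a, ha, rfl⟩ := exists_fourth hx
  obtain ⟨b, hb, rfl⟩ := exists_fourth hy
  rw [Dphi_pow ha hb]
  positivity

theorem sq_sub_le_Dphi {x y : ℝ} (hx : 0 ≤ x) (hy : 0 ≤ y) :
    (x - y) ^ 2 ≤ 64 * Dphi x y * max x y ^ (3 / 4 : ℝ) := by
  obtain ⟨a, ha, rfl⟩ := exists_fourth hx
  obtain ⟨b, hb, rfl⟩ := exists_fourth hy
  rw [Dphi_pow ha hb]
  have h1 : ∀ {x : ℝ}, 0 ≤ x → (x ^ 4) ^ (3 / 4 : ℝ) = x ^ 3 := by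
    intro x hx
    rw [← Real.rpow_natCast, ← Real.rpow_mul hx, ← Real.rpow_natCast x 3]
    norm_num
  have hmax : max (a ^ 4) (b ^ 4) = (max a b) ^ 4 := by
    rcases le_total a b with h | h
    · rw [max_eq_right h, max_eq_right (pow_le_pow_left₀ ha h 4)]
    · rw [max_eq_left h, max_eq_left (pow_le_pow_left₀ hb h 4)]
  set m := max a b with hm
  have hma : a ≤ m := le_max_left _ _
  have hmb : b ≤ m := le_max_right _ _
  have hm0 : 0 ≤ m := ha.trans hma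
  rw [hmax, h1 hm0]
  have e : (a ^ 4 - b ^ 4) ^ 2 = (a - b) ^ 2 * ((a + b) ^ 2 * (a ^ 2 + b ^ 2) ^ 2) := by ring
  rw [e]
  have h2 : (a + b) ^ 2 ≤ 4 * m ^ 2 := by nlinarith
  have h3 : (a ^ 2 + b ^ 2) ^ 2 ≤ 4 * m ^ 4 := by
    have h4 : a ^ 2 + b ^ 2 ≤ 2 * m ^ 2 := by nlinarith
    have h5 : 0 ≤ a ^ 2 + b ^ 2 := by positivity
    calc (a ^ 2 + b ^ 2) ^ 2 ≤ (2 * m ^ 2) ^ 2 := pow_le_pow_left₀ h5 h4 2
      _ = 4 * m ^ 4 := by ring
  have h4 : m ^ 3 ≤ 4 * a ^ 3 + 3 * a ^ 2 * b + 2 * a * b ^ 2 + b ^ 3 := by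
    have p1 : 0 ≤ a ^ 3 := by positivity
    have p2 : 0 ≤ a ^ 2 * b := by positivity
    have p3 : 0 ≤ a * b ^ 2 := by positivity
    have p4 : 0 ≤ b ^ 3 := by positivity
    rcases le_total a b with h | h
    · rw [hm, max_eq_right h]; nlinarith
    · rw [hm, max_eq_left h]; nlinarith
  have h5 : (a + b) ^ 2 * (a ^ 2 + b ^ 2) ^ 2 ≤ 16 * m ^ 6 := by
    calc (a + b) ^ 2 * (a ^ 2 + b ^ 2) ^ 2 ≤ (4 * m ^ 2) * (4 * m ^ 4) :=
          mul_le_mul h2 h3 (by positivity) (by positivity)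
      _ = 16 * m ^ 6 := by ring
  have h6 : 16 * m ^ 6 ≤ 16 * ((4 * a ^ 3 + 3 * a ^ 2 * b + 2 * a * b ^ 2 + b ^ 3) * m ^ 3) := by
    have : m ^ 6 = m ^ 3 * m ^ 3 := by ring
    rw [this]
    have := mul_le_mul_of_nonneg_right h4 (show 0 ≤ m ^ 3 by positivity)
    linarith
  calc (a - b) ^ 2 * ((a + b) ^ 2 * (a ^ 2 + b ^ 2) ^ 2)
      ≤ (a - b) ^ 2 * (16 * ((4 * a ^ 3 + 3 * a ^ 2 * b + 2 * a * b ^ 2 + b ^ 3) * m ^ 3)) :=
        mul_le_mul_of_nonneg_left (h5.trans h6) (sq_nonneg _)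
    _ = 64 * ((a - b) ^ 2 * (4 * a ^ 3 + 3 * a ^ 2 * b + 2 * a * b ^ 2 + b ^ 3) / 4) * m ^ 3 := by
        ring

/-! ### 8.A3 -/

/-- the bootstrap in the scales -/
theorem boot {q : ℕ → ℕ → ℝ} {c CQ c2 γ ε d : ℝ} {i0 C6 : ℕ} (hc : 0 < c) (hc2 : 0 < c2)
    (hc2' : c2 ≤ 1) (hγ : 0 ≤ γ) (hγ' : (2 : ℝ) ^ γ < 1 + c2 / 2) (hε : ε ≤ c2 / 8)
    (hd0 : 0 ≤ d) (hd : d ≤ c2 / 8) (hup : ∀ i j, q i j ≤ CQ)
    (hlow : ∀ i, i0 ≤ i → ∀ j, j ≤ i → c * (i : ℝ) ^ (-γ) ≤ q i j)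
    (hrec : ∀ i j k, i0 ≤ k → j ≤ k → k + 2 ≤ i → 100 * i ≤ 105 * k →
      (1 - ε) * q k j + c2 * q (i - 1) (k + C6) ≤ (1 + d) * q i j) : False := by
  set S : ℕ := 2 + C6 + 1 with hS
  -- the claim at stage `l` for the horizon `I = 84 S 2^m`
  have claim : ∀ m : ℕ, i0 + 1 ≤ 2 ^ m → ∀ l, l ≤ m → ∀ i j : ℕ,
      21 * S * 2 ^ m + (2 ^ l - 1) * S ≤ i → i ≤ 84 * S * 2 ^ m → j + (2 ^ l * S - C6 - 1) ≤ i →
      (1 + c2 / 2) ^ l * (c * ((84 * S * 2 ^ m : ℕ) : ℝ) ^ (-γ)) ≤ q i j := by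
    intro m hm l
    induction l with
    | zero =>
      intro _ i j h1 h2 h3
      have hi0 : i0 ≤ i := by
        have : 2 ^ m ≤ 21 * S * 2 ^ m := Nat.le_mul_of_pos_left _ (by omega)
        omega
      have hipos : 0 < i := by
        have : 0 < 2 ^ m := by positivity
        have : 2 ^ m ≤ 21 * S * 2 ^ m := Nat.le_mul_of_pos_left _ (by omega)
        omega
      have h4 := hlow i hi0 j (by omega)
      refine le_trans ?_ h4
      rw [pow_zero, one_mul]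
      refine mul_le_mul_of_nonneg_left ?_ hc.le
      rw [Real.rpow_neg (by positivity), Real.rpow_neg (by positivity)]
      refine inv_anti₀ (by positivity) ?_
      exact Real.rpow_le_rpow (by positivity) (by exact_mod_cast h2) hγ
    | succ l ih =>
      intro hlm i j h1 h2 h3
      have ih' := ih (by omega)
      have hSpos : 0 < S := by omega
      have hp : 0 < 2 ^ l := by positivity
      have hpm : 2 ^ (l + 1) ≤ 2 ^ m := Nat.pow_le_pow_right (by norm_num) hlm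
      have e1 : 2 ^ (l + 1) = 2 * 2 ^ l := by rw [pow_succ]; ring
      -- `T = 2^l S`
      set T := 2 ^ l * S with hT
      have hTS : S ≤ T := Nat.le_mul_of_pos_left _ hp
      have e2 : (2 ^ (l + 1) - 1) * S = 2 * T - S := by
        rw [e1, Nat.sub_mul, one_mul, hT]; ring_nf
      have e3 : (2 ^ l - 1) * S = T - S := by rw [Nat.sub_mul, one_mul]
      have e4 : 2 ^ (l + 1) * S = 2 * T := by rw [e1, hT]; ring
      have e5 : 2 * T ≤ S * 2 ^ m := by
        rw [← e4, mul_comm]; exact Nat.mul_le_mul_left _ hpm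
      rw [e2] at h1
      rw [e4] at h3
      have e6 : 21 * S * 2 ^ m = 21 * (S * 2 ^ m) := by ring
      have e7 : 84 * S * 2 ^ m = 84 * (S * 2 ^ m) := by ring
      have hm' : 2 ^ m ≤ S * 2 ^ m := Nat.le_mul_of_pos_left _ hSpos
      set W := S * 2 ^ m with hW
      rw [e6, e3] at ih'
      rw [e6] at h1
      rw [e7] at h2
      -- choice of `k`
      obtain ⟨k, hk⟩ : ∃ k, k = i - T := ⟨_, rfl⟩
      have hk1 : i0 ≤ k := by omega
      have hk2 : j ≤ k := by omega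
      have hk3 : k + 2 ≤ i := by omega
      have hk4 : 100 * i ≤ 105 * k := by omega
      have r := hrec i j k hk1 hk2 hk3 hk4
      have q1 := ih' k j (by omega) (by omega) (by omega)
      have q2 := ih' (i - 1) (k + C6) (by omega) (by omega) (by omega)
      set y := (1 + c2 / 2) ^ l * (c * ((84 * S * 2 ^ m : ℕ) : ℝ) ^ (-γ)) with hy
      have hy0 : 0 ≤ y := by positivity
      have h5 : (1 - ε) * y + c2 * y ≤ (1 + d) * q i j := by
        refine le_trans (add_le_add ?_ ?_) r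
        · exact mul_le_mul_of_nonneg_left q1 (by linarith)
        · exact mul_le_mul_of_nonneg_left q2 hc2.le
      have h6 : (1 + d) * ((1 + c2 / 2) * y) ≤ (1 - ε) * y + c2 * y := by
        have : (1 + d) * (1 + c2 / 2) ≤ 1 - ε + c2 := by nlinarith
        nlinarith
      have h7 : (1 + d) * ((1 + c2 / 2) * y) ≤ (1 + d) * q i j := h6.trans h5
      have h8 : (1 + c2 / 2) * y ≤ q i j := le_of_mul_le_mul_left h7 (by linarith)
      rw [pow_succ]
      calc (1 + c2 / 2) ^ l * (1 + c2 / 2) * (c * ((84 * S * 2 ^ m : ℕ) : ℝ) ^ (-γ))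
          = (1 + c2 / 2) * y := by rw [hy]; ring
        _ ≤ q i j := h8
  -- the values at `l = m`, `i = I`, `j = 0` tend to infinity
  have hratio : 1 < (1 + c2 / 2) / 2 ^ γ := (one_lt_div (by positivity)).2 hγ'
  have hval : ∀ m : ℕ, (1 + c2 / 2) ^ m * (c * ((84 * S * 2 ^ m : ℕ) : ℝ) ^ (-γ)) =
      (c * ((84 * S : ℕ) : ℝ) ^ (-γ)) * ((1 + c2 / 2) / 2 ^ γ) ^ m := by
    intro m
    have e : ((2 : ℝ) ^ m) ^ (-γ) = (((2 : ℝ) ^ γ) ^ m)⁻¹ := by
      rw [Real.rpow_neg (by positivity), ← Real.rpow_natCast, ← Real.rpow_natCast,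
        ← Real.rpow_mul (by norm_num), ← Real.rpow_mul (by norm_num), mul_comm]
    push_cast
    rw [Real.mul_rpow (by positivity) (by positivity), div_pow, e, div_eq_mul_inv]
    ring
  have htend : Tendsto (fun m : ℕ => (c * ((84 * S : ℕ) : ℝ) ^ (-γ)) *
      ((1 + c2 / 2) / 2 ^ γ) ^ m) atTop atTop := by
    refine (tendsto_pow_atTop_atTop_of_one_lt hratio).const_mul_atTop ?_
    have : (0 : ℝ) < ((84 * S : ℕ) : ℝ) := by positivity
    positivity
  have h2 : Tendsto (fun m : ℕ => 2 ^ m) atTop atTop := tendsto_pow_atTop_atTop_of_one_lt (by norm_num)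
  obtain ⟨m, hm1, hm2⟩ := ((htend.eventually_gt_atTop CQ).and (h2.eventually_ge_atTop (i0 + 1))).exists
  have h3 := claim m hm2 m le_rfl (84 * S * 2 ^ m) 0 (by
    have : (2 ^ m - 1) * S ≤ S * 2 ^ m := by
      rw [mul_comm]; exact Nat.mul_le_mul_left _ (Nat.sub_le _ _)
    have e : 84 * S * 2 ^ m = 84 * (S * 2 ^ m) := by ring
    have e' : 21 * S * 2 ^ m = 21 * (S * 2 ^ m) := by ring
    omega) le_rfl (by
    have e : 84 * S * 2 ^ m = 84 * (S * 2 ^ m) := by ring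
    have e' : 2 ^ m * S = S * 2 ^ m := by ring
    omega)
  rw [hval] at h3
  exact absurd (h3.trans (hup _ _)) (not_le.2 hm1)

/-! ### 8.A1 -/

section growth

variable {C : ℕ → ℝ} {c0 ε : ℝ} {L n0 : ℕ}

/-- iteration with the step `n2` -/
lemma growth_step (hmono : Monotone C) (hC : 0 ≤ C 0) (hε : 0 < ε) (hε' : ε ≤ 1 / 100)
    (h : ∀ n N : ℕ, n0 ≤ n → 2 * n ≤ N → (N : ℝ) ≤ (n : ℝ) ^ (11 / 10 : ℝ) →
      (1 - ε) * C n + C (N - (⌊(1 + ε) * n⌋₊ + 1 + L)) ≤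
        (1 + (n : ℝ) ^ (-(1 / 10) : ℝ)) * C N)
    {n : ℕ} (hn : n0 ≤ n) (j : ℕ)
    (hj : ((j * (⌊(1 + ε) * n⌋₊ + 1 + L) : ℕ) : ℝ) ≤ (n : ℝ) ^ (11 / 10 : ℝ)) :
    (1 - ε) * j * C n ≤ (1 + (n : ℝ) ^ (-(1 / 10) : ℝ)) ^ j *
      C (j * (⌊(1 + ε) * n⌋₊ + 1 + L)) := by
  set n2 := ⌊(1 + ε) * n⌋₊ + 1 + L with hn2
  set δ := (n : ℝ) ^ (-(1 / 10) : ℝ) with hδ
  have hδ0 : 0 ≤ δ := by positivity
  have hCn : ∀ m, 0 ≤ C m := fun m => hC.trans (hmono (Nat.zero_le m))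
  have hnn2 : n ≤ n2 := by
    have h1 : (n : ℝ) ≤ (1 + ε) * n := by
      have : (0 : ℝ) ≤ n := Nat.cast_nonneg n
      nlinarith
    have h2 : n ≤ ⌊(1 + ε) * n⌋₊ := Nat.le_floor h1
    omega
  induction j with
  | zero => simpa using hC
  | succ j ih =>
    have hj' : ((j * n2 : ℕ) : ℝ) ≤ (n : ℝ) ^ (11 / 10 : ℝ) := by
      refine le_trans ?_ hj
      exact_mod_cast Nat.mul_le_mul_right _ (Nat.le_succ j)
    rcases Nat.eq_zero_or_pos j with rfl | hjpos
    · have h1 : C n ≤ C (1 * n2) := hmono (by omega)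
      have h2 := hCn n
      simp only [zero_add, Nat.cast_one, mul_one, pow_one]
      have h3 := hCn (1 * n2)
      nlinarith
    · have h1 := ih hj'
      have h2 : 2 * n ≤ (j + 1) * n2 := by nlinarith
      have h3 := h n ((j + 1) * n2) hn h2 hj
      have h4 : (j + 1) * n2 - n2 = j * n2 := by
        rw [Nat.add_mul, one_mul, Nat.add_sub_cancel]
      rw [← hn2, ← hδ, h4] at h3
      have h5 : (1 : ℝ) ≤ (1 + δ) ^ j := one_le_pow₀ (by linarith)
      have h6 : (1 + δ) ^ j * ((1 - ε) * C n + C (j * n2)) ≤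
          (1 + δ) ^ j * ((1 + δ) * C ((j + 1) * n2)) :=
        mul_le_mul_of_nonneg_left h3 (by positivity)
      have h7 : (1 - ε) * C n ≤ (1 + δ) ^ j * ((1 - ε) * C n) := by
        have : 0 ≤ (1 - ε) * C n := mul_nonneg (by linarith) (hCn n)
        nlinarith
      push_cast
      rw [pow_succ]
      nlinarith

lemma growth_one (hmono : Monotone C) (hC : 0 ≤ C 0) (hε : 0 < ε) (hε' : ε ≤ 1 / 100)
    (h : ∀ n N : ℕ, n0 ≤ n → 2 * n ≤ N → (N : ℝ) ≤ (n : ℝ) ^ (11 / 10 : ℝ) →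
      (1 - ε) * C n + C (N - (⌊(1 + ε) * n⌋₊ + 1 + L)) ≤
        (1 + (n : ℝ) ^ (-(1 / 10) : ℝ)) * C N) :
    ∃ n1 : ℕ, ∀ n N : ℕ, n1 ≤ n → (n : ℝ) ^ (26 / 25 : ℝ) ≤ N → (N : ℝ) ≤ (n : ℝ) ^ (21 / 20 : ℝ) →
      (1 - 5 * ε) * (C n * N) ≤ C N * n := by
  have t1 : Tendsto (fun n : ℕ => (n : ℝ) ^ (-(1 / 20) : ℝ)) atTop (nhds 0) :=
    (tendsto_rpow_neg_atTop (by norm_num)).comp tendsto_natCast_atTop_atTop
  have t2 : Tendsto (fun n : ℕ => (n : ℝ) ^ (-(1 / 25) : ℝ)) atTop (nhds 0) :=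
    (tendsto_rpow_neg_atTop (by norm_num)).comp tendsto_natCast_atTop_atTop
  have e1 := t1.eventually (ge_mem_nhds (show (0 : ℝ) < ε / 4 by positivity))
  have e2 := t2.eventually (ge_mem_nhds (show (0 : ℝ) < ε / 8 by positivity))
  have e3 : ∀ᶠ n : ℕ in atTop, (1 + L : ℝ) / (ε / 5) ≤ n :=
    tendsto_natCast_atTop_atTop.eventually_ge_atTop _
  obtain ⟨n1, hn1⟩ := (((e1.and e2).and e3).and (eventually_ge_atTop (max n0 2))).exists_forall_of_atTop
  refine ⟨n1, fun n N hn h1 h2 => ?_⟩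
  obtain ⟨⟨⟨a1, a2⟩, a3⟩, a4⟩ := hn1 n hn
  have hCn : ∀ m, 0 ≤ C m := fun m => hC.trans (hmono (Nat.zero_le m))
  set n2 := ⌊(1 + ε) * n⌋₊ + 1 + L with hn2
  have hn0 : (0 : ℝ) < n := by
    have : 2 ≤ n := le_trans (le_max_right _ _) a4
    exact_mod_cast (by omega : 0 < n)
  have hone : (1 : ℝ) ≤ n := by
    have : 2 ≤ n := le_trans (le_max_right _ _) a4
    exact_mod_cast (by omega : 1 ≤ n)
  have b1 : (n2 : ℝ) ≤ (1 + 6 / 5 * ε) * n := by
    rw [hn2]
    push_cast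
    have h3 := Nat.floor_le (show 0 ≤ (1 + ε) * n by positivity)
    rw [div_le_iff₀ (by positivity)] at a3
    nlinarith
  have b2 : (1 + ε) * n ≤ n2 := by
    rw [hn2]
    push_cast
    have h3 := Nat.lt_floor_add_one ((1 + ε) * (n : ℝ))
    have : (0 : ℝ) ≤ L := Nat.cast_nonneg L
    linarith
  have hn2pos : 0 < n2 := by omega
  have hn2pos' : (0 : ℝ) < n2 := by exact_mod_cast hn2pos
  set j := N / n2 with hj
  have c1 : j * n2 ≤ N := Nat.div_mul_le_self _ _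
  have c2 : N < (j + 1) * n2 := by
    have := Nat.lt_div_mul_add hn2pos (a := N)
    rw [← hj] at this
    rw [Nat.add_mul, one_mul]; exact this
  have c1' : (j : ℝ) * n2 ≤ N := by exact_mod_cast c1
  have c2' : (N : ℝ) < (j + 1) * n2 := by exact_mod_cast c2
  have h3 := growth_step hmono hC hε hε' h (le_trans (le_max_left _ _) a4) j (by
    rw [← hn2]
    push_cast
    refine c1'.trans (h2.trans ?_)
    exact Real.rpow_le_rpow_of_exponent_le hone (by norm_num))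
  rw [← hn2] at h3
  set δ := (n : ℝ) ^ (-(1 / 10) : ℝ) with hδ
  have hδ0 : 0 ≤ δ := by positivity
  have h4 : C (j * n2) ≤ C N := hmono c1
  -- `(1 + δ)^j (1 - ε/4) ≤ 1`
  have hjδ : (j : ℝ) * δ ≤ ε / 4 := by
    have h5 : (j : ℝ) * n ≤ N := by
      refine le_trans ?_ c1'
      refine mul_le_mul_of_nonneg_left ?_ (Nat.cast_nonneg _)
      nlinarith
    have h6 : (j : ℝ) ≤ (n : ℝ) ^ (1 / 20 : ℝ) := by
      have h7 : (n : ℝ) ^ (21 / 20 : ℝ) = (n : ℝ) ^ (1 / 20 : ℝ) * n := by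
        rw [← Real.rpow_add_one hn0.ne']; norm_num
      rw [h7] at h2
      exact le_of_mul_le_mul_right (h5.trans h2) hn0
    calc (j : ℝ) * δ ≤ (n : ℝ) ^ (1 / 20 : ℝ) * δ := mul_le_mul_of_nonneg_right h6 hδ0
      _ = (n : ℝ) ^ (-(1 / 20) : ℝ) := by rw [hδ, ← Real.rpow_add hn0]; norm_num
      _ ≤ ε / 4 := a1
  have h5 : (1 + δ) ^ j * (1 - ε / 4) ≤ 1 := by
    have h6 : (1 + δ) ^ j ≤ Real.exp (j * δ) := by
      rw [Real.exp_nat_mul]
      exact pow_le_pow_left₀ (by linarith) (by linarith [Real.add_one_le_exp δ]) j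
    have h7 : 1 - ε / 4 ≤ Real.exp (-(j * δ)) := by
      have := Real.add_one_le_exp (-(j * δ))
      linarith
    calc (1 + δ) ^ j * (1 - ε / 4) ≤ Real.exp (j * δ) * Real.exp (-(j * δ)) :=
          mul_le_mul h6 h7 (by linarith) (Real.exp_pos _).le
      _ = 1 := by rw [← Real.exp_add, add_neg_cancel, Real.exp_zero]
  -- `j ≥ (1 - ε/4) N / n2`
  have h6 : (n2 : ℝ) ≤ ε / 4 * N := by
    have h7 : (n : ℝ) ≤ (ε / 8) * N := by
      have h8 : (n : ℝ) = (n : ℝ) ^ (-(1 / 25) : ℝ) * (n : ℝ) ^ (26 / 25 : ℝ) := by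
        rw [← Real.rpow_add hn0]; norm_num
      rw [h8]
      exact mul_le_mul a2 h1 (by positivity) (by positivity)
    nlinarith
  have h7 : (1 - ε / 4) * N ≤ j * n2 := by nlinarith
  -- conclusion
  have hCN := hCn N
  have hCn' := hCn n
  have h8 : (1 - ε) * j * C n * (1 - ε / 4) ≤ C N := by
    calc (1 - ε) * j * C n * (1 - ε / 4) ≤ (1 + δ) ^ j * C (j * n2) * (1 - ε / 4) :=
          mul_le_mul_of_nonneg_right h3 (by linarith)
      _ = ((1 + δ) ^ j * (1 - ε / 4)) * C (j * n2) := by ring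
      _ ≤ 1 * C (j * n2) := mul_le_mul_of_nonneg_right h5 (hCn _)
      _ ≤ C N := by rw [one_mul]; exact h4
  have hNn : (0 : ℝ) ≤ N := Nat.cast_nonneg _
  have h9 : (1 - ε) * (1 - ε / 4) * C n * ((1 - ε / 4) * N) ≤ C N * n2 := by
    calc (1 - ε) * (1 - ε / 4) * C n * ((1 - ε / 4) * N)
        ≤ (1 - ε) * (1 - ε / 4) * C n * (j * n2) := by
          refine mul_le_mul_of_nonneg_left h7 ?_
          have : 0 ≤ (1 - ε) * (1 - ε / 4) := mul_nonneg (by linarith) (by linarith)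
          positivity
      _ = ((1 - ε) * j * C n * (1 - ε / 4)) * n2 := by ring
      _ ≤ C N * n2 := mul_le_mul_of_nonneg_right h8 hn2pos'.le
  have h10 : C N * n2 ≤ C N * ((1 + 6 / 5 * ε) * n) := mul_le_mul_of_nonneg_left b1 hCN
  have h11 : (1 - 5 * ε) * (1 + 6 / 5 * ε) ≤ (1 - ε) * (1 - ε / 4) * (1 - ε / 4) := by
    nlinarith [mul_pos hε hε, mul_pos (mul_pos hε hε) hε]
  have hX : 0 ≤ C n * N := mul_nonneg hCn' hNn
  have h12 : (1 + 6 / 5 * ε) * ((1 - 5 * ε) * (C n * N)) ≤ (1 + 6 / 5 * ε) * (C N * n) := by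
    have h13 : (1 - 5 * ε) * (1 + 6 / 5 * ε) * (C n * N) ≤
        (1 - ε) * (1 - ε / 4) * (1 - ε / 4) * (C n * N) := mul_le_mul_of_nonneg_right h11 hX
    nlinarith
  exact le_of_mul_le_mul_left h12 (by positivity)

/-- 8.A1: nearly linear growth -/
theorem growth (hmono : Monotone C) (hc0 : 0 < c0) (hC : c0 ≤ C 0) (hε : 0 < ε) (hε' : ε ≤ 1 / 100)
    (h : ∀ n N : ℕ, n0 ≤ n → 2 * n ≤ N → (N : ℝ) ≤ (n : ℝ) ^ (11 / 10 : ℝ) →
      (1 - ε) * C n + C (N - (⌊(1 + ε) * n⌋₊ + 1 + L)) ≤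
        (1 + (n : ℝ) ^ (-(1 / 10) : ℝ)) * C N) :
    ∃ c : ℝ, 0 < c ∧ ∀ n : ℕ, 2 ≤ n → c * n * Real.log n ^ (-(200 * ε)) ≤ C n := by
  obtain ⟨n1, hn1⟩ := growth_one hmono (hc0.le.trans hC) hε hε' h
  have hCn : ∀ m, c0 ≤ C m := fun m => hC.trans (hmono (Nat.zero_le m))
  -- choice of `n` for `N`
  have t1 : Tendsto (fun N : ℕ => (N : ℝ) ^ (20 / 21 : ℝ)) atTop atTop :=
    (tendsto_rpow_atTop (by norm_num)).comp tendsto_natCast_atTop_atTop
  have t2 : Tendsto (fun N : ℕ => (N : ℝ) ^ (1 / 105 : ℝ)) atTop atTop :=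
    (tendsto_rpow_atTop (by norm_num)).comp tendsto_natCast_atTop_atTop
  obtain ⟨N1, hN1⟩ := (((t1.eventually_ge_atTop ((n1 : ℝ) + 2)).and
    (t2.eventually_ge_atTop ((2 : ℝ) ^ (26 / 25 : ℝ)))).and
    (eventually_ge_atTop 3)).exists_forall_of_atTop
  set N2 := max N1 3 with hN2
  have hlog2 : 0 < Real.log 2 := Real.log_pos (by norm_num)
  set β := 200 * ε with hβ
  have hβ0 : 0 < β := by positivity
  have hN2pos : (0 : ℝ) < N2 := by
    have : 3 ≤ N2 := le_max_right _ _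
    exact_mod_cast (by omega : 0 < N2)
  refine ⟨c0 / (N2 * Real.log 2 ^ (-β)), by positivity, fun N => ?_⟩
  set c := c0 / (N2 * Real.log 2 ^ (-β)) with hc
  have hcpos : 0 < c := by positivity
  induction N using Nat.strong_induction_on with
  | _ N ih =>
    intro hN
    by_cases hcase : N ≤ N2
    · -- small `N`
      refine le_trans ?_ (hCn N)
      have h1 : Real.log N ^ (-β) ≤ Real.log 2 ^ (-β) := by
        rw [Real.rpow_neg (Real.log_nonneg (by exact_mod_cast (by omega : 1 ≤ N))),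
          Real.rpow_neg hlog2.le]
        refine inv_anti₀ (by positivity) (Real.rpow_le_rpow hlog2.le ?_ hβ0.le)
        exact Real.log_le_log (by norm_num) (by exact_mod_cast hN)
      have h2 : (N : ℝ) ≤ N2 := by exact_mod_cast hcase
      have h3 : 0 < Real.log 2 ^ (-β) := by positivity
      have hlogN : 0 ≤ Real.log N := Real.log_nonneg (by exact_mod_cast (by omega : 1 ≤ N))
      calc c * N * Real.log N ^ (-β) ≤ c * N2 * Real.log 2 ^ (-β) := by
            refine mul_le_mul ?_ h1 (Real.rpow_nonneg hlogN _) (by positivity)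
            exact mul_le_mul_of_nonneg_left h2 hcpos.le
        _ = c0 := by rw [hc]; field_simp
    · -- large `N`
      have hNN1 : N1 ≤ N := by
        have := le_max_left N1 3
        omega
      obtain ⟨⟨a1, a2⟩, a3⟩ := hN1 N hNN1
      have hN0 : (0 : ℝ) < N := by exact_mod_cast (by omega : 0 < N)
      have hN1' : (1 : ℝ) ≤ N := by exact_mod_cast (by omega : 1 ≤ N)
      set n := ⌈(N : ℝ) ^ (20 / 21 : ℝ)⌉₊ with hn
      have b1 : (N : ℝ) ^ (20 / 21 : ℝ) ≤ n := Nat.le_ceil _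
      have b2 : (n : ℝ) < (N : ℝ) ^ (20 / 21 : ℝ) + 1 := Nat.ceil_lt_add_one (by positivity)
      have b3 : (n1 : ℝ) + 2 ≤ n := a1.trans b1
      have b4 : n1 + 2 ≤ n := by exact_mod_cast b3
      have hn0 : (0 : ℝ) < n := by exact_mod_cast (by omega : 0 < n)
      have b5 : (n : ℝ) ≤ 2 * (N : ℝ) ^ (20 / 21 : ℝ) := by
        have : (0 : ℝ) ≤ n1 := Nat.cast_nonneg _
        linarith
      have c1 : (N : ℝ) ≤ (n : ℝ) ^ (21 / 20 : ℝ) := by
        have h1 := Real.rpow_le_rpow (by positivity) b1 (show (0 : ℝ) ≤ 21 / 20 by norm_num)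
        rw [← Real.rpow_mul hN0.le] at h1
        norm_num at h1
        norm_num
        exact h1
      have c2 : (n : ℝ) ^ (26 / 25 : ℝ) ≤ N := by
        have h1 := Real.rpow_le_rpow hn0.le b5 (show (0 : ℝ) ≤ 26 / 25 by norm_num)
        rw [Real.mul_rpow (by norm_num) (by positivity), ← Real.rpow_mul hN0.le] at h1
        refine h1.trans ?_
        have h2 := mul_le_mul_of_nonneg_right a2
          (show (0 : ℝ) ≤ (N : ℝ) ^ (20 / 21 * (26 / 25) : ℝ) by positivity)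
        refine h2.trans ?_
        rw [← Real.rpow_add hN0]
        norm_num
      have hnN : n < N := by
        have h1 : (n : ℝ) < N := by
          by_contra hc'
          push Not at hc'
          have h2 : (N : ℝ) ^ (26 / 25 : ℝ) ≤ (n : ℝ) ^ (26 / 25 : ℝ) :=
            Real.rpow_le_rpow hN0.le hc' (by norm_num)
          have h3 : (N : ℝ) < (N : ℝ) ^ (26 / 25 : ℝ) := by
            conv_lhs => rw [← Real.rpow_one (N : ℝ)]
            exact Real.rpow_lt_rpow_of_exponent_lt (by exact_mod_cast (by omega : 1 < N))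
              (by norm_num)
          linarith
        exact_mod_cast h1
      have h1 := ih n hnN (by omega)
      have h2 := hn1 n N (by omega) c2 c1
      -- logarithms
      have hlogn : 0 < Real.log n := Real.log_pos (by exact_mod_cast (by omega : 1 < n))
      have hlogN : 0 < Real.log N := Real.log_pos (by exact_mod_cast (by omega : 1 < N))
      have h3 : 26 / 25 * Real.log n ≤ Real.log N := by
        have h4 := Real.log_le_log (by positivity) c2
        rwa [Real.log_rpow hn0] at h4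
      have h4 : (26 / 25 : ℝ) ^ β * Real.log N ^ (-β) ≤ Real.log n ^ (-β) := by
        have h5 : Real.log n ≤ Real.log N / (26 / 25) := by
          rw [le_div_iff₀ (by norm_num)]; linarith
        have h6 : (Real.log N / (26 / 25)) ^ (-β) ≤ Real.log n ^ (-β) := by
          rw [Real.rpow_neg (by positivity), Real.rpow_neg hlogn.le]
          exact inv_anti₀ (by positivity) (Real.rpow_le_rpow hlogn.le h5 hβ0.le)
        refine le_trans (le_of_eq ?_) h6
        rw [Real.div_rpow hlogN.le (by norm_num), Real.rpow_neg (show (0 : ℝ) ≤ 26 / 25 by norm_num),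
          div_inv_eq_mul, mul_comm]
      have h5 : 1 ≤ (1 - 5 * ε) * (26 / 25 : ℝ) ^ β := by
        have h6 : Real.exp (β * (1 / 26)) ≤ (26 / 25 : ℝ) ^ β := by
          rw [Real.rpow_def_of_pos (by norm_num), Real.exp_le_exp, mul_comm β]
          refine mul_le_mul_of_nonneg_right ?_ hβ0.le
          have := Real.one_sub_inv_le_log_of_pos (show (0 : ℝ) < 26 / 25 by norm_num)
          norm_num at this ⊢
          linarith
        have h7 := Real.add_one_le_exp (β * (1 / 26))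
        have h8 : 1 + 200 / 26 * ε ≤ (26 / 25 : ℝ) ^ β := by
          rw [hβ] at h7 h6 ⊢
          linarith
        nlinarith
      have h6 : C n * N * (1 - 5 * ε) ≤ C N * n := by linarith
      have hpos : 0 ≤ Real.log N ^ (-β) := by positivity
      have h7 : c * N * Real.log N ^ (-β) * n ≤ C N * n := by
        refine le_trans ?_ h6
        have h8 : c * n * ((26 / 25 : ℝ) ^ β * Real.log N ^ (-β)) ≤ C n :=
          le_trans (mul_le_mul_of_nonneg_left h4 (by positivity)) h1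
        have h9 : c * n * ((26 / 25 : ℝ) ^ β * Real.log N ^ (-β)) * N * (1 - 5 * ε) ≤
            C n * N * (1 - 5 * ε) := by
          refine mul_le_mul_of_nonneg_right ?_ (by linarith)
          exact mul_le_mul_of_nonneg_right h8 hN0.le
        refine le_trans ?_ h9
        have h10 : 0 ≤ c * n * Real.log N ^ (-β) * N := by positivity
        nlinarith
      exact le_of_mul_le_mul_right h7 hn0

end growth

end Pool.Agent.SRig
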