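import Mathlib

/-!
# SRig: the invariant measure (section 10 of the blueprint for MP_ec87dd_an)

`μ` is a limit along an ultrafilter of the empirical measures
`|x|⁻¹ ∑ (i < |x|) δ (shift^i x̃)`, `x = σⁿ(a)` (`x̃` = extension of `x` by a constant letter on both sides,
position `i` moved to the origin); compactness of the space of probability measures.
Shift invariance: two successive averages differ by `≤ 1 / |x|` on clopen sets.  Support: a clopen cylinder whose
word does not occur in any `σⁿ(a)` has frequency `≤ (length) / |x| → 0`; the complement of the set is a countable union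
of such cylinders.  Rigidity: `μ (x 0 ≠ x (nk k)) ≤ ε k → 0` (clopen set), so `μ (symmDiff (shift^(nk k) ⁻¹' B) B) → 0`
for sets depending on one coordinate; the class of `B` with the property is a sigma-algebra.
-/

set_option autoImplicit false

open MeasureTheory Filter
open scoped ENNReal Topology

namespace Pool.Agent.SRig

section Emp

variable {d : ℕ}

/-- the shift -/
def sh (x : ℤ → Fin d) : ℤ → Fin d := fun i => x (i + 1)

/-- translation by `m` -/
def tr (m : ℤ) (x : ℤ → Fin d) : ℤ → Fin d := fun i => x (i + m)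

/-- extension of a word by a constant letter -/
def ex (a : Fin d) (w : List (Fin d)) : ℤ → Fin d :=
  fun j => if 0 ≤ j then (w[j.toNat]?).getD a else a

lemma sh_iterate (m : ℕ) (x : ℤ → Fin d) : (sh^[m]) x = tr m x := by
  induction m with
  | zero => funext i; simp [tr]
  | succ m ih =>
    rw [Function.iterate_succ_apply', ih]
    funext i
    simp only [sh, tr]
    congr 1
    push_cast
    ring

lemma continuous_tr (m : ℤ) : Continuous (tr m : (ℤ → Fin d) → ℤ → Fin d) :=
  continuous_pi fun i => continuous_apply (i + m)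

lemma continuous_sh : Continuous (sh : (ℤ → Fin d) → ℤ → Fin d) :=
  continuous_pi fun i => continuous_apply (i + 1)

open Classical in
/-- the visits -/
noncomputable def vis (a : Fin d) (w : List (Fin d)) (C : Set (ℤ → Fin d)) : Finset ℕ :=
  (Finset.range w.length).filter fun i : ℕ => tr (i : ℤ) (ex a w) ∈ C

lemma mem_vis {a : Fin d} {w : List (Fin d)} {C : Set (ℤ → Fin d)} {i : ℕ} :
    i ∈ vis a w C ↔ i < w.length ∧ tr (i : ℤ) (ex a w) ∈ C := by
  classical
  unfold vis
  rw [Finset.mem_filter, Finset.mem_range]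

/-- number of visits -/
noncomputable def cnt (a : Fin d) (w : List (Fin d)) (C : Set (ℤ → Fin d)) : ℕ := (vis a w C).card

/-- empirical measure -/
noncomputable def emp (a : Fin d) (w : List (Fin d)) : Measure (ℤ → Fin d) :=
  (w.length : ℝ≥0∞)⁻¹ • ∑ i ∈ Finset.range w.length, Measure.dirac (tr (i : ℤ) (ex a w))

lemma emp_apply (a : Fin d) (w : List (Fin d)) {C : Set (ℤ → Fin d)} (hC : MeasurableSet C) :
    emp a w C = (w.length : ℝ≥0∞)⁻¹ * (cnt a w C : ℝ≥0∞) := by
  classical
  unfold emp cnt vis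
  rw [Measure.smul_apply, Measure.finsetSum_apply, smul_eq_mul]
  congr 1
  rw [Finset.card_filter]
  push_cast
  refine Finset.sum_congr rfl fun i _ => ?_
  rw [Measure.dirac_apply' _ hC]
  simp [Set.indicator_apply]

lemma isProb_emp (a : Fin d) {w : List (Fin d)} (hw : w.length ≠ 0) :
    IsProbabilityMeasure (emp a w) := by
  constructor
  rw [emp_apply a w MeasurableSet.univ]
  have : cnt a w Set.univ = w.length := by
    classical
    unfold cnt vis
    simp
  rw [this]
  exact ENNReal.inv_mul_cancel (by exact_mod_cast hw) (ENNReal.natCast_ne_top _)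

/-- empirical probability measure (a Dirac mass for the empty word) -/
noncomputable def empP (a : Fin d) (w : List (Fin d)) : ProbabilityMeasure (ℤ → Fin d) :=
  if hw : w.length ≠ 0 then (⟨emp a w, isProb_emp a hw⟩ : ProbabilityMeasure (ℤ → Fin d)) else
    (⟨Measure.dirac (fun _ => a), inferInstance⟩ : ProbabilityMeasure (ℤ → Fin d))

lemma empP_apply (a : Fin d) {w : List (Fin d)} (hw : w.length ≠ 0) {C : Set (ℤ → Fin d)}
    (hC : MeasurableSet C) :
    (empP a w : Measure (ℤ → Fin d)) C = (w.length : ℝ≥0∞)⁻¹ * (cnt a w C : ℝ≥0∞) := by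
  have : empP a w = (⟨emp a w, isProb_emp a hw⟩ : ProbabilityMeasure (ℤ → Fin d)) :=
    dif_pos hw
  rw [this]
  exact emp_apply a w hC

lemma cnt_sh_le (a : Fin d) (w : List (Fin d)) (C : Set (ℤ → Fin d)) :
    cnt a w (sh ⁻¹' C) ≤ cnt a w C + 1 := by
  unfold cnt
  have h1 : (vis a w (sh ⁻¹' C)).card ≤ (insert w.length (vis a w C)).card := by
    refine Finset.card_le_card_of_injOn (fun i => i + 1) ?_ fun _ _ _ _ h => by simpa using h
    intro i hi
    have hi' := mem_vis.1 (Finset.mem_coe.1 hi)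
    rw [Finset.mem_coe, Finset.mem_insert, mem_vis]
    have : tr ((i + 1 : ℕ) : ℤ) (ex a w) = sh (tr (i : ℤ) (ex a w)) := by
      funext j
      simp only [sh, tr]
      congr 1
      push_cast
      ring
    rw [this]
    by_cases h : i + 1 = w.length
    · exact Or.inl h
    · have h3 := hi'.1
      exact Or.inr ⟨(by omega : i + 1 < w.length), hi'.2⟩
  exact h1.trans (Finset.card_insert_le _ _)

lemma cnt_le_sh (a : Fin d) (w : List (Fin d)) (C : Set (ℤ → Fin d)) :
    cnt a w C ≤ cnt a w (sh ⁻¹' C) + 1 := by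
  unfold cnt
  have h1 : ((vis a w C).erase 0).card ≤ (vis a w (sh ⁻¹' C)).card := by
    refine Finset.card_le_card_of_injOn (fun i => i - 1) ?_ ?_
    · intro i hi
      have hi' := Finset.mem_erase.1 (Finset.mem_coe.1 hi)
      have hi2 := mem_vis.1 hi'.2
      have h0 := hi'.1
      rw [Finset.mem_coe, mem_vis]
      refine ⟨(by omega : i - 1 < w.length), ?_⟩
      have : sh (tr ((i - 1 : ℕ) : ℤ) (ex a w)) = tr (i : ℤ) (ex a w) := by
        funext j
        simp only [sh, tr]
        congr 1
        rw [Nat.cast_sub (by omega)]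
        push_cast
        ring
      change sh (tr ((i - 1 : ℕ) : ℤ) (ex a w)) ∈ C
      rw [this]
      exact hi2.2
    · intro i hi j hj h
      have hi' := (Finset.mem_erase.1 (Finset.mem_coe.1 hi)).1
      have hj' := (Finset.mem_erase.1 (Finset.mem_coe.1 hj)).1
      simp only at h
      omega
  have h2 := Finset.pred_card_le_card_erase (s := vis a w C) (a := 0)
  omega

/-- a set met only near the ends -/
lemma cnt_le_of (a : Fin d) (w : List (Fin d)) (C : Set (ℤ → Fin d)) (N1 N2 : ℕ)
    (h : ∀ i : ℕ, N1 ≤ i → i + N2 ≤ w.length → tr (i : ℤ) (ex a w) ∉ C) :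
    cnt a w C ≤ N1 + N2 := by
  unfold cnt
  have h1 : vis a w C ⊆ Finset.range N1 ∪ Finset.Ico (w.length - N2) w.length := by
    intro i hi
    have hi' := mem_vis.1 hi
    rw [Finset.mem_union, Finset.mem_range, Finset.mem_Ico]
    by_contra hcon
    push Not at hcon
    obtain ⟨h2, h3⟩ := hcon
    by_cases h4 : w.length - N2 ≤ i
    · have := h3 h4
      omega
    · exact h i h2 (by omega) hi'.2
  refine (Finset.card_le_card h1).trans ((Finset.card_union_le _ _).trans ?_)
  rw [Finset.card_range, Nat.card_Ico]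
  omega

lemma ex_of_lt (a : Fin d) (w : List (Fin d)) {i : ℕ} (hi : i < w.length) :
    ex a w (i : ℤ) = w[i] := by
  unfold ex
  rw [if_pos (by omega), Int.toNat_natCast, List.getElem?_eq_getElem hi, Option.getD_some]

lemma cnt_ne_le (a : Fin d) (w : List (Fin d)) (N : ℕ) :
    cnt a w {x | x 0 ≠ x (N : ℤ)} ≤
      ((Finset.range (w.length - N)).filter fun i => w[i]? ≠ w[i + N]?).card + N := by
  unfold cnt
  refine le_trans (Finset.card_le_card (t :=
    ((Finset.range (w.length - N)).filter fun i => w[i]? ≠ w[i + N]?) ∪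
        Finset.Ico (w.length - N) w.length) ?_) ?_
  · intro i hi
    obtain ⟨h2, h3⟩ := mem_vis.1 hi
    rw [Finset.mem_union, Finset.mem_filter, Finset.mem_range, Finset.mem_Ico]
    by_cases h4 : w.length - N ≤ i
    · exact Or.inr ⟨h4, h2⟩
    · left
      refine ⟨by omega, ?_⟩
      have h5 : ex a w ((0 : ℤ) + i) ≠ ex a w ((N : ℤ) + i) := h3
      rw [zero_add, show (N : ℤ) + i = ((i + N : ℕ) : ℤ) by push_cast; ring,
        ex_of_lt a w h2, ex_of_lt a w (by omega : i + N < w.length)] at h5
      rw [List.getElem?_eq_getElem h2, List.getElem?_eq_getElem (by omega : i + N < w.length)]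
      intro h6
      exact h5 (Option.some.inj h6)
  · refine (Finset.card_union_le _ _).trans ?_
    rw [Nat.card_Ico]
    omega

end Emp

section Clopen

variable {d : ℕ}

lemma isClopen_of_coord {k : ℕ} (f : Fin k → ℤ) (S : Set (Fin k → Fin d)) :
    IsClopen {x : ℤ → Fin d | (fun j => x (f j)) ∈ S} := by
  have : Continuous fun (x : ℤ → Fin d) (j : Fin k) => x (f j) :=
    continuous_pi fun j => continuous_apply (f j)
  exact (isClopen_discrete S).preimage this

lemma isClopen_ne (i j : ℤ) : IsClopen {x : ℤ → Fin d | x i ≠ x j} := by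
  have : Continuous fun (x : ℤ → Fin d) => (x i, x j) :=
    (continuous_apply i).prodMk (continuous_apply j)
  exact (isClopen_discrete {q : Fin d × Fin d | q.1 ≠ q.2}).preimage this

lemma isClopen_coord (i : ℤ) (S : Set (Fin d)) : IsClopen {x : ℤ → Fin d | x i ∈ S} :=
  (isClopen_discrete S).preimage (continuous_apply i)

lemma borel_eq : (inferInstance : MeasurableSpace (ℤ → Fin d)) =
    MeasurableSpace.generateFrom {C : Set (ℤ → Fin d) | IsClopen C} := by
  apply le_antisymm
  · change MeasurableSpace.pi ≤ _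
    refine iSup_le fun i => ?_
    rw [← measurable_iff_comap_le]
    intro S _
    exact MeasurableSpace.measurableSet_generateFrom (isClopen_coord i S)
  · refine MeasurableSpace.generateFrom_le fun C hC => ?_
    exact IsOpen.measurableSet hC.isOpen

lemma coord_eq : (inferInstance : MeasurableSpace (ℤ → Fin d)) =
    MeasurableSpace.generateFrom
      {C : Set (ℤ → Fin d) | ∃ (i : ℤ) (S : Set (Fin d)), C = {x | x i ∈ S}} := by
  apply le_antisymm
  · change MeasurableSpace.pi ≤ _
    refine iSup_le fun i => ?_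
    rw [← measurable_iff_comap_le]
    intro S _
    exact MeasurableSpace.measurableSet_generateFrom ⟨i, S, rfl⟩
  · refine MeasurableSpace.generateFrom_le fun C hC => ?_
    obtain ⟨i, S, rfl⟩ := hC
    exact IsOpen.measurableSet (isClopen_coord i S).isOpen

end Clopen

/-- windows inside the word -/
lemma ofFn_ex {d : ℕ} (a : Fin d) (w : List (Fin d)) (i : ℤ) (k m : ℕ) (h1 : 0 ≤ i + m)
    (h2 : i + m + k ≤ w.length) :
    List.ofFn (fun j : Fin k => tr (m : ℤ) (ex a w) (i + ((j : ℕ) : ℤ))) <:+: w := by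
  have h3 : List.ofFn (fun j : Fin k => tr (m : ℤ) (ex a w) (i + ((j : ℕ) : ℤ))) =
      (w.drop (i + m).toNat).take k := by
    apply List.ext_getElem
    · rw [List.length_ofFn, List.length_take, List.length_drop]
      omega
    · intro j hj1 hj2
      rw [List.length_ofFn] at hj1
      rw [List.getElem_ofFn, List.getElem_take, List.getElem_drop]
      have h4 : i + ((j : ℕ) : ℤ) + m = (((i + m).toNat + j : ℕ) : ℤ) := by
        push_cast
        rw [Int.toNat_of_nonneg h1]
        ring
      change ex a w (i + ((j : ℕ) : ℤ) + m) = _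
      rw [h4, ex_of_lt a w (by omega)]
  rw [h3]
  exact (List.take_prefix _ _).isInfix.trans (List.drop_suffix _ _).isInfix

/-- rigidity from the coordinates -/
lemma rigid_of {d : ℕ} (μ : Measure (ℤ → Fin d)) [IsProbabilityMeasure μ]
    (hmp : MeasurePreserving (sh : (ℤ → Fin d) → ℤ → Fin d) μ μ) (nk : ℕ → ℕ)
    (h0 : Tendsto (fun k => μ {x | x 0 ≠ x (nk k : ℤ)}) atTop (𝓝 0))
    (A : Set (ℤ → Fin d)) (hA : MeasurableSet A) :
    Tendsto (fun k => μ (symmDiff ((sh^[nk k]) ⁻¹' A) A)) atTop (𝓝 0) := by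
  have htr : ∀ (m : ℤ) (C : Set (ℤ → Fin d)), MeasurableSet C → μ (tr m ⁻¹' C) = μ C := by
    have hnat : ∀ (m : ℕ) (C : Set (ℤ → Fin d)), MeasurableSet C → μ (tr (m : ℤ) ⁻¹' C) = μ C := by
      intro m C hC
      have h1 := (hmp.iterate m).measure_preimage hC.nullMeasurableSet
      rw [← h1]
      congr 1
      ext x
      simp only [Set.mem_preimage, sh_iterate]
    intro m C hC
    rcases le_total 0 m with hm | hm
    · have := hnat m.toNat C hC
      rwa [Int.toNat_of_nonneg hm] at this
    · have h1 := hnat (-m).toNat (tr m ⁻¹' C) ((continuous_tr m).measurable hC)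
      rw [← h1]
      congr 1
      ext x
      simp only [Set.mem_preimage]
      rw [Int.toNat_of_nonneg (by omega : 0 ≤ -m)]
      have : tr m (tr (-m) x) = x := by
        funext j
        simp [tr]
      rw [this]
  have hAg : MeasurableSet[MeasurableSpace.generateFrom
      {C : Set (ℤ → Fin d) | ∃ (i : ℤ) (S : Set (Fin d)), C = {x | x i ∈ S}}] A := by
    rw [← coord_eq]
    exact hA
  induction A, hAg using MeasurableSpace.generateFrom_induction with
  | hC t ht _ =>
    obtain ⟨i, S, rfl⟩ := ht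
    have h1 : ∀ k, μ (symmDiff ((sh^[nk k]) ⁻¹' {x | x i ∈ S}) {x | x i ∈ S}) ≤
        μ {x | x 0 ≠ x (nk k : ℤ)} := by
      intro k
      rw [← htr i {x | x 0 ≠ x (nk k : ℤ)} (IsOpen.measurableSet (isClopen_ne _ _).isOpen)]
      refine measure_mono ?_
      intro x hx
      rw [Set.mem_symmDiff] at hx
      simp only [Set.mem_preimage, Set.mem_ofPred_eq, sh_iterate] at hx ⊢
      intro h2
      have h3 : x i = x ((nk k : ℤ) + i) := by
        have : tr i x 0 = tr i x (nk k : ℤ) := h2
        simpa [tr] using this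
      have h4 : tr (nk k : ℤ) x i = x i := by
        rw [h3]
        simp only [tr]
        congr 1
        ring
      rw [h4] at hx
      tauto
    exact tendsto_of_tendsto_of_tendsto_of_le_of_le tendsto_const_nhds h0 (fun _ => zero_le) h1
  | empty => simp
  | compl t ht ih =>
    have hm : MeasurableSet t := by
      rw [← coord_eq] at ht
      exact ht
    have := ih hm
    simpa only [Set.preimage_compl, compl_symmDiff_compl] using this
  | iUnion f hf ih =>
    have hm : ∀ n, MeasurableSet (f n) := by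
      intro n
      have := hf n
      rw [← coord_eq] at this
      exact this
    have ih' : ∀ n, Tendsto (fun k => μ (symmDiff ((sh^[nk k]) ⁻¹' (f n)) (f n))) atTop (𝓝 0) :=
      fun n => ih n (hm n)
    rw [ENNReal.tendsto_nhds_zero]
    intro ε hε
    by_cases hεt : ε = ⊤
    · subst hεt
      exact Eventually.of_forall fun _ => le_top
    have hε3 : 0 < ε / 3 := ENNReal.div_pos hε.ne' (by norm_num)
    -- the tail
    obtain ⟨J, hJ⟩ : ∃ J : ℕ, μ ((⋃ i, f i) \ ⋃ j ∈ Finset.range J, f j) ≤ ε / 3 := by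
      have h1 : Tendsto (fun J : ℕ => μ ((⋃ i, f i) \ ⋃ j ∈ Finset.range J, f j)) atTop
          (𝓝 (μ (⋂ J : ℕ, ((⋃ i, f i) \ ⋃ j ∈ Finset.range J, f j)))) := by
        refine tendsto_measure_iInter_atTop ?_ ?_ ⟨0, measure_ne_top _ _⟩
        · intro J
          exact ((MeasurableSet.iUnion hm).diff
            (Finset.measurableSet_biUnion _ fun j _ => hm j)).nullMeasurableSet
        · intro J J' hJJ
          refine Set.sdiff_subset_sdiff_right ?_
          refine Set.biUnion_subset_biUnion_left ?_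
          intro j hj
          exact Finset.range_mono hJJ hj
      have h2 : (⋂ J : ℕ, ((⋃ i, f i) \ ⋃ j ∈ Finset.range J, f j)) = ∅ := by
        rw [Set.eq_empty_iff_forall_notMem]
        intro x hx
        rw [Set.mem_iInter] at hx
        obtain ⟨i, hi⟩ := Set.mem_iUnion.1 (hx 0).1
        refine (hx (i + 1)).2 ?_
        simp only [Set.mem_iUnion, Finset.mem_range]
        exact ⟨i, by omega, hi⟩
      rw [h2, measure_empty] at h1
      exact ((ENNReal.tendsto_nhds_zero.1 h1) _ hε3).exists
    have h3 : Tendsto (fun k => ∑ j ∈ Finset.range J, μ (symmDiff ((sh^[nk k]) ⁻¹' (f j)) (f j)))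
        atTop (𝓝 0) := by
      have := tendsto_finsetSum (Finset.range J) fun j _ => ih' j
      simpa using this
    filter_upwards [(ENNReal.tendsto_nhds_zero.1 h3) _ hε3] with k hk
    have h4 : symmDiff ((sh^[nk k]) ⁻¹' (⋃ i, f i)) (⋃ i, f i) ⊆
        (⋃ j ∈ Finset.range J, symmDiff ((sh^[nk k]) ⁻¹' (f j)) (f j)) ∪
        ((sh^[nk k]) ⁻¹' ((⋃ i, f i) \ ⋃ j ∈ Finset.range J, f j) ∪
          ((⋃ i, f i) \ ⋃ j ∈ Finset.range J, f j)) := by
      intro x hx
      rw [Set.mem_symmDiff] at hx
      by_contra hcon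
      simp only [Set.mem_union, Set.mem_iUnion, Finset.mem_range, Set.mem_symmDiff,
        Set.mem_preimage, Set.mem_sdiff, not_or, not_exists, not_and, not_not] at hcon hx
      obtain ⟨hc1, hc2, hc3⟩ := hcon
      rcases hx with ⟨⟨i, hi⟩, hx2⟩ | ⟨⟨i, hi⟩, hx2⟩
      · exact hc2 ⟨i, hi⟩ fun j hj hjx => hx2 j ((hc1 j hj).1 hjx)
      · exact hc3 ⟨i, hi⟩ fun j hj hjx => hx2 j ((hc1 j hj).2 hjx)
    have h5 : μ ((sh^[nk k]) ⁻¹' ((⋃ i, f i) \ ⋃ j ∈ Finset.range J, f j)) =
        μ ((⋃ i, f i) \ ⋃ j ∈ Finset.range J, f j) :=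
      (hmp.iterate _).measure_preimage ((MeasurableSet.iUnion hm).diff
            (Finset.measurableSet_biUnion _ fun j _ => hm j)).nullMeasurableSet
    calc μ (symmDiff ((sh^[nk k]) ⁻¹' (⋃ i, f i)) (⋃ i, f i)) ≤ _ := measure_mono h4
      _ ≤ _ := measure_union_le _ _
      _ ≤ ε / 3 + (ε / 3 + ε / 3) := by
          refine add_le_add ((measure_biUnion_finset_le _ _).trans hk)
            ((measure_union_le _ _).trans (add_le_add ?_ hJ))
          rw [h5]
          exact hJ
      _ = ε := by
          rw [← add_assoc]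
          exact ENNReal.add_thirds ε

/-- From the frequencies of `x i ≠ x (i + nk k)` in the words `σⁿ(a)` to a rigid measure. -/
theorem exists_measure {d : ℕ} (σ : Fin d → List (Fin d)) (a : Fin d)
    (hlen : Tendsto (fun n => ((fun w : List (Fin d) => w.flatMap σ)^[n] [a]).length) atTop atTop)
    (nk : ℕ → ℕ) (hnk : Tendsto nk atTop atTop)
    (hr : ∀ ε : ℝ, 0 < ε → ∀ᶠ k in atTop, ∀ᶠ n in atTop,
      (((Finset.range (((fun w : List (Fin d) => w.flatMap σ)^[n] [a]).length - nk k)).filter
        fun i => ((fun w : List (Fin d) => w.flatMap σ)^[n] [a])[i]? ≠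
          ((fun w : List (Fin d) => w.flatMap σ)^[n] [a])[i + nk k]?).card : ℝ) ≤
        ε * (((fun w : List (Fin d) => w.flatMap σ)^[n] [a]).length : ℝ)) :
    ∃ μ : Measure (ℤ → Fin d), IsProbabilityMeasure μ ∧
      μ ({x : ℤ → Fin d | ∀ (i : ℤ) (k : ℕ), ∃ (n : ℕ) (a : Fin d),
            List.ofFn (fun j : Fin k => x (i + ((j : ℕ) : ℤ))) <:+:
              (fun w : List (Fin d) => w.flatMap σ)^[n] [a]}ᶜ) = 0 ∧
      MeasurePreserving (fun x : ℤ → Fin d => fun i : ℤ => x (i + 1)) μ μ ∧
      ∃ n : ℕ → ℕ, Tendsto n atTop atTop ∧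
          ∀ A : Set (ℤ → Fin d), MeasurableSet A →
            Tendsto
              (fun k : ℕ => μ (symmDiff
                ((fun x : ℤ → Fin d => fun i : ℤ => x (i + 1))^[n k] ⁻¹' A) A))
              atTop (nhds 0) := by
  set W : ℕ → List (Fin d) := fun n => (fun w : List (Fin d) => w.flatMap σ)^[n] [a] with hW
  -- the limit measure
  let F : Ultrafilter ℕ := Filter.hyperfilter ℕ
  have hF : (F : Filter ℕ) ≤ atTop := Nat.hyperfilter_le_atTop
  obtain ⟨μ, -, hμ'⟩ := isCompact_univ.ultrafilter_le_nhds (F.map fun n => empP a (W n))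
    (by simp)
  have hμ : Tendsto (fun n => empP a (W n)) F (𝓝 μ) := hμ'
  have hL : ∀ᶠ n in (F : Filter ℕ), (W n).length ≠ 0 := by
    refine hF ?_
    filter_upwards [hlen.eventually_gt_atTop 0] with n hn
    exact hn.ne'
  have hlim : ∀ C : Set (ℤ → Fin d), IsClopen C → Tendsto
      (fun n => ((W n).length : ℝ≥0∞)⁻¹ * (cnt a (W n) C : ℝ≥0∞)) F
      (𝓝 ((μ : Measure (ℤ → Fin d)) C)) := by
    intro C hC
    have h1 := ProbabilityMeasure.tendsto_measure_of_null_frontier_of_tendsto' hμ (E := C)
      (by rw [hC.frontier_eq]; exact measure_empty)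
    refine h1.congr' ?_
    filter_upwards [hL] with n hn
    exact empP_apply a hn (IsOpen.measurableSet hC.isOpen)
  have hinv : Tendsto (fun n => ((W n).length : ℝ≥0∞)⁻¹) F (𝓝 0) := by
    have h1 : Tendsto (fun n => ((W n).length : ℝ≥0∞)) atTop (𝓝 ⊤) :=
      ENNReal.tendsto_nat_nhds_top.comp hlen
    have h2 := (tendsto_inv_iff.2 h1).mono_left hF
    rwa [ENNReal.inv_top] at h2
  have hinvc : ∀ c : ℕ, Tendsto (fun n => ((W n).length : ℝ≥0∞)⁻¹ * (c : ℝ≥0∞)) F (𝓝 0) := by
    intro c
    have := ENNReal.Tendsto.mul_const hinv (b := (c : ℝ≥0∞)) (Or.inr (ENNReal.natCast_ne_top c))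
    rwa [zero_mul] at this
  -- invariance
  have hshclopen : ∀ C : Set (ℤ → Fin d), IsClopen C → IsClopen (sh ⁻¹' C) :=
    fun C hC => hC.preimage continuous_sh
  have hinvC : ∀ C : Set (ℤ → Fin d), IsClopen C →
      (μ : Measure (ℤ → Fin d)) (sh ⁻¹' C) = (μ : Measure (ℤ → Fin d)) C := by
    intro C hC
    have h1 := hlim C hC
    have h2 := hlim _ (hshclopen C hC)
    have h3 := hinvc 1
    apply le_antisymm
    · have h4 := h1.add h3
      rw [add_zero] at h4
      refine le_of_tendsto_of_tendsto h2 h4 (Eventually.of_forall fun n => ?_)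
      simp only
      rw [← mul_add]
      gcongr
      exact_mod_cast cnt_sh_le a (W n) C
    · have h4 := h2.add h3
      rw [add_zero] at h4
      refine le_of_tendsto_of_tendsto h1 h4 (Eventually.of_forall fun n => ?_)
      simp only
      rw [← mul_add]
      gcongr
      exact_mod_cast cnt_le_sh a (W n) C
  have hmp : MeasurePreserving (sh : (ℤ → Fin d) → ℤ → Fin d) (μ : Measure (ℤ → Fin d))
      (μ : Measure (ℤ → Fin d)) := by
    refine ⟨continuous_sh.measurable, ?_⟩
    have : IsFiniteMeasure (Measure.map sh (μ : Measure (ℤ → Fin d))) :=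
      Measure.isFiniteMeasure_map _ _
    refine ext_of_generate_finite {C : Set (ℤ → Fin d) | IsClopen C} borel_eq ?_ ?_ ?_
    · intro s hs t ht _
      exact IsClopen.inter hs ht
    · intro C hC
      rw [Measure.map_apply continuous_sh.measurable (IsOpen.measurableSet hC.isOpen)]
      exact hinvC C hC
    · rw [Measure.map_apply continuous_sh.measurable MeasurableSet.univ, Set.preimage_univ]
  refine ⟨μ, μ.2, ?_, hmp, nk, hnk, ?_⟩
  · -- support
    let Bd : ℤ → ℕ → Set (ℤ → Fin d) := fun i k => {x | ¬ ∃ (n : ℕ) (a : Fin d),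
      List.ofFn (fun j : Fin k => x (i + ((j : ℕ) : ℤ))) <:+:
        (fun w : List (Fin d) => w.flatMap σ)^[n] [a]}
    have h1 : ({x : ℤ → Fin d | ∀ (i : ℤ) (k : ℕ), ∃ (n : ℕ) (a : Fin d),
            List.ofFn (fun j : Fin k => x (i + ((j : ℕ) : ℤ))) <:+:
              (fun w : List (Fin d) => w.flatMap σ)^[n] [a]}ᶜ) ⊆ ⋃ (i : ℤ) (k : ℕ), Bd i k := by
      intro x hx
      by_contra hcon
      apply hx
      intro i k
      by_contra h2
      exact hcon (Set.mem_iUnion.2 ⟨i, Set.mem_iUnion.2 ⟨k, h2⟩⟩)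
    refine measure_mono_null h1 (measure_iUnion_null fun i => measure_iUnion_null fun k => ?_)
    have hcl : IsClopen (Bd i k) :=
      isClopen_of_coord (fun j : Fin k => i + ((j : ℕ) : ℤ)) {u | ¬ ∃ (n : ℕ) (a : Fin d),
        List.ofFn u <:+: (fun w : List (Fin d) => w.flatMap σ)^[n] [a]}
    have h2 := hlim _ hcl
    have h3 := hinvc (i.natAbs + (i.natAbs + k))
    refine le_antisymm (le_of_tendsto_of_tendsto h2 h3 (Eventually.of_forall fun n => ?_))
      (zero_le)
    simp only
    gcongr
    refine cnt_le_of a (W n) _ _ _ fun m hm1 hm2 hm3 => ?_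
    apply hm3
    exact ⟨n, a, ofFn_ex a (W n) i k m (by omega) (by omega)⟩
  · intro A hA
    refine rigid_of (μ : Measure (ℤ → Fin d)) hmp nk ?_ A hA
    rw [ENNReal.tendsto_nhds_zero]
    intro ε hε
    by_cases hεt : ε = ⊤
    · subst hεt
      exact Eventually.of_forall fun _ => le_top
    have he : 0 < ε.toReal := ENNReal.toReal_pos hε.ne' hεt
    filter_upwards [hr ε.toReal he] with k hk
    have h2 := hlim _ (isClopen_ne (d := d) 0 (nk k : ℤ))
    have h3 := (tendsto_const_nhds (x := ε)).add (hinvc (nk k))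
    rw [add_zero] at h3
    refine le_of_tendsto_of_tendsto h2 h3 ?_
    filter_upwards [hF hk] with n hn
    have h4 := cnt_ne_le a (W n) (nk k)
    have h5 : (cnt a (W n) {x | x 0 ≠ x (nk k : ℤ)} : ℝ≥0∞) ≤
        ((((Finset.range ((W n).length - nk k)).filter fun i => (W n)[i]? ≠
          (W n)[i + nk k]?).card : ℕ) : ℝ≥0∞) + (nk k : ℝ≥0∞) := by
      exact_mod_cast h4
    have h6 : ((((Finset.range ((W n).length - nk k)).filter fun i => (W n)[i]? ≠
          (W n)[i + nk k]?).card : ℕ) : ℝ≥0∞) ≤ ε * ((W n).length : ℝ≥0∞) := by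
      have h7 := ENNReal.ofReal_le_ofReal hn
      rw [ENNReal.ofReal_natCast, ENNReal.ofReal_mul he.le, ENNReal.ofReal_natCast,
        ENNReal.ofReal_toReal hεt] at h7
      exact h7
    calc ((W n).length : ℝ≥0∞)⁻¹ * (cnt a (W n) {x | x 0 ≠ x (nk k : ℤ)} : ℝ≥0∞)
        ≤ ((W n).length : ℝ≥0∞)⁻¹ * (ε * ((W n).length : ℝ≥0∞) + (nk k : ℝ≥0∞)) := by
          gcongr
          exact h5.trans (add_le_add h6 le_rfl)
      _ = ε * (((W n).length : ℝ≥0∞)⁻¹ * ((W n).length : ℝ≥0∞)) +
            ((W n).length : ℝ≥0∞)⁻¹ * (nk k : ℝ≥0∞) := by ring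
      _ ≤ ε * 1 + ((W n).length : ℝ≥0∞)⁻¹ * (nk k : ℝ≥0∞) := by
          gcongr
          exact ENNReal.inv_mul_le_one _
      _ = _ := by rw [mul_one]

end Pool.Agent.SRig
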