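import Mathlib

/-!
# SRig: positive semidefinite kernels (section 2 of the blueprint for MP_ec87dd_an)
-/

set_option autoImplicit false

open scoped BigOperators
open MeasureTheory

namespace Pool.Agent.SRig

/-- positive semidefinite kernels -/
def PSD {X : Type*} (k : X → X → ℝ) : Prop :=
  (∀ p q, k p q = k q p) ∧ ∀ (ι : Type) [Fintype ι] (p : ι → X) (x : ι → ℝ),
    0 ≤ ∑ i, ∑ j, x i * x j * k (p i) (p j)

namespace PSD

variable {X Y : Type*}

theorem quad {ι : Type} [Fintype ι] (A : Matrix ι ι ℝ) (x : ι → ℝ) :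
    dotProduct (star x) (A.mulVec x) = ∑ i, ∑ j, x i * x j * A i j := by
  simp only [dotProduct, Matrix.mulVec, star_trivial, Finset.mul_sum]
  exact Finset.sum_congr rfl fun i _ => Finset.sum_congr rfl fun j _ => by ring

theorem posSemidef {k : X → X → ℝ} (h : PSD k) {ι : Type} [Fintype ι] (p : ι → X) :
    (Matrix.of fun i j => k (p i) (p j)).PosSemidef := by
  rw [Matrix.posSemidef_iff_dotProduct_mulVec]
  refine ⟨?_, fun x => ?_⟩
  · ext i j
    simp [Matrix.conjTranspose_apply, h.1 (p i) (p j)]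
  · rw [quad]
    exact h.2 ι p x

theorem mul {k l : X → X → ℝ} (hk : PSD k) (hl : PSD l) : PSD fun p q => k p q * l p q := by
  refine ⟨fun p q => ?_, fun ι _ p x => ?_⟩
  · show k p q * l p q = k q p * l q p
    rw [hk.1 p q, hl.1 p q]
  have h1 := (hk.posSemidef p).hadamard (hl.posSemidef p)
  rw [Matrix.posSemidef_iff_dotProduct_mulVec] at h1
  have h2 := h1.2 x
  rw [quad] at h2
  exact h2

theorem add {k l : X → X → ℝ} (hk : PSD k) (hl : PSD l) : PSD fun p q => k p q + l p q := by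
  refine ⟨fun p q => ?_, fun ι _ p x => ?_⟩
  · show k p q + l p q = k q p + l q p
    rw [hk.1 p q, hl.1 p q]
  have h1 := add_nonneg (hk.2 ι p x) (hl.2 ι p x)
  rw [← Finset.sum_add_distrib] at h1
  refine h1.trans_eq (Finset.sum_congr rfl fun i _ => ?_)
  rw [← Finset.sum_add_distrib]
  exact Finset.sum_congr rfl fun j _ => by ring

theorem smul {k : X → X → ℝ} (hk : PSD k) {c : ℝ} (hc : 0 ≤ c) : PSD fun p q => c * k p q := by
  refine ⟨fun p q => ?_, fun ι _ p x => ?_⟩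
  · show c * k p q = c * k q p
    rw [hk.1 p q]
  have h1 := mul_nonneg hc (hk.2 ι p x)
  rw [Finset.mul_sum] at h1
  refine h1.trans_eq (Finset.sum_congr rfl fun i _ => ?_)
  rw [Finset.mul_sum]
  exact Finset.sum_congr rfl fun j _ => by ring

theorem comp {k : X → X → ℝ} (hk : PSD k) (f : Y → X) : PSD fun p q => k (f p) (f q) :=
  ⟨fun _ _ => hk.1 _ _, fun ι _ p x => hk.2 ι (fun i => f (p i)) x⟩

theorem integral {α : Type*} [MeasurableSpace α] {μ : Measure α} {k : α → X → X → ℝ}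
    (hk : ∀ᵐ a ∂μ, PSD (k a)) (hs : ∀ a p q, k a p q = k a q p)
    (hint : ∀ p q, Integrable (fun a => k a p q) μ) :
    PSD fun p q => ∫ a, k a p q ∂μ := by
  refine ⟨fun p q => integral_congr_ae (Filter.Eventually.of_forall fun a => hs a p q),
    fun ι _ p x => ?_⟩
  have h1 : ∑ i, ∑ j, x i * x j * ∫ a, k a (p i) (p j) ∂μ =
      ∫ a, ∑ i, ∑ j, x i * x j * k a (p i) (p j) ∂μ := by
    rw [integral_finsetSum]
    · refine Finset.sum_congr rfl fun i _ => ?_
      rw [integral_finsetSum]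
      · exact Finset.sum_congr rfl fun j _ => (integral_const_mul _ _).symm
      · exact fun j _ => (hint _ _).const_mul _
    · exact fun i _ => integrable_finsetSum _ fun j _ => (hint _ _).const_mul _
  show 0 ≤ ∑ i, ∑ j, x i * x j * ∫ a, k a (p i) (p j) ∂μ
  rw [h1]
  exact integral_nonneg_of_ae (hk.mono fun a ha => ha.2 ι p x)

/-- a square -/
theorem of_mul (f : X → ℝ) : PSD fun p q => f p * f q := by
  refine ⟨fun p q => mul_comm _ _, fun ι _ p x => ?_⟩
  have h1 : ∑ i, ∑ j, x i * x j * (f (p i) * f (p j)) = (∑ i, x i * f (p i)) ^ 2 := by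
    rw [sq, Finset.sum_mul_sum]
    exact Finset.sum_congr rfl fun i _ => Finset.sum_congr rfl fun j _ => by ring
  rw [h1]
  positivity

theorem cos (ω : ℝ) : PSD fun x y : ℝ => Real.cos (ω * (x - y)) := by
  have h1 := (of_mul fun x : ℝ => Real.cos (ω * x)).add (of_mul fun x : ℝ => Real.sin (ω * x))
  convert h1 using 3 with x y
  rw [mul_sub, Real.cos_sub]

end PSD

/-! ### Gaussians -/

/-- the Gaussian `r⁻¹ exp(-x²/(2r²))` -/
noncomputable def jg (r x : ℝ) : ℝ := r⁻¹ * Real.exp (-(x ^ 2) / (2 * r ^ 2))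

lemma integrable_gauss_cos {r : ℝ} (hr : 0 < r) (x : ℝ) :
    Integrable fun ω : ℝ => Real.exp (-(r ^ 2 / 2) * ω ^ 2) * Real.cos (ω * x) := by
  have h1 := integrable_exp_neg_mul_sq (b := r ^ 2 / 2) (by positivity)
  refine h1.mul_bdd (c := 1) ?_ ?_
  · exact (Real.continuous_cos.comp (continuous_id.mul continuous_const)).aestronglyMeasurable
  · exact Filter.Eventually.of_forall fun ω => by
      rw [Real.norm_eq_abs]; exact Real.abs_cos_le_one _

lemma jg_eq {r : ℝ} (hr : 0 < r) (x : ℝ) :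
    jg r x = (√(2 * Real.pi))⁻¹ * ∫ ω : ℝ, Real.exp (-(r ^ 2 / 2) * ω ^ 2) * Real.cos (ω * x) := by
  have h := fourierIntegral_gaussian (b := ((r ^ 2 / 2 : ℝ) : ℂ))
    (by rw [Complex.ofReal_re]; positivity) (x : ℂ)
  have h2 := congrArg Complex.re h
  rw [← RCLike.re_eq_complex_re, ← integral_re] at h2
  · have e1 : ∀ ω : ℝ, RCLike.re (Complex.exp (Complex.I * x * ω) *
        Complex.exp (-((r ^ 2 / 2 : ℝ) : ℂ) * ω ^ 2)) =
        Real.exp (-(r ^ 2 / 2) * ω ^ 2) * Real.cos (ω * x) := by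
      intro ω
      have e2 : Complex.exp (-((r ^ 2 / 2 : ℝ) : ℂ) * ω ^ 2) =
          ((Real.exp (-(r ^ 2 / 2) * ω ^ 2) : ℝ) : ℂ) := by
        push_cast; ring_nf
      rw [e2, RCLike.re_eq_complex_re, Complex.mul_re, Complex.ofReal_re, Complex.ofReal_im,
        mul_zero, sub_zero]
      have e3 : Complex.I * (x : ℂ) * (ω : ℂ) = ((ω * x : ℝ) : ℂ) * Complex.I := by
        push_cast; ring
      rw [e3, Complex.exp_ofReal_mul_I_re]
      ring
    simp only [e1] at h2
    rw [h2]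
    have e4 : ((Real.pi : ℂ) / ((r ^ 2 / 2 : ℝ) : ℂ)) ^ (1 / 2 : ℂ) =
        ((√(2 * Real.pi) / r : ℝ) : ℂ) := by
      have e5 : ((Real.pi : ℂ) / ((r ^ 2 / 2 : ℝ) : ℂ)) = ((2 * Real.pi / r ^ 2 : ℝ) : ℂ) := by
        push_cast; field_simp
      have e6 : (1 / 2 : ℂ) = ((1 / 2 : ℝ) : ℂ) := by push_cast; ring
      rw [e5, e6, ← Complex.ofReal_cpow (by positivity), ← Real.sqrt_eq_rpow,
        Real.sqrt_div' _ (by positivity), Real.sqrt_sq hr.le]
    have e7 : Complex.exp (-(x : ℂ) ^ 2 / (4 * ((r ^ 2 / 2 : ℝ) : ℂ))) =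
        ((Real.exp (-(x ^ 2) / (2 * r ^ 2)) : ℝ) : ℂ) := by
      push_cast
      congr 1
      field_simp
      ring
    rw [e4, e7, ← Complex.ofReal_mul, RCLike.re_eq_complex_re, Complex.ofReal_re]
    unfold jg
    have e8 : √(2 * Real.pi) ≠ 0 := (Real.sqrt_pos.2 (by positivity)).ne'
    field_simp
  · have h3 := (integrable_cexp_neg_mul_sq (b := ((r ^ 2 / 2 : ℝ) : ℂ))
      (by rw [Complex.ofReal_re]; positivity)).bdd_mul (c := 1)
      (f := fun ω : ℝ => Complex.exp (Complex.I * x * ω)) (by fun_prop)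
      (Filter.Eventually.of_forall fun ω => by
        have e3 : Complex.I * (x : ℂ) * (ω : ℂ) = ((ω * x : ℝ) : ℂ) * Complex.I := by
          push_cast; ring
        rw [e3, Complex.norm_exp_ofReal_mul_I])
    exact h3

lemma jg_neg (r x : ℝ) : jg r (-x) = jg r x := by unfold jg; rw [neg_sq]

lemma jg_nonneg {r : ℝ} (hr : 0 < r) (x : ℝ) : 0 ≤ jg r x := by unfold jg; positivity

theorem PSD_jg {r : ℝ} (hr : 0 < r) : PSD fun x y : ℝ => jg r (x - y) := by
  simp only [jg_eq hr]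
  refine PSD.smul (PSD.integral (Filter.Eventually.of_forall fun ω => ?_) (fun ω x y => ?_)
    fun x y => integrable_gauss_cos hr _) (by positivity)
  · exact (PSD.cos ω).smul (Real.exp_pos _).le
  · rw [← neg_sub y x, mul_neg, Real.cos_neg]

theorem PSD_jg_sub {r ρ : ℝ} (hr : 0 < r) (h : r ≤ ρ) :
    PSD fun x y : ℝ => jg r (x - y) - jg ρ (x - y) := by
  have hρ := hr.trans_le h
  have e : (fun x y : ℝ => jg r (x - y) - jg ρ (x - y)) = fun x y : ℝ => (√(2 * Real.pi))⁻¹ *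
      ∫ ω : ℝ, (Real.exp (-(r ^ 2 / 2) * ω ^ 2) - Real.exp (-(ρ ^ 2 / 2) * ω ^ 2)) *
        Real.cos (ω * (x - y)) := by
    funext x y
    rw [jg_eq hr, jg_eq hρ, ← mul_sub, ← integral_sub (integrable_gauss_cos hr _)
      (integrable_gauss_cos hρ _)]
    simp only [sub_mul]
  rw [e]
  refine PSD.smul (PSD.integral (Filter.Eventually.of_forall fun ω => ?_) (fun ω x y => ?_)
    fun x y => ?_) (by positivity)
  · refine (PSD.cos ω).smul (sub_nonneg.2 (Real.exp_le_exp.2 ?_))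
    have : r ^ 2 ≤ ρ ^ 2 := by nlinarith
    nlinarith [sq_nonneg ω]
  · rw [← neg_sub y x, mul_neg, Real.cos_neg]
  · simp only [sub_mul]
    exact (integrable_gauss_cos hr _).sub (integrable_gauss_cos hρ _)

/-- the planar Gaussian `r⁻² exp(-|s|²/(2r²))` -/
noncomputable def Jg (r : ℝ) (s : ℂ) : ℝ := (r ^ 2)⁻¹ * Real.exp (-(‖s‖ ^ 2) / (2 * r ^ 2))

lemma Jg_eq (r : ℝ) (s : ℂ) : Jg r s = jg r s.re * jg r s.im := by
  unfold Jg jg
  have h : ‖s‖ ^ 2 = s.re ^ 2 + s.im ^ 2 := by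
    rw [← Complex.normSq_eq_norm_sq, Complex.normSq_apply]; ring
  rw [h, mul_mul_mul_comm, ← Real.exp_add]
  congr 1
  · rw [sq, mul_inv]
  · congr 1; ring

lemma Jg_nonneg (r : ℝ) (s : ℂ) : 0 ≤ Jg r s := by unfold Jg; positivity

lemma Jg_norm (r : ℝ) {s s' : ℂ} (h : ‖s‖ = ‖s'‖) : Jg r s = Jg r s' := by unfold Jg; rw [h]

theorem PSD_Jg {r : ℝ} (hr : 0 < r) : PSD fun s s' : ℂ => Jg r (s - s') := by
  have h := ((PSD_jg hr).comp Complex.re).mul ((PSD_jg hr).comp Complex.im)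
  simpa only [Jg_eq, Complex.sub_re, Complex.sub_im] using h

theorem PSD_Jg_sub {r ρ : ℝ} (hr : 0 < r) (h : r ≤ ρ) :
    PSD fun s s' : ℂ => Jg r (s - s') - Jg ρ (s - s') := by
  have hρ := hr.trans_le h
  have h1 := (((PSD_jg_sub hr h).comp Complex.re).mul ((PSD_jg hr).comp Complex.im)).add
    (((PSD_jg hρ).comp Complex.re).mul ((PSD_jg_sub hr h).comp Complex.im))
  have e : (fun s s' : ℂ => Jg r (s - s') - Jg ρ (s - s')) = fun s s' : ℂ =>
      (jg r (s.re - s'.re) - jg ρ (s.re - s'.re)) * jg r (s.im - s'.im) +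
      jg ρ (s.re - s'.re) * (jg r (s.im - s'.im) - jg ρ (s.im - s'.im)) := by
    funext s s'
    rw [Jg_eq, Jg_eq, Complex.sub_re, Complex.sub_im]
    ring
  rw [e]
  exact h1

/-! ### The kernels with compact support -/

/-- `(1-|x|)₊² (2+|x|)/2` -/
noncomputable def k0 (x : ℝ) : ℝ := max (1 - |x|) 0 ^ 2 * (2 + |x|) / 2

/-- derivative of `x k0 x` -/
noncomputable def m0 (x : ℝ) : ℝ := if |x| ≤ 1 then 1 - 3 * |x| + 2 * |x| ^ 3 else 0

/-- `D k0 (D x)` -/
noncomputable def Kd (D x : ℝ) : ℝ := D * k0 (D * x)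

lemma k0_nonneg (x : ℝ) : 0 ≤ k0 x := by
  unfold k0; positivity

lemma k0_neg (x : ℝ) : k0 (-x) = k0 x := by unfold k0; rw [abs_neg]

lemma k0_eq_zero {x : ℝ} (h : 1 ≤ |x|) : k0 x = 0 := by
  unfold k0; rw [max_eq_right (by linarith)]; ring

lemma k0_le_one (x : ℝ) : k0 x ≤ 1 := by
  unfold k0
  rcases le_total (1 - |x|) 0 with h | h
  · rw [max_eq_right h]; norm_num
  · rw [max_eq_left h]
    have h1 := abs_nonneg x
    nlinarith [mul_nonneg h1 h, mul_nonneg (mul_nonneg h1 h) h1]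

lemma k0_ge_half {x : ℝ} (h : |x| ≤ 1 / 10) : 1 / 2 ≤ k0 x := by
  unfold k0
  have h1 := abs_nonneg x
  rw [max_eq_left (by linarith)]
  nlinarith [mul_nonneg h1 h1]

lemma m0_neg (x : ℝ) : m0 (-x) = m0 x := by unfold m0; rw [abs_neg]

lemma abs_m0_le (x : ℝ) : |m0 x| ≤ 6 := by
  unfold m0
  split_ifs with h
  · have h1 := abs_nonneg x
    have h2 : |x| ^ 3 ≤ 1 := pow_le_one₀ h1 h
    have h3 : 0 ≤ |x| ^ 3 := by positivity
    rw [abs_le]; constructor <;> linarith
  · simp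

lemma measurable_m0 : Measurable m0 := by
  unfold m0
  refine Measurable.ite ?_ (by fun_prop) measurable_const
  exact measurableSet_le (by fun_prop) measurable_const

/-- `t` cut off -/
noncomputable def g0 (t : ℝ) : ℝ := (Set.Icc (-(1 / 2) : ℝ) (1 / 2)).indicator (fun t => t) t

lemma measurable_g0 : Measurable g0 :=
  measurable_id.indicator measurableSet_Icc

lemma abs_g0_le (t : ℝ) : |g0 t| ≤ 1 / 2 := by
  unfold g0
  by_cases h : t ∈ Set.Icc (-(1 / 2) : ℝ) (1 / 2)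
  · rw [Set.indicator_of_mem h]; exact abs_le.2 h
  · rw [Set.indicator_of_notMem h, abs_zero]; norm_num

lemma g0_eq_zero {t : ℝ} (h : t ∉ Set.Icc (-(1 / 2) : ℝ) (1 / 2)) : g0 t = 0 :=
  Set.indicator_of_notMem h _

lemma integrable_g0 (a b : ℝ) : Integrable fun t => g0 (t + a) * g0 (t + b) := by
  refine (integrableOn_iff_integrable_of_support_subset
    (s := Set.Icc (-(1 / 2) - a : ℝ) (1 / 2 - a)) ?_).1 ?_
  · intro t ht
    by_contra hc
    apply ht
    have : g0 (t + a) = 0 := g0_eq_zero fun h => hc ⟨by linarith [h.1], by linarith [h.2]⟩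
    simp [this]
  · refine Measure.integrableOn_of_bounded (M := 1) (by simp) ?_ ?_
    · exact ((measurable_g0.comp (measurable_id.add_const a)).mul
        (measurable_g0.comp (measurable_id.add_const b))).aestronglyMeasurable
    · refine Filter.Eventually.of_forall fun t => ?_
      rw [Real.norm_eq_abs, abs_mul]
      have h1 := abs_g0_le (t + a)
      have h2 := abs_g0_le (t + b)
      have h3 := abs_nonneg (g0 (t + a))
      have h4 := abs_nonneg (g0 (t + b))
      nlinarith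

lemma autocorr {y : ℝ} (hy : 0 ≤ y) : ∫ t, g0 t * g0 (t + y) = m0 y / 12 := by
  unfold m0
  rw [abs_of_nonneg hy]
  split_ifs with h
  · have e1 : (fun t => g0 t * g0 (t + y)) =
        (Set.Icc (-(1 / 2) : ℝ) (1 / 2 - y)).indicator (fun t => t * (t + y)) := by
      funext t
      by_cases ht : t ∈ Set.Icc (-(1 / 2) : ℝ) (1 / 2 - y)
      · rw [Set.indicator_of_mem ht]
        have h1 : t ∈ Set.Icc (-(1 / 2) : ℝ) (1 / 2) := ⟨ht.1, by linarith [ht.2]⟩
        have h2 : t + y ∈ Set.Icc (-(1 / 2) : ℝ) (1 / 2) :=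
          ⟨by linarith [ht.1], by linarith [ht.2]⟩
        unfold g0
        rw [Set.indicator_of_mem h1, Set.indicator_of_mem h2]
      · rw [Set.indicator_of_notMem ht]
        by_cases h1 : t ∈ Set.Icc (-(1 / 2) : ℝ) (1 / 2)
        · rw [g0_eq_zero (t := t + y) fun h2 => ht ⟨h1.1, by linarith [h2.2]⟩, mul_zero]
        · rw [g0_eq_zero h1, zero_mul]
    rw [e1, integral_indicator measurableSet_Icc, integral_Icc_eq_integral_Ioc,
      ← intervalIntegral.integral_of_le (by linarith)]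
    have e2 : ∀ t : ℝ, t * (t + y) = t ^ 2 + y * t := fun t => by ring
    simp only [e2]
    have e3 : IntervalIntegrable (fun t : ℝ => t ^ 2) volume (-(1 / 2)) (1 / 2 - y) :=
      (continuous_pow 2).intervalIntegrable _ _
    have e4 : IntervalIntegrable (fun t : ℝ => y * t) volume (-(1 / 2)) (1 / 2 - y) :=
      (continuous_const.mul continuous_id).intervalIntegrable _ _
    rw [intervalIntegral.integral_add e3 e4, integral_pow,
      intervalIntegral.integral_const_mul, integral_id]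
    ring
  · have e1 : (fun t => g0 t * g0 (t + y)) = fun _ => 0 := by
      funext t
      by_cases h1 : t ∈ Set.Icc (-(1 / 2) : ℝ) (1 / 2)
      · rw [g0_eq_zero (t := t + y) fun h2 => h (by linarith [h1.1, h2.2]), mul_zero]
      · rw [g0_eq_zero h1, zero_mul]
    rw [e1]; simp

lemma autocorr' (a b : ℝ) : ∫ t, 12 * (g0 (t + a) * g0 (t + b)) = m0 (a - b) := by
  rw [integral_const_mul]
  rcases le_total a b with h | h
  · have e1 : ∫ t, g0 (t + a) * g0 (t + b) = ∫ t, g0 t * g0 (t + (b - a)) := by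
      rw [← integral_add_right_eq_self (fun t => g0 t * g0 (t + (b - a))) a]
      congr 1
      funext t
      congr 2
      ring
    rw [e1, autocorr (by linarith), ← neg_sub a b, m0_neg]
    ring
  · have e1 : ∫ t, g0 (t + a) * g0 (t + b) = ∫ t, g0 t * g0 (t + (a - b)) := by
      rw [← integral_add_right_eq_self (fun t => g0 t * g0 (t + (a - b))) b]
      congr 1
      funext t
      rw [mul_comm]
      congr 2
      ring
    rw [e1, autocorr (by linarith)]
    ring

theorem PSD_m0 : PSD fun x y : ℝ => m0 (x - y) := by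
  have h : PSD fun x y : ℝ => ∫ t, 12 * (g0 (t + x) * g0 (t + y)) := by
    refine PSD.integral (Filter.Eventually.of_forall fun t => ?_) (fun t x y => ?_) fun x y => ?_
    · exact (PSD.of_mul fun x => g0 (t + x)).smul (by norm_num)
    · rw [mul_comm (g0 (t + x))]
    · exact (integrable_g0 x y).const_mul _
  simpa only [autocorr'] using h

lemma continuous_k0 : Continuous k0 := by
  unfold k0
  fun_prop

lemma Kd_hasDeriv {u x : ℝ} (hu : 0 < u) (h : u * |x| ≠ 1) :
    HasDerivAt (fun u => Kd u x) (m0 (u * x)) u := by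
  have hab : |u * x| = u * |x| := by rw [abs_mul, abs_of_pos hu]
  rcases lt_or_gt_of_ne h with h1 | h1
  · have e1 : m0 (u * x) = 1 - 3 * (u * |x|) + 2 * (u * |x|) ^ 3 := by
      unfold m0; rw [hab, if_pos h1.le]
    have e2 : (fun u => Kd u x) =ᶠ[nhds u]
        fun u => u - 3 / 2 * |x| * u ^ 2 + |x| ^ 3 / 2 * u ^ 4 := by
      have h2 : ∀ᶠ v in nhds u, 0 < v ∧ v * |x| < 1 := by
        refine (lt_mem_nhds hu).and ?_
        exact (continuous_id.mul continuous_const).continuousAt.eventually_lt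
          continuousAt_const h1
      filter_upwards [h2] with v hv
      have hv' : |v * x| = v * |x| := by rw [abs_mul, abs_of_pos hv.1]
      unfold Kd k0
      rw [hv', max_eq_left (by linarith [hv.2])]
      ring
    refine HasDerivAt.congr_of_eventuallyEq ?_ e2
    rw [e1]
    have h3 := ((hasDerivAt_id u).sub (((hasDerivAt_pow 2 u)).const_mul (3 / 2 * |x|))).add
      ((hasDerivAt_pow 4 u).const_mul (|x| ^ 3 / 2))
    have h4 : HasDerivAt (fun u => u - 3 / 2 * |x| * u ^ 2 + |x| ^ 3 / 2 * u ^ 4) _ u := h3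
    refine h4.congr_deriv ?_
    rw [show (4 - 1 : ℕ) = 3 from rfl, show (2 - 1 : ℕ) = 1 from rfl]
    push_cast
    ring
  · have e1 : m0 (u * x) = 0 := by
      unfold m0; rw [hab, if_neg (by linarith)]
    have e2 : (fun u => Kd u x) =ᶠ[nhds u] fun _ => 0 := by
      have h2 : ∀ᶠ v in nhds u, 0 < v ∧ 1 < v * |x| := by
        refine (lt_mem_nhds hu).and ?_
        exact continuousAt_const.eventually_lt
          (continuous_id.mul continuous_const).continuousAt h1
      filter_upwards [h2] with v hv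
      have hv' : |v * x| = v * |x| := by rw [abs_mul, abs_of_pos hv.1]
      unfold Kd
      rw [k0_eq_zero (by rw [hv']; exact hv.2.le), mul_zero]
    rw [e1]
    exact (hasDerivAt_const u (0 : ℝ)).congr_of_eventuallyEq e2

lemma Kd_sub {D D' x : ℝ} (hD' : 0 ≤ D') (h : D' ≤ D) :
    Kd D x - Kd D' x = ∫ u in D'..D, m0 (u * x) := by
  refine (integral_eq_of_hasDerivAt_off_countable (fun u => Kd u x) (fun u => m0 (u * x))
    (s := {|x|⁻¹}) (Set.countable_singleton _) ?_ ?_ ?_).symm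
  · exact (continuous_id.mul (continuous_k0.comp (continuous_id.mul continuous_const))).continuousOn
  · intro u hu
    rw [min_eq_left h, max_eq_right h] at hu
    have hu0 : 0 < u := by linarith [hu.1.1]
    refine Kd_hasDeriv hu0 fun h1 => hu.2 ?_
    rw [Set.mem_singleton_iff]
    exact eq_inv_of_mul_eq_one_left h1
  · rw [intervalIntegrable_iff_integrableOn_Ioc_of_le h]
    refine Measure.integrableOn_of_bounded (M := 6) (by simp) ?_ ?_
    · exact (measurable_m0.comp (measurable_id.mul_const _)).aestronglyMeasurable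
    · exact Filter.Eventually.of_forall fun u => abs_m0_le _

theorem PSD_Kd_sub {D D' : ℝ} (hD' : 0 ≤ D') (h : D' ≤ D) :
    PSD fun x y : ℝ => Kd D (x - y) - Kd D' (x - y) := by
  simp only [Kd_sub hD' h, intervalIntegral.integral_of_le h]
  refine PSD.integral (Filter.Eventually.of_forall fun u => ?_) (fun u x y => ?_) fun x y => ?_
  · have := PSD_m0.comp (fun x : ℝ => u * x)
    simpa only [← mul_sub] using this
  · rw [← neg_sub y x, mul_neg, m0_neg]
  · refine Measure.integrableOn_of_bounded (M := 6) (by simp) ?_ ?_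
    · exact (measurable_m0.comp (measurable_id.mul_const _)).aestronglyMeasurable
    · exact Filter.Eventually.of_forall fun u => abs_m0_le _

theorem PSD_Kd {D : ℝ} (hD : 0 ≤ D) : PSD fun x y : ℝ => Kd D (x - y) := by
  have h := PSD_Kd_sub le_rfl hD
  have e : ∀ x : ℝ, Kd 0 x = 0 := fun x => by unfold Kd; rw [zero_mul]
  simpa only [e, sub_zero] using h

/-! ### 2.1 and 2.2 -/

/-- 2.1, finite `r` -/
theorem PSD_KJ_sub {D D' r ρ : ℝ} (ζ : ℝ) (hD' : 0 ≤ D') (h : D' ≤ D) (hr : 0 < r) (h' : r ≤ ρ) :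
    PSD fun p q : ℝ × ℂ => Kd D (ζ * (p.1 - q.1)) * Jg r (p.2 - q.2) -
      Kd D' (ζ * (p.1 - q.1)) * Jg ρ (p.2 - q.2) := by
  have hρ := hr.trans_le h'
  have e : (fun p q : ℝ × ℂ => Kd D (ζ * (p.1 - q.1)) * Jg r (p.2 - q.2) -
      Kd D' (ζ * (p.1 - q.1)) * Jg ρ (p.2 - q.2)) = fun p q : ℝ × ℂ =>
      (Kd D (ζ * p.1 - ζ * q.1) - Kd D' (ζ * p.1 - ζ * q.1)) * Jg r (p.2 - q.2) +
      Kd D' (ζ * p.1 - ζ * q.1) * (Jg r (p.2 - q.2) - Jg ρ (p.2 - q.2)) := by
    funext p q
    rw [mul_sub]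
    ring
  rw [e]
  exact (((PSD_Kd_sub hD' h).comp fun p : ℝ × ℂ => ζ * p.1).mul
    ((PSD_Jg hr).comp fun p : ℝ × ℂ => p.2)).add
    (((PSD_Kd hD').comp fun p : ℝ × ℂ => ζ * p.1).mul
    ((PSD_Jg_sub hr h').comp fun p : ℝ × ℂ => p.2))

/-- 2.1, infinite `r` -/
theorem PSD_K_sub {D D' : ℝ} (ζ : ℝ) (hD' : 0 ≤ D') (h : D' ≤ D) :
    PSD fun p q : ℝ × ℂ => Kd D (ζ * (p.1 - q.1)) - Kd D' (ζ * (p.1 - q.1)) := by
  have h1 := (PSD_Kd_sub hD' h).comp fun p : ℝ × ℂ => ζ * p.1
  simpa only [← mul_sub] using h1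

lemma gauss_ineq {a d r R ω : ℝ} (ha : 0 ≤ a) (hd : 0 < d) (hr : 0 < r)
    (hR : r + 2 * a / d ≤ R) :
    2 * Real.exp (-(R ^ 2 / 2) * ω ^ 2) ≤
      Real.exp (-(r ^ 2 / 2) * ω ^ 2) * (Real.cos (ω * a) + 1 + d) := by
  have h0 : 0 ≤ 2 * a / d := by positivity
  have hR2 : r ^ 2 + (2 * a / d) ^ 2 ≤ R ^ 2 := by nlinarith
  rcases le_total ((ω * a) ^ 2 / 2) d with h | h
  · have h1 := Real.one_sub_sq_div_two_le_cos (x := ω * a)
    have h2 : Real.exp (-(R ^ 2 / 2) * ω ^ 2) ≤ Real.exp (-(r ^ 2 / 2) * ω ^ 2) := by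
      apply Real.exp_le_exp.2
      nlinarith [sq_nonneg ω, sq_nonneg (2 * a / d)]
    have h3 := Real.exp_pos (-(r ^ 2 / 2) * ω ^ 2)
    nlinarith
  · have h1 := Real.neg_one_le_cos (ω * a)
    have h3 := Real.exp_pos (-(r ^ 2 / 2) * ω ^ 2)
    set T := (R ^ 2 - r ^ 2) / 2 * ω ^ 2 with hT
    have h4 : 2 / d ≤ T := by
      have h5 : (2 * a / d) ^ 2 / 2 * ω ^ 2 ≤ T := by
        rw [hT]
        apply mul_le_mul_of_nonneg_right _ (sq_nonneg ω)
        linarith
      refine le_trans ?_ h5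
      rw [div_le_iff₀ hd]
      have h6 : (2 * a / d) ^ 2 / 2 * ω ^ 2 * d = 4 * ((ω * a) ^ 2 / 2) / d := by
        field_simp
        ring
      rw [h6, le_div_iff₀ hd]
      nlinarith
    have hTpos : 0 < T := lt_of_lt_of_le (by positivity) h4
    have h5 : Real.exp (-T) ≤ d / 2 := by
      have h6 := Real.add_one_le_exp T
      rw [Real.exp_neg]
      rw [inv_le_comm₀ (Real.exp_pos _) (by positivity)]
      rw [inv_div]
      linarith
    have h6 : Real.exp (-(R ^ 2 / 2) * ω ^ 2) =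
        Real.exp (-(r ^ 2 / 2) * ω ^ 2) * Real.exp (-T) := by
      rw [← Real.exp_add]; congr 1; rw [hT]; ring
    rw [h6]
    nlinarith [Real.exp_pos (-T)]

lemma int_comb {f1 f2 f3 f4 : ℝ → ℝ} (c : ℝ) (h1 : Integrable f1) (h2 : Integrable f2)
    (h3 : Integrable f3) (h4 : Integrable f4) :
    ∫ ω, (1 / 2 * (f1 ω + f2 ω) + c * f3 ω - 2 * f4 ω) =
      1 / 2 * ((∫ ω, f1 ω) + ∫ ω, f2 ω) + c * (∫ ω, f3 ω) - 2 * ∫ ω, f4 ω := by
  have i1 : Integrable fun ω => 1 / 2 * (f1 ω + f2 ω) := (h1.add h2).const_mul _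
  have i3 : Integrable fun ω => c * f3 ω := h3.const_mul _
  have i4 : Integrable fun ω => 2 * f4 ω := h4.const_mul _
  have e1 := integral_sub (i1.add i3) i4
  have e2 := integral_add i1 i3
  have e3 := integral_add h1 h2
  simp only [Pi.add_apply] at e1 e2 e3
  rw [e1, e2, integral_const_mul, integral_const_mul, integral_const_mul, e3]

lemma PSD_shift1 {a d r R : ℝ} (ha : 0 ≤ a) (hd : 0 < d) (hr : 0 < r)
    (hR : r + 2 * a / d ≤ R) :
    PSD fun x y : ℝ => (jg r (x - y - a) + jg r (x - y + a)) / 2 + (1 + d) * jg r (x - y) -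
      2 * jg R (x - y) := by
  have hR0 : 0 < R := by
    have : 0 ≤ 2 * a / d := by positivity
    linarith
  have e : (fun x y : ℝ => (jg r (x - y - a) + jg r (x - y + a)) / 2 + (1 + d) * jg r (x - y) -
      2 * jg R (x - y)) = fun x y : ℝ => (√(2 * Real.pi))⁻¹ *
      ∫ ω : ℝ, (Real.exp (-(r ^ 2 / 2) * ω ^ 2) * (Real.cos (ω * a) + 1 + d) -
        2 * Real.exp (-(R ^ 2 / 2) * ω ^ 2)) * Real.cos (ω * (x - y)) := by
    funext x y
    have i1 := integrable_gauss_cos hr (x - y - a)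
    have i2 := integrable_gauss_cos hr (x - y + a)
    have i3 := integrable_gauss_cos hr (x - y)
    have i4 := integrable_gauss_cos hR0 (x - y)
    have h1 : (fun ω : ℝ => (Real.exp (-(r ^ 2 / 2) * ω ^ 2) * (Real.cos (ω * a) + 1 + d) -
        2 * Real.exp (-(R ^ 2 / 2) * ω ^ 2)) * Real.cos (ω * (x - y))) = fun ω : ℝ =>
        ((1 / 2) * (Real.exp (-(r ^ 2 / 2) * ω ^ 2) * Real.cos (ω * (x - y - a)) +
          Real.exp (-(r ^ 2 / 2) * ω ^ 2) * Real.cos (ω * (x - y + a))) +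
          (1 + d) * (Real.exp (-(r ^ 2 / 2) * ω ^ 2) * Real.cos (ω * (x - y)))) -
          2 * (Real.exp (-(R ^ 2 / 2) * ω ^ 2) * Real.cos (ω * (x - y))) := by
      funext ω
      have e1 : ω * (x - y - a) = ω * (x - y) - ω * a := by ring
      have e2 : ω * (x - y + a) = ω * (x - y) + ω * a := by ring
      rw [e1, e2, Real.cos_sub, Real.cos_add]
      ring
    rw [h1, int_comb (1 + d) i1 i2 i3 i4, jg_eq hr, jg_eq hr, jg_eq hr, jg_eq hR0]
    ring
  rw [e]
  refine PSD.smul (PSD.integral (Filter.Eventually.of_forall fun ω => ?_) (fun ω x y => ?_)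
    fun x y => ?_) (by positivity)
  · refine (PSD.cos ω).smul (sub_nonneg.2 ?_)
    exact gauss_ineq ha hd hr hR
  · rw [← neg_sub y x, mul_neg, Real.cos_neg]
  · have i3 := integrable_gauss_cos hr (x - y)
    have i4 := integrable_gauss_cos hR0 (x - y)
    have i1 := integrable_gauss_cos hr (x - y - a)
    have i2 := integrable_gauss_cos hr (x - y + a)
    refine ((((i1.add i2).const_mul (1 / 2)).add (i3.const_mul (1 + d))).sub
      (i4.const_mul 2)).congr (Filter.Eventually.of_forall fun ω => ?_)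
    have e1 : ω * (x - y - a) = ω * (x - y) - ω * a := by ring
    have e2 : ω * (x - y + a) = ω * (x - y) + ω * a := by ring
    simp only [Pi.sub_apply, Pi.add_apply]
    rw [e1, e2, Real.cos_sub, Real.cos_add]
    ring

/-- 2.2 -/
theorem PSD_shift {d r : ℝ} (s0 : ℂ) (hd : 0 < d) (hr : 0 < r) {R : ℝ}
    (hR : r + 2 * ‖s0‖ / d ≤ R) :
    PSD fun s s' : ℂ => (Jg r (s - s' - s0) + Jg r (s - s' + s0)) / 2 + (1 + d) * Jg r (s - s') -
      2 * Jg R (s - s') := by
  obtain ⟨u, hu, hs⟩ : ∃ u : ℂ, ‖u‖ = 1 ∧ u * s0 = (‖s0‖ : ℂ) := by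
    by_cases h : s0 = 0
    · exact ⟨1, norm_one, by rw [h]; simp⟩
    · have h0 : ‖s0‖ ≠ 0 := norm_ne_zero_iff.2 h
      refine ⟨(‖s0‖ : ℂ) / s0, ?_, ?_⟩
      · rw [norm_div, Complex.norm_real, norm_norm, div_self h0]
      · field_simp
  have hR0 : 0 < R := by
    have : 0 ≤ 2 * ‖s0‖ / d := by positivity
    linarith
  have hrR : r ≤ R := by
    have : 0 ≤ 2 * ‖s0‖ / d := by positivity
    linarith
  have hrot : ∀ (q : ℝ) (s : ℂ), Jg q s = Jg q (u * s) := fun q s =>
    Jg_norm q (by rw [norm_mul, hu, one_mul])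
  have e : (fun s s' : ℂ => (Jg r (s - s' - s0) + Jg r (s - s' + s0)) / 2 +
      (1 + d) * Jg r (s - s') - 2 * Jg R (s - s')) = fun s s' : ℂ =>
      ((jg r ((u * s).re - (u * s').re - ‖s0‖) + jg r ((u * s).re - (u * s').re + ‖s0‖)) / 2 +
        (1 + d) * jg r ((u * s).re - (u * s').re) - 2 * jg R ((u * s).re - (u * s').re)) *
        jg r ((u * s).im - (u * s').im) +
      (2 * jg R ((u * s).re - (u * s').re)) *
        (jg r ((u * s).im - (u * s').im) - jg R ((u * s).im - (u * s').im)) := by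
    funext s s'
    rw [hrot r (s - s' - s0), hrot r (s - s' + s0), hrot r (s - s'), hrot R (s - s')]
    simp only [Jg_eq, mul_sub, mul_add, hs, Complex.sub_re, Complex.sub_im, Complex.add_re,
      Complex.add_im, Complex.ofReal_re, Complex.ofReal_im, sub_zero, add_zero]
    ring
  rw [e]
  exact (((PSD_shift1 (norm_nonneg s0) hd hr hR).comp fun s : ℂ => (u * s).re).mul
    ((PSD_jg hr).comp fun s : ℂ => (u * s).im)).add
    ((((PSD_jg hR0).smul (by norm_num : (0 : ℝ) ≤ 2)).comp fun s : ℂ => (u * s).re).mul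
    ((PSD_jg_sub hr hrR).comp fun s : ℂ => (u * s).im))

end Pool.Agent.SRig
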