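import Pool.Agent.SRig.Alg
import Pool.Agent.SRig.Psd

/-!
# SRig: states, levels, harmonic functions, arrays (section 1 of the blueprint for MP_ec87dd_an)
-/

set_option autoImplicit false

open scoped BigOperators

namespace Pool.Agent.SRig

/-! ### Words -/

/-- class of a letter -/
def ee (a : Fin 4) : V := Pi.single a 1

/-- length of a tile -/
noncomputable def len (a : Fin 4) : ℝ := ll (re (ee a))

/-- shorthand: coordinates of lattice vectors -/
noncomputable def lv (v : V) : ℝ := ll (re v)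
/-- contracting coordinate -/
noncomputable def cv (v : V) : ℝ := cc (re v)
/-- neutral coordinate -/
noncomputable def zv (v : V) : ℂ := zz (re v)

/-! ### States -/

/-- two tiles: the tile `a` at the origin, the tile `b` at the vector `v` -/
abbrev St := Fin 4 × Fin 4 × V

/-- length of the overlap -/
noncomputable def Iov (O : St) : ℝ :=
  max 0 (min (len O.1) (lv O.2.2 + len O.2.1) - max 0 (lv O.2.2))

/-- coincidence -/
def Coin (O : St) : Prop := O.1 = O.2.1 ∧ O.2.2 = 0

instance (O : St) : Decidable (Coin O) := by unfold Coin; infer_instance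

/-! ### Levels and their operators -/

/-- a level of the hierarchy: every letter has finitely many children (letter, prefix vector, weight) -/
structure Lev where
  /-- the matrix is `P ^ k` -/
  k : ℕ
  /-- index set of the children of a letter -/
  ι : Fin 4 → Type
  fin : ∀ a, Fintype (ι a)
  /-- letter -/
  lt : ∀ {a}, ι a → Fin 4
  /-- prefix vector -/
  pv : ∀ {a}, ι a → V
  /-- weight -/
  wt : ∀ {a}, ι a → ℝ

instance (τ : Lev) (a : Fin 4) : Fintype (τ.ι a) := τ.fin a

/-- child state -/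
def Lev.child (τ : Lev) (O : St) (x : τ.ι O.1) (y : τ.ι O.2.1) : St :=
  (τ.lt x, τ.lt y, (P ^ τ.k).mulVec O.2.2 + τ.pv y - τ.pv x)

/-- the operator of a level -/
noncomputable def Lev.op (τ : Lev) (F : St → ℝ) (O : St) : ℝ :=
  (t0 ^ τ.k)⁻¹ * ∑ x : τ.ι O.1, ∑ y : τ.ι O.2.1, τ.wt x * τ.wt y * F (τ.child O x y)

/-- what is needed about levels: nonnegative weights, right frequencies, and `P I = I` -/
structure Lev.Good (τ : Lev) : Prop where
  wt_nonneg : ∀ {a} (x : τ.ι a), 0 ≤ τ.wt x
  count : ∀ a b : Fin 4, (∑ x : τ.ι a, if τ.lt x = b then τ.wt x else 0) = ((P ^ τ.k) b a : ℝ)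
  opI : τ.op Iov = Iov
  /-- number of overlapping children, with weights -/
  opOne : ∀ O : St, τ.op (fun O => if 0 < Iov O then 1 else 0) O ≤ 2 * Iov O + 3 * (t0 ^ τ.k)⁻¹

/-- the level of a finite family of substitutions -/
noncomputable def wordLev (k : ℕ) {E : Type} [Fintype E] (β : E → ℝ)
    (sub : E → Fin 4 → List (Fin 4)) : Lev where
  k := k
  ι a := Σ η : E, Fin (sub η a).length
  fin a := inferInstance
  lt {a} p := (sub p.1 a)[p.2]
  pv {a} p := ab ((sub p.1 a).take p.2)
  wt p := β p.1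

/-! ### The harmonic functions -/

/-- `H₀` -/
noncomputable def H0 (O : St) : ℝ := if Coin O then len O.1 else 0

/-- `Hₙ` -/
noncomputable def HH (τ : Lev) (n : ℕ) : St → ℝ := (τ.op)^[n] H0

/-- `hₙ = Hₙ / I` -/
noncomputable def hh (τ : Lev) (n : ℕ) (O : St) : ℝ := HH τ n O / Iov O

/-! ### Arrays -/

/-- finite family of tiles in the transverse space -/
structure Arr where
  ι : Type
  fin : Fintype ι
  /-- letters -/
  lt : ι → Fin 4
  /-- contracting coordinates -/
  pos : ι → ℝ
  /-- neutral coordinates -/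
  zp : ι → ℂ
  /-- weights -/
  w : ι → ℝ

instance (ν : Arr) : Fintype ν.ι := ν.fin

/-- the next level of an array -/
noncomputable def Arr.next (τ : Lev) (ν : Arr) : Arr where
  ι := Σ i : ν.ι, τ.ι (ν.lt i)
  fin := inferInstance
  lt p := τ.lt p.2
  pos p := ν.pos p.1 / t0 ^ τ.k + cv (τ.pv p.2)
  zp p := w0 ^ τ.k * ν.zp p.1 + zv (τ.pv p.2)
  w p := ν.w p.1 * τ.wt p.2 / t0 ^ τ.k

/-- the bilinear functional `B` (`ζ` = the constant `ζ₀`) -/
noncomputable def BB (ζ D : ℝ) (J : ℂ → ℝ) (ν : Arr) (F : St → ℝ) : ℝ :=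
  ∑ i : ν.ι, ∑ j : ν.ι, ν.w i * ν.w j *
    ∑' v : V, Kd D (ζ * (cv v + ν.pos i - ν.pos j)) * J (zv v + ν.zp i - ν.zp j) *
      F (ν.lt i, ν.lt j, v)

/-- functions supported by finitely many states up to the contracting coordinate -/
def FS (F : St → ℝ) : Prop := ∃ R : ℝ, ∀ O, F O ≠ 0 → 0 < Iov O ∧ ‖zv O.2.2‖ ≤ R

/-- frequencies, normalised by `∑ f a * len a = 1` -/
noncomputable def ff (a : Fin 4) : ℝ :=
  ![1, t0 / (t0 - 1), 1 / t0, t0] a /
    ∑ b, ![1, t0 / (t0 - 1), 1 / t0, t0] b * len b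

/-- the class `C` -/
structure InC (Cν : ℝ) (ν : Arr) : Prop where
  w_nonneg : ∀ i, 0 ≤ ν.w i
  freq : ∀ a, (∑ i, if ν.lt i = a then ν.w i else 0) = ff a
  pos_le : ∀ i, |ν.pos i| ≤ Cν

/-- the class `C₀` -/
structure InC0 (Cν : ℝ) (ν : Arr) : Prop extends InC Cν ν where
  zp_zero : ∀ i, ν.zp i = 0

/-- the basic array -/
noncomputable def nu0 : Arr where
  ι := Fin 4
  fin := inferInstance
  lt a := a
  pos _ := 0
  zp _ := 0
  w := ff

end Pool.Agent.SRig
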