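import Pool.Agent.SRig.Alg

/-!
# SRig: small facts for sections 9 and 10 (blueprint for MP_ec87dd_an)

`exists_u` (9.2): `cover (3 g n) 0 0`, `n = 0, 1, ..`: infinitely many lattice points with `|z|, |c| ≤ gC` and increasing `l`;
pigeonhole into cells of size `1/(2R)` (coordinates `re z`, `im z`, `c`); the difference of two points in one cell; `R³ ≤ l` by `norm_form`.
`minpoly_root`: `(minpoly ℚ (t0^N))(X^N)` vanishes at `t0`, hence is divisible by the minimal polynomial of `t0`, which divides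
(and equals) `X⁴ - X³ - X² - X + 1`; so it vanishes at `w0`: irreducibility of `X⁴ - X³ - X² - X + 1` over `ℚ`: a linear relation
over `ℤ` between `1, t0, t0², t0³` is `ll (re v) = 0`, so `v = 0` by `norm_form`.  (Direct: if `p ∈ ℤ[X]` vanishes at `t0`, divide
by the monic quartic; the remainder has degree `≤ 3` and vanishes at `t0`, so it is zero by `norm_form`.)
`infinite_of_bounded`: if the set is finite, a point `x` of it satisfies `x (i + p) = x i` for some `p > 0` (pigeonhole for the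
iterates of the shift, which is injective and preserves the set); the window `x 0 .. x (m p - 1)` has class `m v`, `v ≠ 0` the
class of one period, `|c (m v)| = m |c v| → ∞`, `c v ≠ 0` by `norm_form`; but all factors of `σⁿ(a)` have `|c| ≤ 2 B`.
-/

set_option autoImplicit false

namespace Pool.Agent.SRig

theorem minpoly_root {N : ℕ} (hN : 1 ≤ N) :
    ((w0 ^ N : ℂ) ∈ (minpoly ℚ (t0 ^ N)).aroots ℂ) ∧ (w0 ^ N : ℂ) ≠ ((t0 ^ N : ℝ) : ℂ) ∧
      ¬ ‖(w0 ^ N : ℂ)‖ < 1 := by
  sorry

theorem infinite_of_bounded (σ : Fin 4 → List (Fin 4)) (B : ℝ)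
    (hB : ∀ (n : ℕ) (a : Fin 4) (w : List (Fin 4)),
      w <+: (fun w : List (Fin 4) => w.flatMap σ)^[n] [a] → |cc (re (ab w))| ≤ B)
    (hne : Set.Nonempty {x : ℤ → Fin 4 | ∀ (i : ℤ) (k : ℕ), ∃ (n : ℕ) (a : Fin 4),
          List.ofFn (fun j : Fin k => x (i + ((j : ℕ) : ℤ))) <:+:
            (fun w : List (Fin 4) => w.flatMap σ)^[n] [a]}) :
    Set.Infinite {x : ℤ → Fin 4 | ∀ (i : ℤ) (k : ℕ), ∃ (n : ℕ) (a : Fin 4),
          List.ofFn (fun j : Fin k => x (i + ((j : ℕ) : ℤ))) <:+:
            (fun w : List (Fin 4) => w.flatMap σ)^[n] [a]} := by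
  sorry

end Pool.Agent.SRig
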