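import Pool.Agent.SRig.Alg

/-!
# SRig: the vector `u` (section 9.2 of the blueprint for MP_ec87dd_an)

`cover (3 n) 0 0`, `n = 0, 1, ..`: infinitely many lattice points with `|z|, |c| ≤ gC` and increasing `l`;
pigeonhole into cells of size `1/(2R)` (coordinates `re z`, `im z`, `c`); the difference of two points in one cell; `R³ ≤ l` by `norm_form`.
-/

set_option autoImplicit false

namespace Pool.Agent.SRig

/-- (9.2) -/
theorem exists_u (R : ℝ) (hR : 1 ≤ R) : ∃ u : V, 0 < ll (re u) ∧ R ^ 3 ≤ ll (re u) ∧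
    ‖zz (re u)‖ ≤ 1 / R ∧ |cc (re u)| ≤ 1 / R := by
  have hR0 : 0 < R := by linarith
  choose v hv1 hv2 hv3 using fun n : ℕ => cover (3 * n) 0 0
  let f : ℕ → ℤ × ℤ × ℤ := fun n =>
    (⌊(zz (re (v n))).re * (2 * R)⌋, ⌊(zz (re (v n))).im * (2 * R)⌋, ⌊cc (re (v n)) * (2 * R)⌋)
  obtain ⟨B, hB⟩ := exists_nat_gt (gC * (2 * R) + 1)
  have hfl : ∀ x : ℝ, |x| ≤ gC → ⌊x * (2 * R)⌋ ∈ Set.Icc (-(B : ℤ)) B := by
    intro x hx
    have h1 := abs_le.1 hx
    have h2 : |x * (2 * R)| ≤ gC * (2 * R) := by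
      rw [abs_mul, abs_of_pos (by linarith : 0 < 2 * R)]
      exact mul_le_mul_of_nonneg_right hx (by linarith)
    have h3 := abs_le.1 h2
    constructor
    · rw [Int.le_floor]
      push_cast
      linarith
    · have h4 : ⌊x * (2 * R)⌋ ≤ x * (2 * R) := Int.floor_le _
      have h5 : (⌊x * (2 * R)⌋ : ℝ) ≤ (B : ℤ) := by
        push_cast
        linarith
      exact_mod_cast h5
  have hmaps : Set.MapsTo f Set.univ
      (Set.Icc (-(B : ℤ)) B ×ˢ (Set.Icc (-(B : ℤ)) B ×ˢ Set.Icc (-(B : ℤ)) B)) := by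
    intro n _
    have hz := hv2 n
    rw [sub_zero] at hz
    have hc := hv3 n
    rw [sub_zero] at hc
    exact ⟨hfl _ ((Complex.abs_re_le_norm _).trans hz),
      hfl _ ((Complex.abs_im_le_norm _).trans hz), hfl _ hc⟩
  have hfin : (Set.Icc (-(B : ℤ)) B ×ˢ (Set.Icc (-(B : ℤ)) B ×ˢ Set.Icc (-(B : ℤ)) B)).Finite :=
    (Set.finite_Icc _ _).prod ((Set.finite_Icc _ _).prod (Set.finite_Icc _ _))
  obtain ⟨p, -, q, -, hpq, hfpq⟩ :=
    Set.infinite_univ.exists_ne_map_eq_of_mapsTo hmaps hfin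
  -- order the two indices
  obtain ⟨n, m, hnm, hf⟩ : ∃ n m, n < m ∧ f n = f m := by
    rcases lt_or_gt_of_ne hpq with h | h
    · exact ⟨p, q, h, hfpq⟩
    · exact ⟨q, p, h, hfpq.symm⟩
  have hl : 2 ≤ ll (re (v m - v n)) := by
    rw [re_sub, ll_sub]
    have h1 := abs_le.1 (hv1 n)
    have h2 := abs_le.1 (hv1 m)
    have h3 : (n : ℝ) + 1 ≤ m := by exact_mod_cast hnm
    linarith
  have hcell : ∀ x y : ℝ, ⌊x * (2 * R)⌋ = ⌊y * (2 * R)⌋ → |y - x| ≤ 1 / (2 * R) := by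
    intro x y h
    have h1 := Int.abs_sub_lt_one_of_floor_eq_floor h
    rw [← sub_mul, abs_mul, abs_of_pos (by linarith : 0 < 2 * R)] at h1
    rw [abs_sub_comm, le_div_iff₀ (by linarith)]
    exact h1.le
  have hf1 : ⌊(zz (re (v n))).re * (2 * R)⌋ = ⌊(zz (re (v m))).re * (2 * R)⌋ :=
    congrArg Prod.fst hf
  have hf2 : ⌊(zz (re (v n))).im * (2 * R)⌋ = ⌊(zz (re (v m))).im * (2 * R)⌋ :=
    congrArg (fun q : ℤ × ℤ × ℤ => q.2.1) hf
  have hf3 : ⌊cc (re (v n)) * (2 * R)⌋ = ⌊cc (re (v m)) * (2 * R)⌋ :=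
    congrArg (fun q : ℤ × ℤ × ℤ => q.2.2) hf
  have hz : ‖zz (re (v m - v n))‖ ≤ 1 / R := by
    rw [re_sub, zz_sub]
    refine (Complex.norm_le_abs_re_add_abs_im _).trans ?_
    rw [Complex.sub_re, Complex.sub_im]
    have h1 := hcell _ _ hf1
    have h2 := hcell _ _ hf2
    have h3 : 1 / (2 * R) + 1 / (2 * R) = 1 / R := by field_simp; norm_num
    linarith
  have hc : |cc (re (v m - v n))| ≤ 1 / R := by
    rw [re_sub, cc_sub]
    refine (hcell _ _ hf3).trans ?_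
    exact one_div_le_one_div_of_le hR0 (by linarith)
  refine ⟨v m - v n, by linarith, ?_, hz, hc⟩
  have hne : v m - v n ≠ 0 := by
    intro h0
    rw [h0] at hl
    have : ll (re (0 : V)) = 0 := by
      simp [ll, yy, re]
    linarith
  have h1 := norm_form hne
  rw [abs_of_pos (by linarith : 0 < ll (re (v m - v n)))] at h1
  set l := ll (re (v m - v n))
  have h2 : ‖zz (re (v m - v n))‖ ^ 2 ≤ (1 / R) ^ 2 := pow_le_pow_left₀ (norm_nonneg _) hz 2
  have h3 : l * |cc (re (v m - v n))| * ‖zz (re (v m - v n))‖ ^ 2 ≤ l * (1 / R) * (1 / R) ^ 2 := by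
    refine mul_le_mul (mul_le_mul_of_nonneg_left hc (by linarith)) h2 (by positivity) ?_
    have : 0 ≤ l := by linarith
    positivity
  have h4 : 1 ≤ l * (1 / R) ^ 3 := by
    refine h1.trans (h3.trans (le_of_eq (by ring)))
  have h5 : R ^ 3 * (1 / R) ^ 3 = 1 := by
    rw [← mul_pow, mul_one_div_cancel hR0.ne', one_pow]
  have h6 : 0 < R ^ 3 := by positivity
  nlinarith

end Pool.Agent.SRig
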