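import Mathlib

/-!
# SRig: the sequence `X` (section 9.3 of the blueprint for MP_ec87dd_an)

Counting: among all functions `Fin M → D` the fraction violating the condition for one triple `(i, j, ρ)` is
at most `(1 - 1/|D|²)^(T/2)`: the pairs of places with offsets `a + K ⌊a / K⌋`, `a < T / 2`, `K = |j - i|`, are
pairwise disjoint.  Union bound over `≤ M² |D|` triples.
-/

set_option autoImplicit false

namespace Pool.Agent.SRig

/-- Functions avoiding a fixed value on `m` disjoint pairs of places. -/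
lemma card_avoid {D : Type*} [Fintype D] [DecidableEq D] {n m : ℕ} (f : Fin m × Bool → Fin n)
    (hf : Function.Injective f) (q0 : D × D) :
    (Finset.univ.filter fun X : Fin n → D =>
      ∀ i, (X (f (i, false)), X (f (i, true))) ≠ q0).card ≤
      (Fintype.card D ^ 2 - 1) ^ m * Fintype.card D ^ (n - 2 * m) := by
  classical
  have h1 : Fintype.card ((Fin m → {q : D × D // q ≠ q0}) ×
      ({j : Fin n // j ∉ Set.range f} → D)) =
      (Fintype.card D ^ 2 - 1) ^ m * Fintype.card D ^ (n - 2 * m) := by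
    rw [Fintype.card_prod, Fintype.card_fun, Fintype.card_fun, Fintype.card_fin]
    congr 1
    · congr 1
      rw [Fintype.card_subtype_compl, Fintype.card_prod, Fintype.card_subtype_eq, sq]
    · congr 1
      have h2 : Fintype.card {j : Fin n // j ∉ Set.range f} =
          Fintype.card (Fin n) - Fintype.card {j : Fin n // j ∈ Set.range f} :=
        Fintype.card_subtype_compl _
      have h3 : Fintype.card {j : Fin n // j ∈ Set.range f} = Fintype.card (Fin m × Bool) :=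
        (Fintype.card_congr (Equiv.ofInjective f hf)).symm
      rw [h2, h3, Fintype.card_prod, Fintype.card_fin, Fintype.card_fin, Fintype.card_bool,
        mul_comm]
  rw [← h1, ← Fintype.card_coe]
  refine Fintype.card_le_of_injective
    (fun X => (fun i => ⟨(X.1 (f (i, false)), X.1 (f (i, true))),
      (Finset.mem_filter.1 X.2).2 i⟩, fun j => X.1 j.1)) ?_
  rintro ⟨X, hX⟩ ⟨Y, hY⟩ h
  apply Subtype.ext
  funext j
  rw [Prod.mk.injEq] at h
  by_cases hj : j ∈ Set.range f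
  · obtain ⟨⟨i, b⟩, rfl⟩ := hj
    have h2 := congrArg Subtype.val (congrFun h.1 i)
    simp only [Prod.mk.injEq] at h2
    cases b
    · exact h2.1
    · exact h2.2
  · exact congrFun h.2 ⟨j, hj⟩

/-- the places `i + k ⌊i / k⌋` -/
lemma places {k i j : ℕ} (hk : 0 < k) (h : i + k * (i / k) = j + k * (j / k) + k) : False := by
  have h1 := Nat.div_add_mod i k
  have h2 := Nat.div_add_mod j k
  have h3 := Nat.mod_lt i hk
  have h4 := Nat.mod_lt j hk
  -- `2 k a + r = 2 k b + s + k`, `r, s < k`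
  set a := i / k
  set b := j / k
  have h5 : 2 * (k * a) + i % k = 2 * (k * b) + j % k + k := by omega
  rcases lt_trichotomy a b with hab | hab | hab
  · have : k * (a + 1) ≤ k * b := Nat.mul_le_mul_left k hab
    rw [mul_add, mul_one] at this
    omega
  · rw [hab] at h5
    omega
  · have : k * (b + 1) ≤ k * a := Nat.mul_le_mul_left k hab
    rw [mul_add, mul_one] at this
    omega

lemma places_inj {k i j : ℕ} (h : i + k * (i / k) = j + k * (j / k)) : i = j := by
  rcases lt_trichotomy i j with hij | hij | hij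
  · have : k * (i / k) ≤ k * (j / k) := Nat.mul_le_mul_left k (Nat.div_le_div_right hij.le)
    omega
  · exact hij
  · have : k * (j / k) ≤ k * (i / k) := Nat.mul_le_mul_left k (Nat.div_le_div_right hij.le)
    omega

/-- finite form -/
lemma exists_X_fin {D : Type*} [Fintype D] [DecidableEq D] [Nonempty D] (d0 : D) (n T : ℕ)
    (hT : 1 ≤ T)
    (h : (n : ℝ) ^ 2 * Fintype.card D * (1 - 1 / (Fintype.card D : ℝ) ^ 2) ^ (T / 2) < 1) :
    ∃ X : ℕ → D, ∀ t1 t2 : ℕ, t1 ≠ t2 → t1 + T ≤ n → t2 + T ≤ n → ∀ ρ : D,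
      ∃ s < T, X (t1 + s) = d0 ∧ X (t2 + s) = ρ := by
  classical
  set c := Fintype.card D with hc
  have hc1 : 1 ≤ c := Fintype.card_pos
  set m := T / 2 with hm
  by_contra hcon
  push Not at hcon
  -- bad sets
  let idx : Finset (ℕ × ℕ × D) := ((Finset.range n ×ˢ (Finset.range n ×ˢ Finset.univ)).filter
    fun q => q.1 ≠ q.2.1 ∧ q.1 + T ≤ n ∧ q.2.1 + T ≤ n)
  let bad : ℕ × ℕ × D → Finset (Fin n → D) := fun q => Finset.univ.filter fun X =>
    ∀ s < T, ∀ (h1 : q.1 + s < n) (h2 : q.2.1 + s < n),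
      (X ⟨q.1 + s, h1⟩, X ⟨q.2.1 + s, h2⟩) ≠ (d0, q.2.2)
  have hcov : (Finset.univ : Finset (Fin n → D)) ⊆ idx.biUnion bad := by
    intro X _
    obtain ⟨t1, t2, hne, h1, h2, ρ, hρ⟩ := hcon fun s => if hs : s < n then X ⟨s, hs⟩ else d0
    rw [Finset.mem_biUnion]
    refine ⟨(t1, t2, ρ), ?_, ?_⟩
    · simp only [idx, Finset.mem_filter, Finset.mem_product, Finset.mem_range, Finset.mem_univ,
        and_true]
      exact ⟨⟨by omega, by omega⟩, hne, h1, h2⟩
    · simp only [bad, Finset.mem_filter, Finset.mem_univ, true_and]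
      intro s hs h3 h4 h5
      rw [Prod.mk.injEq] at h5
      refine hρ s hs ?_ ?_
      · rw [dif_pos h3]
        exact h5.1
      · rw [dif_pos h4]
        exact h5.2
  have hbad : ∀ q ∈ idx, (bad q).card ≤ (c ^ 2 - 1) ^ m * c ^ (n - 2 * m) := by
    rintro ⟨t1, t2, ρ⟩ hq
    simp only [idx, Finset.mem_filter, Finset.mem_product, Finset.mem_range, Finset.mem_univ,
      and_true] at hq
    obtain ⟨⟨-, -⟩, hne, h1, h2⟩ := hq
    -- the pairs
    obtain ⟨k, hk, hkk⟩ : ∃ k : ℕ, 0 < k ∧ (t2 = t1 + k ∨ t1 = t2 + k) := by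
      rcases lt_or_gt_of_ne hne with h3 | h3
      · exact ⟨t2 - t1, by omega, Or.inl (by omega)⟩
      · exact ⟨t1 - t2, by omega, Or.inr (by omega)⟩
    have hs : ∀ i : Fin m, (i : ℕ) + k * (i / k) < T := by
      intro i
      have h3 := Nat.mul_div_le (i : ℕ) k
      have h4 := i.2
      omega
    let f : Fin m × Bool → Fin n := fun p =>
      ⟨(if p.2 then t2 else t1) + ((p.1 : ℕ) + k * (p.1 / k)), by
        have := hs p.1
        split_ifs <;> omega⟩
    have hf : Function.Injective f := by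
      rintro ⟨i, b⟩ ⟨j, b'⟩ h3
      have h4 : (if b then t2 else t1) + ((i : ℕ) + k * (i / k)) =
        (if b' then t2 else t1) + ((j : ℕ) + k * (j / k)) := congrArg Fin.val h3
      cases b <;> cases b' <;> simp only [Bool.false_eq_true, if_true, if_false] at h4
      · rw [Prod.mk.injEq]
        exact ⟨Fin.ext (places_inj (k := k) (by omega)), rfl⟩
      · exfalso
        rcases hkk with h5 | h5
        · exact places hk (i := i) (j := j) (by omega)
        · exact places hk (i := j) (j := i) (by omega)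
      · exfalso
        rcases hkk with h5 | h5
        · exact places hk (i := j) (j := i) (by omega)
        · exact places hk (i := i) (j := j) (by omega)
      · rw [Prod.mk.injEq]
        exact ⟨Fin.ext (places_inj (k := k) (by omega)), rfl⟩
    refine le_trans (Finset.card_le_card ?_) (card_avoid f hf (d0, ρ))
    intro X hX
    simp only [bad, Finset.mem_filter, Finset.mem_univ, true_and] at hX ⊢
    intro i
    have h3 := hs i
    exact hX ((i : ℕ) + k * (i / k)) h3 (by omega) (by omega)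
  have hidx : idx.card ≤ n ^ 2 * c := by
    refine (Finset.card_filter_le _ _).trans ?_
    rw [Finset.card_product, Finset.card_product, Finset.card_range, Finset.card_univ]
    exact le_of_eq (by ring)
  have htot : c ^ n ≤ n ^ 2 * c * ((c ^ 2 - 1) ^ m * c ^ (n - 2 * m)) := by
    have h3 : (Finset.univ : Finset (Fin n → D)).card = c ^ n := by
      rw [Finset.card_univ, Fintype.card_fun, Fintype.card_fin]
    rw [← h3]
    refine (Finset.card_le_card hcov).trans ?_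
    refine (Finset.card_biUnion_le_card_mul _ _ _ hbad).trans ?_
    exact Nat.mul_le_mul_right _ hidx
  -- hence a contradiction; we need `2 m ≤ n`
  by_cases hn : 2 * m ≤ n
  · have hcr : (0 : ℝ) < c := by exact_mod_cast hc1
    have h4 : ((c ^ n : ℕ) : ℝ) ≤ (n : ℝ) ^ 2 * c * (((c : ℝ) ^ 2 - 1) ^ m * (c : ℝ) ^ (n - 2 * m)) := by
      have h5 : (((c ^ 2 - 1 : ℕ) : ℕ) : ℝ) = (c : ℝ) ^ 2 - 1 := by
        rw [Nat.cast_sub (Nat.one_le_pow _ _ hc1)]
        push_cast
        ring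
      have h6 : ((c ^ n : ℕ) : ℝ) ≤ ((n ^ 2 * c * ((c ^ 2 - 1) ^ m * c ^ (n - 2 * m)) : ℕ) : ℝ) := by
        exact_mod_cast htot
      rw [Nat.cast_mul, Nat.cast_mul, Nat.cast_mul, Nat.cast_pow (c ^ 2 - 1) m, h5] at h6
      push_cast at h6 ⊢
      exact h6
    have h7 : (1 - 1 / (c : ℝ) ^ 2) ^ m * (c : ℝ) ^ (2 * m) = ((c : ℝ) ^ 2 - 1) ^ m := by
      rw [pow_mul, ← mul_pow]
      congr 1
      field_simp
    have h8 : (c : ℝ) ^ n = (c : ℝ) ^ (2 * m) * (c : ℝ) ^ (n - 2 * m) := by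
      rw [← pow_add, Nat.add_sub_cancel' hn]
    rw [← h7] at h4
    push_cast at h4
    rw [h8] at h4
    have h9 : (0 : ℝ) < (c : ℝ) ^ (2 * m) * (c : ℝ) ^ (n - 2 * m) := by positivity
    have h10 : (n : ℝ) ^ 2 * c * ((1 - 1 / (c : ℝ) ^ 2) ^ m * (c : ℝ) ^ (2 * m) *
        (c : ℝ) ^ (n - 2 * m)) = ((n : ℝ) ^ 2 * c * (1 - 1 / (c : ℝ) ^ 2) ^ m) *
        ((c : ℝ) ^ (2 * m) * (c : ℝ) ^ (n - 2 * m)) := by ring
    rw [h10] at h4
    have h11 : ((n : ℝ) ^ 2 * c * (1 - 1 / (c : ℝ) ^ 2) ^ m) *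
        ((c : ℝ) ^ (2 * m) * (c : ℝ) ^ (n - 2 * m)) <
        1 * ((c : ℝ) ^ (2 * m) * (c : ℝ) ^ (n - 2 * m)) := mul_lt_mul_of_pos_right h h9
    linarith
  · -- no window fits
    obtain ⟨t1, t2, hne, h1, h2, ρ, hρ⟩ := hcon fun _ => d0
    omega

/-- A sequence in which every pattern `(d₀, ρ)` is seen at every distance in every window of length `(log M)²`. -/
theorem exists_X {D : Type} [Fintype D] [DecidableEq D] (d₀ : D) :
    ∃ M₀ : ℕ, ∀ M : ℕ, M₀ ≤ M → ∃ X : ℕ → D, ∀ i j : ℕ, i ≠ j →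
      i + ⌈Real.log M ^ 2⌉₊ ≤ M → j + ⌈Real.log M ^ 2⌉₊ ≤ M → ∀ ρ : D,
        ∃ s < ⌈Real.log M ^ 2⌉₊, X (i + s) = d₀ ∧ X (j + s) = ρ := by
  classical
  have : Nonempty D := ⟨d₀⟩
  set c := Fintype.card D with hc
  have hc1 : 1 ≤ c := Fintype.card_pos
  have hcr : (1 : ℝ) ≤ c := by exact_mod_cast hc1
  have hl : 0 ≤ Real.log c := Real.log_nonneg hcr
  set Y0 : ℝ := 2 * (c : ℝ) ^ 2 * (4 + Real.log c) with hY0
  have hY1 : 1 ≤ Y0 := by nlinarith
  refine ⟨⌈Real.exp Y0⌉₊, fun R hR => ?_⟩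
  have hR1 : Real.exp Y0 ≤ R := (Nat.le_ceil _).trans (by exact_mod_cast hR)
  have hRpos : (0 : ℝ) < R := (Real.exp_pos _).trans_le hR1
  have hy : Y0 ≤ Real.log R := (Real.le_log_iff_exp_le hRpos).2 hR1
  set y := Real.log R with hyd
  have hy1 : 1 ≤ y := hY1.trans hy
  set T := ⌈y ^ 2⌉₊ with hTdef
  have hT : (y ^ 2 : ℝ) ≤ T := Nat.le_ceil _
  have hT1 : 1 ≤ T := by
    have : (1 : ℝ) ≤ T := by nlinarith
    exact_mod_cast this
  have hm : (y ^ 2 - 1) / 2 ≤ ((T / 2 : ℕ) : ℝ) := by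
    have h1 : T ≤ 2 * (T / 2) + 1 := by omega
    have h2 : ((T : ℕ) : ℝ) ≤ 2 * ((T / 2 : ℕ) : ℝ) + 1 := by exact_mod_cast h1
    linarith
  refine exists_X_fin d₀ R T hT1 ?_
  have h1 : (1 - 1 / (c : ℝ) ^ 2) ≤ Real.exp (-(1 / (c : ℝ) ^ 2)) := by
    have := Real.add_one_le_exp (-(1 / (c : ℝ) ^ 2))
    linarith
  have h0' : 0 ≤ 1 - 1 / (c : ℝ) ^ 2 := by
    have : 1 / (c : ℝ) ^ 2 ≤ 1 := by
      rw [div_le_one (by positivity)]
      nlinarith
    linarith
  have h2 : (1 - 1 / (c : ℝ) ^ 2) ^ (T / 2) ≤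
      Real.exp (-((y ^ 2 - 1) / (2 * (c : ℝ) ^ 2))) := by
    calc (1 - 1 / (c : ℝ) ^ 2) ^ (T / 2) ≤
        Real.exp (-(1 / (c : ℝ) ^ 2)) ^ (T / 2) := pow_le_pow_left₀ h0' h1 _
      _ = Real.exp (((T / 2 : ℕ) : ℝ) * (-(1 / (c : ℝ) ^ 2))) := by rw [Real.exp_nat_mul]
      _ ≤ _ := by
        apply Real.exp_le_exp.2
        have h3 : ((y ^ 2 - 1) / 2) * (1 / (c : ℝ) ^ 2) ≤
            ((T / 2 : ℕ) : ℝ) * (1 / (c : ℝ) ^ 2) :=
          mul_le_mul_of_nonneg_right hm (by positivity)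
        have h4 : ((y ^ 2 - 1) / 2) * (1 / (c : ℝ) ^ 2) = (y ^ 2 - 1) / (2 * (c : ℝ) ^ 2) := by
          field_simp
        linarith
  have h5 : (R : ℝ) ^ 2 * c ≤ Real.exp (Real.log c + 2 * y) := by
    rw [Real.exp_add, Real.exp_log (by positivity), two_mul, Real.exp_add, hyd,
      Real.exp_log hRpos]
    exact le_of_eq (by ring)
  have h6 : Real.log c + 2 * y < (y ^ 2 - 1) / (2 * (c : ℝ) ^ 2) := by
    rw [lt_div_iff₀ (by positivity)]
    have h7 : Y0 * y ≤ y ^ 2 := by nlinarith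
    have h8 : 2 * (c : ℝ) ^ 2 * (4 + Real.log c) * y ≤ y ^ 2 := h7
    have h9 : (1 : ℝ) ≤ (c : ℝ) ^ 2 := by nlinarith
    have h10 : Real.log c ≤ Real.log c * y := by nlinarith
    have h11 : Real.log c * (2 * (c : ℝ) ^ 2) ≤
        Real.log c * y * (2 * (c : ℝ) ^ 2) :=
      mul_le_mul_of_nonneg_right h10 (by positivity)
    nlinarith
  calc (R : ℝ) ^ 2 * c * (1 - 1 / (c : ℝ) ^ 2) ^ (T / 2) ≤
      Real.exp (Real.log c + 2 * y) *
        Real.exp (-((y ^ 2 - 1) / (2 * (c : ℝ) ^ 2))) :=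
        mul_le_mul h5 h2 (pow_nonneg h0' _) (Real.exp_pos _).le
    _ = Real.exp (Real.log c + 2 * y - (y ^ 2 - 1) / (2 * (c : ℝ) ^ 2)) := by
        rw [← Real.exp_add]
        congr 1
    _ < 1 := Real.exp_lt_one_iff.2 (by linarith)

end Pool.Agent.SRig
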